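import Pool.Agent.SST.D.Lift

/-!
# SST-D-Form: the form as a bilinear map on 1-cycles
* `exists_form`: `zz : {h // InH h} → {z // IsCyc z}` is linear and surjective (`lift`), so it has a
  linear right inverse (`LinearMap.exists_rightInverse_of_surjective`), which extends linearly to all
  `z : D → ℝ` (compose with a projection onto the submodule of cycles:
  `Submodule.exists_isCompl`, `Submodule.linearProjOfIsCompl`; or `LinearMap.exists_extend`).  Call
  it `L`.  Put `B z z' := - ∑ d, (L z d + L z (s d)) * z' d` (`LinearMap.mk₂`).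
  First property: `h - L (zz h)` is in H and `zz` of it is 0, i.e. it is `s`-invariant, so
  `∑ (h - L (zz h)) (d) * z' d` vanishes (sum over each vertex; or: `z' = zz h'` and `Om_vertex`).
  Second: `Om_z`.  Third, fourth: `Om_self`, `Om_swap` with lifts.
* `BB_disj`: take the lift `h` of `z` which vanishes on the vertices where `z` vanishes; every term
  `(h d + h (s d)) * z' d` is 0.
-/

namespace SST
namespace Tri

open Classical

variable {D : Type} [Fintype D]

private theorem exists_L (T : Tri D) : ∃ L : (D → ℝ) →ₗ[ℝ] (D → ℝ),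
    ∀ z, T.IsCyc z → T.InH (L z) ∧ T.zz (L z) = z := by
  let Hs : Submodule ℝ (D → ℝ) :=
    { carrier := {h | T.InH h}
      add_mem' := by
        intro x y hx hy d
        have h1 := hx d
        have h2 := hy d
        show x (T.f d) + y (T.f d) + (x (T.s d) + y (T.s d)) = x d + y d + (x (T.a d) + y (T.a d))
        linarith
      zero_mem' := by
        intro d
        show (0 : ℝ) + 0 = 0 + 0
        rfl
      smul_mem' := by
        intro c x hx d
        have h1 := hx d
        show c * x (T.f d) + c * x (T.s d) = c * x d + c * x (T.a d)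
        linear_combination c * h1 }
  let Zs : Submodule ℝ (D → ℝ) :=
    { carrier := {z | T.IsCyc z}
      add_mem' := by
        intro x y hx hy
        refine ⟨fun d => ?_, fun d => ?_⟩
        · show x (T.a d) + y (T.a d) = - (x d + y d)
          rw [hx.1, hy.1]; ring
        · show ∑ e with T.tl e = T.tl d, (x e + y e) = 0
          rw [Finset.sum_add_distrib, hx.2, hy.2, add_zero]
      zero_mem' := by
        refine ⟨fun d => ?_, fun d => ?_⟩
        · show (0 : ℝ) = - 0
          rw [neg_zero]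
        · exact Finset.sum_eq_zero (fun _ _ => rfl)
      smul_mem' := by
        intro c x hx
        refine ⟨fun d => ?_, fun d => ?_⟩
        · show c * x (T.a d) = - (c * x d)
          rw [hx.1]; ring
        · show ∑ e with T.tl e = T.tl d, c * x e = 0
          rw [← Finset.mul_sum, hx.2, mul_zero] }
  let zl : (D → ℝ) →ₗ[ℝ] (D → ℝ) :=
    { toFun := T.zz
      map_add' := by
        intro x y
        funext d
        show x (T.s d) + y (T.s d) - (x d + y d) = (x (T.s d) - x d) + (y (T.s d) - y d)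
        ring
      map_smul' := by
        intro c x
        funext d
        show c * x (T.s d) - c * x d = c * (x (T.s d) - x d)
        ring }
  let zr : Hs →ₗ[ℝ] Zs := (zl.comp Hs.subtype).codRestrict Zs (fun h => T.zz_cyc h.2)
  have hsurj : LinearMap.range zr = ⊤ := by
    rw [LinearMap.range_eq_top]
    rintro ⟨z, hz⟩
    obtain ⟨h, h1, h2, _⟩ := T.lift hz
    exact ⟨⟨h, h1⟩, Subtype.ext h2⟩
  obtain ⟨g, hg⟩ := LinearMap.exists_rightInverse_of_surjective zr hsurj
  obtain ⟨L, hL⟩ := LinearMap.exists_extend (Hs.subtype.comp g)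
  refine ⟨L, fun z hz => ?_⟩
  have e1 : L z = (g ⟨z, hz⟩ : D → ℝ) := by
    have := congrArg (fun F => F (⟨z, hz⟩ : Zs)) hL
    exact this
  rw [e1]
  refine ⟨(g ⟨z, hz⟩).2, ?_⟩
  have h3 := congrArg (fun F => F (⟨z, hz⟩ : Zs)) hg
  have h4 : zr (g ⟨z, hz⟩) = (⟨z, hz⟩ : Zs) := h3
  exact congrArg Subtype.val h4

theorem exists_form (T : Tri D) : ∃ B : (D → ℝ) →ₗ[ℝ] (D → ℝ) →ₗ[ℝ] ℝ,
    (∀ h z', T.InH h → T.IsCyc z' → B (T.zz h) z' = - ∑ d, (h d + h (T.s d)) * z' d) ∧
    (∀ h h', T.InH h → T.InH h' → B (T.zz h) (T.zz h') = T.Om h h') ∧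
    (∀ z, T.IsCyc z → B z z = 0) ∧
    (∀ z z', T.IsCyc z → T.IsCyc z' → B z z' = - B z' z) := by
  obtain ⟨L, hL⟩ := T.exists_L
  let B : (D → ℝ) →ₗ[ℝ] (D → ℝ) →ₗ[ℝ] ℝ := LinearMap.mk₂ ℝ
    (fun z z' => - ∑ d, (L z d + L z (T.s d)) * z' d)
    (by
      intro x y z
      rw [map_add, ← neg_add, ← Finset.sum_add_distrib]
      congr 1
      refine Finset.sum_congr rfl (fun d _ => ?_)
      show (L x d + L y d + (L x (T.s d) + L y (T.s d))) * z d = _
      ring)
    (by
      intro c x z
      rw [map_smul, smul_eq_mul, mul_neg, Finset.mul_sum]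
      congr 1
      refine Finset.sum_congr rfl (fun d _ => ?_)
      show (c * L x d + c * L x (T.s d)) * z d = _
      ring)
    (by
      intro x y z
      rw [← neg_add, ← Finset.sum_add_distrib]
      congr 1
      refine Finset.sum_congr rfl (fun d _ => ?_)
      show (L x d + L x (T.s d)) * (y d + z d) = _
      ring)
    (by
      intro c x z
      rw [smul_eq_mul, mul_neg, Finset.mul_sum]
      congr 1
      refine Finset.sum_congr rfl (fun d _ => ?_)
      show (L x d + L x (T.s d)) * (c * z d) = _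
      ring)
  have hB : ∀ z z', B z z' = - ∑ d, (L z d + L z (T.s d)) * z' d := fun _ _ => rfl
  have p1 : ∀ h z', T.InH h → T.IsCyc z' → B (T.zz h) z' = - ∑ d, (h d + h (T.s d)) * z' d := by
    intro h z' hh hz'
    obtain ⟨h', hh', rfl, _⟩ := T.lift hz'
    obtain ⟨a1, a2⟩ := hL _ (T.zz_cyc hh)
    set h0 := L (T.zz h) with hh0
    let q : D → ℝ := fun d => h d - h0 d
    have hq : ∀ d, q (T.s d) = q d := by
      intro d
      have h1 : h0 (T.s d) - h0 d = h (T.s d) - h d := congrFun a2 d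
      show h (T.s d) - h0 (T.s d) = h d - h0 d
      linarith
    have hqH := T.InH_vertex hq
    have h2 : T.Om q h' = 0 := by
      rw [T.Om_swap, T.Om_vertex hh' hq, neg_zero]
    have h3 := T.Om_z hqH hh'
    rw [h2] at h3
    have h4 : ∑ d, (q d + q (T.s d)) * T.zz h' d = ∑ d, (h d + h (T.s d)) * T.zz h' d -
        ∑ d, (h0 d + h0 (T.s d)) * T.zz h' d := by
      rw [← Finset.sum_sub_distrib]
      refine Finset.sum_congr rfl (fun d _ => ?_)
      show (h d - h0 d + (h (T.s d) - h0 (T.s d))) * T.zz h' d = _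
      ring
    rw [hB]
    linarith
  have p2 : ∀ h h', T.InH h → T.InH h' → B (T.zz h) (T.zz h') = T.Om h h' := by
    intro h h' hh hh'
    rw [p1 h _ hh (T.zz_cyc hh'), T.Om_z hh hh']
  refine ⟨B, p1, p2, ?_, ?_⟩
  · intro z hz
    obtain ⟨h, hh, rfl, _⟩ := T.lift hz
    rw [p2 h h hh hh, T.Om_self]
  · intro z z' hz hz'
    obtain ⟨h, hh, rfl, _⟩ := T.lift hz
    obtain ⟨h', hh', rfl, _⟩ := T.lift hz'
    rw [p2 h h' hh hh', p2 h' h hh' hh, T.Om_swap]

/-- The intersection form on 1-cycles. -/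
noncomputable def BB (T : Tri D) : (D → ℝ) →ₗ[ℝ] (D → ℝ) →ₗ[ℝ] ℝ := Classical.choose T.exists_form

theorem BB_lift (T : Tri D) {h z' : D → ℝ} (hh : T.InH h) (hz' : T.IsCyc z') :
    T.BB (T.zz h) z' = - ∑ d, (h d + h (T.s d)) * z' d :=
  (Classical.choose_spec T.exists_form).1 h z' hh hz'

theorem BB_Om (T : Tri D) {h h' : D → ℝ} (hh : T.InH h) (hh' : T.InH h') :
    T.BB (T.zz h) (T.zz h') = T.Om h h' :=
  (Classical.choose_spec T.exists_form).2.1 h h' hh hh'

theorem BB_self (T : Tri D) {z : D → ℝ} (hz : T.IsCyc z) : T.BB z z = 0 :=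
  (Classical.choose_spec T.exists_form).2.2.1 z hz

theorem BB_swap (T : Tri D) {z z' : D → ℝ} (hz : T.IsCyc z) (hz' : T.IsCyc z') :
    T.BB z z' = - T.BB z' z :=
  (Classical.choose_spec T.exists_form).2.2.2 z z' hz hz'

/-- Locality of the form. -/
theorem BB_disj (T : Tri D) {z z' : D → ℝ} (hz : T.IsCyc z) (hz' : T.IsCyc z')
    (h : ∀ d, (∀ e, T.tl e = T.tl d → z e = 0) ∨ (∀ e, T.tl e = T.tl d → z' e = 0)) :
    T.BB z z' = 0 := by
  obtain ⟨g, hg, hgz, hg0⟩ := T.lift hz
  rw [← hgz, T.BB_lift hg hz', neg_eq_zero]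
  refine Finset.sum_eq_zero (fun d _ => ?_)
  rcases h d with h1 | h1
  · have h2 : g d = 0 := hg0 d h1
    have h3 : g (T.s d) = 0 := by
      refine hg0 (T.s d) (fun e he => h1 e ?_)
      rw [he, T.tl_s]
    rw [h2, h3, add_zero, zero_mul]
  · rw [h1 d rfl, mul_zero]

/-- `K` carries the intersection form (genus at least 1). -/
def Good (T : Tri D) (K : Finset D) : Prop :=
  ∃ z z', T.IsCyc z ∧ T.IsCyc z' ∧ Supp z K ∧ Supp z' K ∧ T.BB z z' ≠ 0

end Tri
end SST
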