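import Pool.Agent.SST.D.Rad
import Pool.Agent.SST.D.Form

/-!
# SST-D-Rank: the rank of Omega is at least 2g  (paper proof, (2.6))
Let `H` be the submodule of `D → ℝ` given by `InH`.
* `dim_H`: `finrank H ≥ 3n + 1`: the linear map `h ↦ (d ↦ h (f d) + h (s d) - h d - h (a d))` takes
  values in the space of `a`-invariant functions with total sum 0, which has dimension `3n - 1`
  (`a`-invariant functions: dimension `3n` = number of `a`-orbits; the sum over all `d` of the value
  is `∑ h (f d) + h (s d) - h d - h (a d) = 0`; the sum is a non-zero functional).  Rank-nullity.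
* `dim_rad`: the functions `p + q` (`p ∘ f = p`, `q ∘ s = q`) form a space of dimension at most
  `2n + card V - 1` (dimension of the `f`-invariant functions = number of faces `= 2n`, of the
  `s`-invariant functions = number of vertices, the constants are in both;
  `Submodule.finrank_sup_add_finrank_inf_eq`).
* `isotropic`: a subspace `S` of `H` on which `Om` vanishes satisfies
  `2 finrank S ≤ finrank H + finrank rad`.  (Restriction of `Om` to `H → S →ₗ ℝ`: its kernel
  `S⊥ ⊇ S`; the range is contained in the functionals on `S` which vanish on `S ∩ rad`; so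
  `finrank S⊥ ≥ finrank H - finrank S`... precisely: `finrank S ≤ finrank S⊥`, and
  `H/S⊥` is isomorphic to the range; it is simplest to pass to the quotient `H/rad`, on which the form
  is non-degenerate, or to use `LinearMap.BilinForm.finrank_orthogonal` /
  `LinearMap.BilinForm.finrank_add_finrank_orthogonal`.)  By `radical` and the two dimension counts
  `finrank H - finrank rad ≥ 3n + 1 - (2n + card V - 1) = 2g` (`T.Genus n g`), so `Om` vanishing on
  `S` forces `finrank H - finrank S ≥ g`.
* `rank_z`: `S := {h ∈ H : zz h = 0 on R}` has codimension at most `R.card / 2 < g` in `H` (the values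
  on `d` and `a d` are opposite): so `Om` does not vanish on `S`; translate with `BB_Om`.
* `rank_x`: the same with `xx`, translate with `Area_xx`, `xx_coc`.
-/

namespace SST
namespace Tri

open Classical

variable {D : Type} [Fintype D]

/-- Functions invariant under a permutation. -/
private def invS (σ : Equiv.Perm D) : Submodule ℝ (D → ℝ) where
  carrier := {g | ∀ d, g (σ d) = g d}
  add_mem' := by
    intro g g' hg hg' d
    rw [Pi.add_apply, Pi.add_apply, hg d, hg' d]
  zero_mem' := by
    intro d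
    rfl
  smul_mem' := by
    intro c g hg d
    rw [Pi.smul_apply, Pi.smul_apply, hg d]

private theorem mem_invS {σ : Equiv.Perm D} {g : D → ℝ} : g ∈ invS σ ↔ ∀ d, g (σ d) = g d := Iff.rfl

private theorem inv_pow {σ : Equiv.Perm D} {g : D → ℝ} (hg : ∀ d, g (σ d) = g d) (n : ℕ) (d : D) :
    g ((σ ^ n) d) = g d := by
  induction n generalizing d with
  | zero => rfl
  | succ n ih => rw [pow_succ, Equiv.Perm.mul_apply, ih, hg]

private theorem inv_sc {σ : Equiv.Perm D} {g : D → ℝ} (hg : ∀ d, g (σ d) = g d) {d e : D}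
    (h : σ.SameCycle d e) : g d = g e := by
  obtain ⟨i, rfl⟩ := h
  obtain ⟨n, rfl | rfl⟩ := i.eq_nat_or_neg
  · rw [zpow_natCast, inv_pow hg]
  · have h1 := inv_pow hg n ((σ ^ (-(n : ℤ))) d)
    rw [← zpow_natCast, ← Equiv.Perm.mul_apply, ← zpow_add, add_neg_cancel, zpow_zero,
      Equiv.Perm.one_apply] at h1
    exact h1

private theorem finrank_invS (σ : Equiv.Perm D) :
    Module.finrank ℝ (invS σ) ≤ Nat.card (Quotient (Equiv.Perm.SameCycle.setoid σ)) := by
  have : Fintype (Quotient (Equiv.Perm.SameCycle.setoid σ)) := Fintype.ofFinite _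
  let Φ : invS σ →ₗ[ℝ] (Quotient (Equiv.Perm.SameCycle.setoid σ) → ℝ) :=
    { toFun := fun g q => g.1 q.out
      map_add' := fun g g' => rfl
      map_smul' := fun c g => rfl }
  have hΦ : Function.Injective Φ := by
    intro g g' h
    apply Subtype.ext
    funext d
    have h1 : σ.SameCycle (Quotient.mk (Equiv.Perm.SameCycle.setoid σ) d).out d :=
      Quotient.exact (Quotient.out_eq (Quotient.mk (Equiv.Perm.SameCycle.setoid σ) d))
    rw [← inv_sc g.2 h1, ← inv_sc g'.2 h1]
    exact congrFun h (Quotient.mk (Equiv.Perm.SameCycle.setoid σ) d)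
  have h2 := LinearMap.finrank_le_finrank_of_injective hΦ
  rwa [Module.finrank_fintype_fun_eq_card, ← Nat.card_eq_fintype_card] at h2

private theorem mk_out {σ : Equiv.Perm D} (q : Quotient (Equiv.Perm.SameCycle.setoid σ)) (n : ℕ) :
    Quotient.mk (Equiv.Perm.SameCycle.setoid σ) ((σ ^ n) q.out) = q := by
  conv_rhs => rw [← Quotient.out_eq q]
  apply Quotient.sound
  exact Equiv.Perm.sameCycle_pow_left.2 (Equiv.Perm.SameCycle.refl σ _)

private theorem card_quot (σ : Equiv.Perm D) (k : ℕ)
    (hk : ∀ (d : D) (i j : Fin k), (σ ^ (i : ℕ)) d = (σ ^ (j : ℕ)) d → i = j) :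
    k * Nat.card (Quotient (Equiv.Perm.SameCycle.setoid σ)) ≤ Fintype.card D := by
  have : Fintype (Quotient (Equiv.Perm.SameCycle.setoid σ)) := Fintype.ofFinite _
  let u : Fin k × Quotient (Equiv.Perm.SameCycle.setoid σ) → D := fun x => (σ ^ (x.1 : ℕ)) x.2.out
  have hu : Function.Injective u := by
    rintro ⟨i, q⟩ ⟨j, q'⟩ h
    have h1 : q = q' := by
      rw [← mk_out q i, ← mk_out q' j]
      exact congrArg _ h
    subst h1
    rw [hk q.out i j h]
  have h2 := Fintype.card_le_of_injective u hu
  rwa [Fintype.card_prod, Fintype.card_fin, ← Nat.card_eq_fintype_card] at h2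

private theorem card_a (T : Tri D) :
    2 * Nat.card (Quotient (Equiv.Perm.SameCycle.setoid T.a)) ≤ Fintype.card D := by
  apply card_quot
  intro d i j h
  have h1 := T.ane d
  obtain ⟨i, hi⟩ := i
  obtain ⟨j, hj⟩ := j
  change (T.a ^ i) d = (T.a ^ j) d at h
  apply Fin.ext
  change i = j
  have e0 : (T.a ^ 0) d = d := rfl
  have e1 : (T.a ^ 1) d = T.a d := by rw [pow_one]
  interval_cases i <;> interval_cases j <;> first | rfl | (exfalso; simp only [e0, e1] at h)
  · exact h1 h.symm
  · exact h1 h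

private theorem card_f (T : Tri D) :
    3 * Nat.card (Quotient (Equiv.Perm.SameCycle.setoid T.f)) ≤ Fintype.card D := by
  apply card_quot
  intro d i j h
  have h1 : T.f d ≠ d := T.fne d
  have h2 : T.f (T.f d) ≠ T.f d := T.fne (T.f d)
  have h3 : T.f (T.f d) ≠ d := by
    intro h4
    have h5 := T.fff d
    rw [h4] at h5
    exact h1 h5
  have e0 : (T.f ^ 0) d = d := rfl
  have e1 : (T.f ^ 1) d = T.f d := by rw [pow_one]
  have e2 : (T.f ^ 2) d = T.f (T.f d) := by rw [pow_two, Equiv.Perm.mul_apply]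
  obtain ⟨i, hi⟩ := i
  obtain ⟨j, hj⟩ := j
  change (T.f ^ i) d = (T.f ^ j) d at h
  apply Fin.ext
  change i = j
  interval_cases i <;> interval_cases j <;> first | rfl | (exfalso; simp only [e0, e1, e2] at h)
  · exact h1 h.symm
  · exact h3 h.symm
  · exact h1 h
  · exact h2 h.symm
  · exact h3 h
  · exact h2 h

/-- The defining map of `H`. -/
private def AA (T : Tri D) : (D → ℝ) →ₗ[ℝ] (D → ℝ) where
  toFun h := fun d => h (T.f d) + h (T.s d) - h d - h (T.a d)
  map_add' := by
    intro h h'
    funext d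
    simp only [Pi.add_apply]
    ring
  map_smul' := by
    intro c h
    funext d
    simp only [Pi.smul_apply, smul_eq_mul, RingHom.id_apply]
    ring

private theorem mem_ker_AA {T : Tri D} {h : D → ℝ} : h ∈ LinearMap.ker (AA T) ↔ T.InH h := by
  rw [LinearMap.mem_ker]
  constructor
  · intro h0 d
    have h1 : h (T.f d) + h (T.s d) - h d - h (T.a d) = 0 := congrFun h0 d
    linarith
  · intro h0
    funext d
    have h1 := h0 d
    change h (T.f d) + h (T.s d) - h d - h (T.a d) = 0
    linarith

private theorem range_AA (T : Tri D) [Nonempty D] :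
    Module.finrank ℝ (LinearMap.range (AA T)) + 1 ≤ Module.finrank ℝ (invS T.a) := by
  let tot : (D → ℝ) →ₗ[ℝ] ℝ :=
    { toFun := fun h => ∑ d, h d
      map_add' := fun h h' => by simp only [Pi.add_apply, Finset.sum_add_distrib]
      map_smul' := fun c h => by
        simp only [Pi.smul_apply, smul_eq_mul, RingHom.id_apply, Finset.mul_sum] }
  have h1 : LinearMap.range (AA T) ≤ invS T.a ⊓ LinearMap.ker tot := by
    rintro _ ⟨h, rfl⟩
    refine ⟨?_, ?_⟩
    · intro d
      change h (T.f (T.a d)) + h (T.s (T.a d)) - h (T.a d) - h (T.a (T.a d)) =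
        h (T.f d) + h (T.s d) - h d - h (T.a d)
      rw [s_apply, s_apply, T.aa]
      ring
    · change AA T h ∈ LinearMap.ker tot
      rw [LinearMap.mem_ker]
      change ∑ d, (h (T.f d) + h (T.s d) - h d - h (T.a d)) = 0
      rw [Finset.sum_sub_distrib, Finset.sum_sub_distrib, Finset.sum_add_distrib,
        Equiv.sum_comp T.f h, Equiv.sum_comp T.s h, Equiv.sum_comp T.a h]
      ring
  have h2 : invS T.a ⊓ LinearMap.ker tot < invS T.a := by
    refine lt_of_le_of_ne inf_le_left ?_
    intro h3
    have h4 : (fun _ => (1 : ℝ)) ∈ invS T.a := fun d => rfl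
    rw [← h3] at h4
    have h5 : ∑ _d : D, (1 : ℝ) = 0 := h4.2
    rw [Finset.sum_const, Finset.card_univ, nsmul_eq_mul, mul_one] at h5
    have h6 : 0 < Fintype.card D := Fintype.card_pos
    have h7 : (Fintype.card D : ℝ) ≠ 0 := by positivity
    exact h7 h5
  exact (Nat.succ_le_succ (Submodule.finrank_mono h1)).trans
    (Nat.succ_le_of_lt (Submodule.finrank_lt_finrank_of_lt h2))

private theorem dim_H (T : Tri D) [Nonempty D] {n : ℕ} (hD : Fintype.card D = 6 * n) :
    3 * n + 1 ≤ Module.finrank ℝ (LinearMap.ker (AA T)) := by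
  have h1 := (AA T).finrank_range_add_finrank_ker
  rw [Module.finrank_fintype_fun_eq_card, hD] at h1
  have h2 := range_AA T
  have h3 := finrank_invS T.a
  have h4 := card_a T
  omega

private theorem dim_rad (T : Tri D) [Nonempty D] {n : ℕ} (hD : Fintype.card D = 6 * n) :
    Module.finrank ℝ (invS T.f ⊔ invS T.s : Submodule ℝ (D → ℝ)) + 1 ≤ 2 * n + Nat.card T.V := by
  have h1 := Submodule.finrank_sup_add_finrank_inf_eq (invS T.f) (invS T.s)
  have h2 : 0 < Module.finrank ℝ (invS T.f ⊓ invS T.s : Submodule ℝ (D → ℝ)) := by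
    rw [Module.finrank_pos_iff_exists_ne_zero]
    refine ⟨⟨fun _ => (1 : ℝ), fun d => rfl, fun d => rfl⟩, ?_⟩
    intro h3
    obtain ⟨d⟩ := (inferInstance : Nonempty D)
    have h4 : (1 : ℝ) = 0 := congrFun (congrArg Subtype.val h3) d
    exact one_ne_zero h4
  have h3 := finrank_invS T.f
  have h4 := card_f T
  have h5 := finrank_invS T.s
  have h6 : Nat.card (Quotient (Equiv.Perm.SameCycle.setoid T.s)) = Nat.card T.V := rfl
  omega

/-- The form `Om` on `H`. -/
private noncomputable def OmL (T : Tri D) : LinearMap.BilinForm ℝ (LinearMap.ker (AA T)) :=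
  LinearMap.mk₂ ℝ (fun h h' => T.Om h.1 h'.1)
    (fun x y z => by
      simp only [Om, Submodule.coe_add, Pi.add_apply]
      rw [← Finset.sum_add_distrib]
      exact Finset.sum_congr rfl (fun d _ => by ring))
    (fun c x y => by
      simp only [Om, Submodule.coe_smul, Pi.smul_apply, smul_eq_mul]
      rw [Finset.mul_sum]
      exact Finset.sum_congr rfl (fun d _ => by ring))
    (fun x y z => by
      simp only [Om, Submodule.coe_add, Pi.add_apply]
      rw [← Finset.sum_add_distrib]
      exact Finset.sum_congr rfl (fun d _ => by ring))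
    (fun c x y => by
      simp only [Om, Submodule.coe_smul, Pi.smul_apply, smul_eq_mul]
      rw [Finset.mul_sum]
      exact Finset.sum_congr rfl (fun d _ => by ring))

private theorem OmL_apply (T : Tri D) (h h' : LinearMap.ker (AA T)) :
    OmL T h h' = T.Om h.1 h'.1 := rfl

private theorem OmL_refl (T : Tri D) : (OmL T).IsRefl := by
  intro x y h
  rw [OmL_apply] at h ⊢
  rw [T.Om_swap, h, neg_zero]

private theorem isotropic (T : Tri D) (S : Submodule ℝ (LinearMap.ker (AA T)))
    (hS : ∀ x ∈ S, ∀ y ∈ S, OmL T x y = 0) :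
    2 * Module.finrank ℝ S ≤ Module.finrank ℝ (LinearMap.ker (AA T)) +
      Module.finrank ℝ (invS T.f ⊔ invS T.s : Submodule ℝ (D → ℝ)) := by
  have h1 := LinearMap.BilinForm.finrank_add_finrank_orthogonal (OmL_refl T) S
  have h2 : S ≤ (OmL T).orthogonal S := fun y hy x hx => hS x hx y hy
  have h3 := Submodule.finrank_mono h2
  have h4 : Module.finrank ℝ (S ⊓ (OmL T).orthogonal ⊤ : Submodule ℝ (LinearMap.ker (AA T))) ≤
      Module.finrank ℝ (invS T.f ⊔ invS T.s : Submodule ℝ (D → ℝ)) := by
    rw [← Submodule.finrank_map_subtype_eq]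
    apply Submodule.finrank_mono
    rintro _ ⟨x, hx, rfl⟩
    have hx2 : ∀ h', T.InH h' → T.Om x.1 h' = 0 := by
      intro h' hh'
      have h5 := hx.2 ⟨h', mem_ker_AA.2 hh'⟩ trivial
      rw [T.Om_swap]
      have h6 : T.Om h' x.1 = 0 := h5
      rw [h6, neg_zero]
    obtain ⟨p, q, hp, hq, hpq⟩ := T.radical (mem_ker_AA.1 x.2) hx2
    rw [Submodule.mem_sup]
    refine ⟨p, hp, q, hq, ?_⟩
    funext d
    exact (hpq d).symm
  omega

/-- The key count: a subspace `S` of `H` of codimension less than `g` is not isotropic. -/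
theorem not_isotropic (T : Tri D) [Nonempty D] {n g : ℕ} (hD : Fintype.card D = 6 * n)
    (hg : T.Genus n g) (C : Finset D) (hC : T.AC C) (hlt : C.card < 2 * g)
    (L : (D → ℝ) →ₗ[ℝ] (D → ℝ)) (hL : ∀ h, T.InH h → ∀ d, L h (T.a d) = - L h d) :
    ∃ h h', T.InH h ∧ T.InH h' ∧ (∀ d ∈ C, L h d = 0) ∧ (∀ d ∈ C, L h' d = 0) ∧ T.Om h h' ≠ 0 := by
  by_contra hcon
  push Not at hcon
  -- half of the darts of `C`
  obtain ⟨e⟩ : Nonempty (D ≃ Fin (Fintype.card D)) := ⟨Fintype.equivFin D⟩
  set Cp : Finset D := C.filter fun d => e d < e (T.a d) with hCp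
  have hcard : 2 * Cp.card ≤ C.card := by
    have h1 : Disjoint Cp (Cp.image T.a) := by
      rw [Finset.disjoint_left]
      intro d hd hd'
      obtain ⟨d', hd1, rfl⟩ := Finset.mem_image.1 hd'
      have h2 := (Finset.mem_filter.1 hd).2
      have h3 := (Finset.mem_filter.1 hd1).2
      rw [T.aa] at h2
      exact lt_asymm h2 h3
    have h2 : Cp ∪ Cp.image T.a ⊆ C := by
      intro d hd
      rcases Finset.mem_union.1 hd with h3 | h3
      · exact (Finset.mem_filter.1 h3).1
      · obtain ⟨d', hd1, rfl⟩ := Finset.mem_image.1 h3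
        exact hC d' (Finset.mem_filter.1 hd1).1
    have h3 := Finset.card_le_card h2
    rw [Finset.card_union_of_disjoint h1, Finset.card_image_of_injective _ T.a.injective] at h3
    omega
  let Rp : LinearMap.ker (AA T) →ₗ[ℝ] (Cp → ℝ) :=
    { toFun := fun h d => L h.1 d.1
      map_add' := fun h h' => by
        funext d
        simp only [Submodule.coe_add, map_add, Pi.add_apply]
      map_smul' := fun c h => by
        funext d
        simp only [Submodule.coe_smul, map_smul, Pi.smul_apply, RingHom.id_apply] }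
  have hzero : ∀ h ∈ LinearMap.ker Rp, ∀ d ∈ C, L h.1 d = 0 := by
    intro h hh d hd
    have h1 : ∀ d ∈ Cp, L h.1 d = 0 := by
      intro d hd
      exact congrFun (LinearMap.mem_ker.1 hh) ⟨d, hd⟩
    rcases lt_trichotomy (e d) (e (T.a d)) with h2 | h2 | h2
    · exact h1 d (Finset.mem_filter.2 ⟨hd, h2⟩)
    · exact absurd (e.injective h2).symm (T.ane d)
    · have h3 : L h.1 (T.a d) = 0 := by
        refine h1 (T.a d) (Finset.mem_filter.2 ⟨hC d hd, ?_⟩)
        rw [T.aa]
        exact h2
      rw [hL h.1 (mem_ker_AA.1 h.2) d] at h3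
      linarith
  have hiso := isotropic T (LinearMap.ker Rp) (by
    intro x hx y hy
    exact hcon x.1 y.1 (mem_ker_AA.1 x.2) (mem_ker_AA.1 y.2) (hzero x hx) (hzero y hy))
  have h1 := Rp.finrank_range_add_finrank_ker
  have h2 : Module.finrank ℝ (LinearMap.range Rp) ≤ Cp.card := by
    refine (Submodule.finrank_le _).trans ?_
    rw [Module.finrank_fintype_fun_eq_card, Fintype.card_coe]
  have h3 := dim_H T hD
  have h4 := dim_rad T hD
  have h5 : Nat.card T.V + 2 * g = n + 2 := hg
  omega

theorem rank_z (T : Tri D) [Nonempty D] {n g : ℕ} (hD : Fintype.card D = 6 * n)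
    (hg : T.Genus n g) (R : Finset D) (hR : T.AC R) (hlt : R.card < 2 * g) :
    ∃ z z', T.IsCyc z ∧ T.IsCyc z' ∧ (∀ d ∈ R, z d = 0) ∧ (∀ d ∈ R, z' d = 0) ∧ T.BB z z' ≠ 0 := by
  let L : (D → ℝ) →ₗ[ℝ] (D → ℝ) :=
    { toFun := fun h => T.zz h
      map_add' := fun h h' => by
        funext d
        simp only [zz, Pi.add_apply]
        ring
      map_smul' := fun c h => by
        funext d
        simp only [zz, Pi.smul_apply, smul_eq_mul, RingHom.id_apply]
        ring }
  obtain ⟨h, h', hh, hh', h0, h0', hne⟩ := T.not_isotropic hD hg R hR hlt L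
    (fun h hh d => T.zz_anti hh d)
  refine ⟨T.zz h, T.zz h', T.zz_cyc hh, T.zz_cyc hh', h0, h0', ?_⟩
  rw [T.BB_Om hh hh']
  exact hne

theorem rank_x (T : Tri D) [Nonempty D] {n g : ℕ} (hD : Fintype.card D = 6 * n)
    (hg : T.Genus n g) (R : Finset D) (hR : T.AC R) (hlt : R.card < 2 * g) :
    ∃ x x', T.IsCoc x ∧ T.IsCoc x' ∧ (∀ d ∈ R, x d = 0) ∧ (∀ d ∈ R, x' d = 0) ∧
      T.Area x x' ≠ 0 := by
  let L : (D → ℝ) →ₗ[ℝ] (D → ℝ) :=
    { toFun := fun h => T.xx h
      map_add' := fun h h' => by
        funext d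
        simp only [xx, Pi.add_apply]
        ring
      map_smul' := fun c h => by
        funext d
        simp only [xx, Pi.smul_apply, smul_eq_mul, RingHom.id_apply]
        ring }
  obtain ⟨h, h', hh, hh', h0, h0', hne⟩ := T.not_isotropic hD hg R hR hlt L
    (fun h hh d => T.xx_anti hh d)
  refine ⟨T.xx h, T.xx h', T.xx_coc hh, T.xx_coc hh', h0, h0', ?_⟩
  rw [T.Area_xx]
  exact mul_ne_zero three_ne_zero hne

end Tri
end SST
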