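import Pool.Agent.SST.D.DDefs
import Pool.Agent.SST.Walk

/-!
# SST-D-Prim: primitives of functions on faces (H² of a connected surface)  (paper proof, (5.8))
`exists_prim`: `T` connected, `A ∘ f = A`, `∑ d, A d = 0`: there is an antisymmetric `t` with
`t d + t (f d) + t (f (f d)) = A d`.
Proof: linear algebra.  Let `𝒯` be the space of antisymmetric functions, `𝒜` the space of
`f`-invariant functions, `∂ : 𝒯 → 𝒜`, `∂t d = t d + t (f d) + t (f (f d))`.  If `A` is not in the range
there is a linear functional on `𝒜` (of the form `A ↦ ∑ d, k d * A d`, `k ∘ f = k`) which vanishes on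
the range but not at `A`.  For all antisymmetric `t`: `0 = ∑ d, k d * ∂t d = 3 ∑ d, k d * t d`
(`k` is `f`-invariant); taking `t = δ_d - δ_(a d)` gives `k d = k (a d)`; by connectedness `k` is
constant (the set `{e : k e = k d}` is closed under `a` and `f`), so `∑ k d A d = k ∑ A d = 0`,
contradiction.  (For the functional use e.g. `Submodule.exists_le_ker_of_notMem` / the dual
annihilator / orthogonal complements in `EuclideanSpace ℝ D`.)
Elementary alternative: the functions `A` for which `t` exists form a subspace `S`; for every dart `d`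
the function `1_{face of d} - 1_{face of a d}` is in `S` (`t = δ_d - δ_(a d)`); by connectedness (walks
in the dual graph) so is `1_{face of d} - 1_{face of e}` for all `d, e`; and these span the
`f`-invariant functions with sum 0: `A = (1/3) ∑_d A d (1_{face of d} - 1_{face of e₀})`.
* `sum_bd`: for `M` closed under `f` and antisymmetric `t`: `∑_{d ∈ M, a d ∉ M} t d = ∑_{d ∈ M} t d =
  (1/3) ∑_{d ∈ M} (t d + t (f d) + t (f (f d)))`.
-/

namespace SST
namespace Tri

open Classical

variable {D : Type} [Fintype D]

theorem exists_prim (T : Tri D) (hc : T.Conn) {A : D → ℝ} (hA : ∀ d, A (T.f d) = A d)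
    (h0 : ∑ d, A d = 0) :
    ∃ t : D → ℝ, (∀ d, t (T.a d) = - t d) ∧ ∀ d, t d + t (T.f d) + t (T.f (T.f d)) = A d := by
  rcases isEmpty_or_nonempty D with hD | hD
  · exact ⟨A, fun d => isEmptyElim d, fun d => isEmptyElim d⟩
  let L : (D → ℝ) →ₗ[ℝ] (D → ℝ) :=
    { toFun := fun u d => (u d - u (T.a d)) + (u (T.f d) - u (T.a (T.f d))) +
        (u (T.f (T.f d)) - u (T.a (T.f (T.f d))))
      map_add' := by
        intro u v
        funext d
        simp only [Pi.add_apply]
        ring
      map_smul' := by
        intro r u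
        funext d
        simp only [Pi.smul_apply, smul_eq_mul, RingHom.id_apply]
        ring }
  have hL : ∀ u d, L u d = (u d - u (T.a d)) + (u (T.f d) - u (T.a (T.f d))) +
        (u (T.f (T.f d)) - u (T.a (T.f (T.f d)))) := fun u d => rfl
  have hmem : A ∈ LinearMap.range L := by
    by_contra h
    obtain ⟨φ, hφA, hφ⟩ := Submodule.exists_le_ker_of_notMem h
    set k' : D → ℝ := fun d => φ (fun j => if d = j then 1 else 0) with hk'
    have hsum : ∀ B : D → ℝ, φ B = ∑ d, B d * k' d := by
      intro B
      rw [LinearMap.pi_apply_eq_sum_univ φ B]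
      exact Finset.sum_congr rfl fun d _ => rfl
    set k : D → ℝ := fun d => k' d + k' (T.f (T.f d)) + k' (T.f d) with hk
    have r1 : ∀ g : D → ℝ, ∑ d, g (T.f d) * k' d = ∑ d, g d * k' (T.f (T.f d)) := by
      intro g
      have h1 := Equiv.sum_comp (T.f * T.f) (fun d => g (T.f d) * k' d)
      rw [← h1]
      apply Finset.sum_congr rfl
      intro d _
      simp only [Equiv.Perm.mul_apply]
      rw [T.fff]
    have r2 : ∀ g : D → ℝ, ∑ d, g (T.f (T.f d)) * k' d = ∑ d, g d * k' (T.f d) := by
      intro g
      have h1 := Equiv.sum_comp T.f (fun d => g (T.f (T.f d)) * k' d)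
      rw [← h1]
      apply Finset.sum_congr rfl
      intro d _
      rw [T.fff]
    have r3 : ∀ g : D → ℝ, ∑ d, g d * k d =
        ∑ d, g d * k' d + ∑ d, g (T.f d) * k' d + ∑ d, g (T.f (T.f d)) * k' d := by
      intro g
      rw [r1, r2, ← Finset.sum_add_distrib, ← Finset.sum_add_distrib]
      apply Finset.sum_congr rfl
      intro d _
      simp only [hk]
      ring
    have hzero : ∀ u : D → ℝ, ∑ d, (u d - u (T.a d)) * k d = 0 := by
      intro u
      have h1 : φ (L u) = 0 := hφ ⟨u, rfl⟩
      rw [hsum] at h1
      rw [r3 (fun d => u d - u (T.a d)), ← h1, ← Finset.sum_add_distrib,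
        ← Finset.sum_add_distrib]
      apply Finset.sum_congr rfl
      intro d _
      rw [hL]
      ring
    have hka : ∀ e, k (T.a e) = k e := by
      intro e
      have h1 := hzero (fun d => if d = e then 1 else 0)
      have h2 : ∑ d, ((if d = e then (1 : ℝ) else 0) - (if T.a d = e then 1 else 0)) * k d =
          k e - k (T.a e) := by
        have h3 : ∀ d, ((if d = e then (1 : ℝ) else 0) - (if T.a d = e then 1 else 0)) * k d =
            (if d = e then k d else 0) - (if d = T.a e then k d else 0) := by
          intro d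
          have h4 : (T.a d = e) ↔ (d = T.a e) := by
            constructor
            · intro h; rw [← h, T.aa]
            · intro h; rw [h, T.aa]
          rw [sub_mul]
          congr 1
          · split_ifs <;> simp
          · simp only [h4]
            split_ifs <;> simp
        rw [Finset.sum_congr rfl fun d _ => h3 d, Finset.sum_sub_distrib, Finset.sum_ite_eq',
          Finset.sum_ite_eq']
        simp
      rw [h2] at h1
      linarith
    have hkf : ∀ e, k (T.f e) = k e := by
      intro e
      simp only [hk]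
      rw [T.fff]
      ring
    obtain ⟨e0⟩ := hD
    have hconst : ∀ d, k d = k e0 := by
      have h1 := hc {e | k e = k e0} ⟨e0, rfl⟩ (by
        intro d hd
        have hd' : k d = k e0 := hd
        exact ⟨by show k (T.a d) = k e0; rw [hka, hd'], by show k (T.f d) = k e0; rw [hkf, hd']⟩)
      intro d
      have h2 : d ∈ {e | k e = k e0} := by rw [h1]; exact Set.mem_univ d
      exact h2
    apply hφA
    have h1 : ∑ d, A d * k d = 0 := by
      rw [Finset.sum_congr rfl fun d _ => by rw [hconst d], ← Finset.sum_mul, h0, zero_mul]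
    have h2 := r3 A
    have h3 : ∑ d, A (T.f d) * k' d = ∑ d, A d * k' d :=
      Finset.sum_congr rfl fun d _ => by rw [hA]
    have h4 : ∑ d, A (T.f (T.f d)) * k' d = ∑ d, A d * k' d :=
      Finset.sum_congr rfl fun d _ => by rw [hA, hA]
    rw [h1, h3, h4] at h2
    rw [hsum]
    linarith
  obtain ⟨u, hu⟩ := hmem
  refine ⟨fun d => u d - u (T.a d), fun d => ?_, fun d => ?_⟩
  · show u (T.a d) - u (T.a (T.a d)) = -(u d - u (T.a d))
    rw [T.aa]
    ring
  · rw [← hu]
    rfl

theorem sum_bd (T : Tri D) {t : D → ℝ} (ht : ∀ d, t (T.a d) = - t d) {M : Finset D}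
    (hM : ∀ d ∈ M, T.f d ∈ M) :
    3 * ∑ d with T.IsBd M d, t d = ∑ d ∈ M, (t d + t (T.f d) + t (T.f (T.f d))) := by
  have h1 : ∀ g : D → ℝ, ∑ d ∈ M, g (T.f d) = ∑ d ∈ M, g d := by
    intro g
    refine Finset.sum_nbij' (fun d => T.f d) (fun e => T.f (T.f e)) ?_ ?_ ?_ ?_ ?_
    · intro d hd; exact hM d hd
    · intro e he; exact hM _ (hM _ he)
    · intro d _; exact T.fff d
    · intro e _; exact T.fff e
    · intro d _; rfl
  have h2 : ∑ d ∈ M, t (T.f (T.f d)) = ∑ d ∈ M, t d := by
    rw [h1 (fun d => t (T.f d)), h1 t]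
  have h3 : (Finset.univ.filter fun d => T.IsBd M d) = M.filter fun d => T.a d ∉ M := by
    ext d
    simp only [Finset.mem_filter, Finset.mem_univ, true_and]
    rfl
  have h4 : ∑ d ∈ M.filter (fun d => T.a d ∈ M), t d = 0 := by
    have h5 : ∑ d ∈ M.filter (fun d => T.a d ∈ M), t d =
        ∑ d ∈ M.filter (fun d => T.a d ∈ M), t (T.a d) := by
      refine Finset.sum_nbij' (fun d => T.a d) (fun d => T.a d) ?_ ?_ ?_ ?_ ?_
      · intro d hd
        rw [Finset.mem_filter] at hd ⊢
        exact ⟨hd.2, by rw [T.aa]; exact hd.1⟩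
      · intro d hd
        rw [Finset.mem_filter] at hd ⊢
        exact ⟨hd.2, by rw [T.aa]; exact hd.1⟩
      · intro d _; exact T.aa d
      · intro d _; exact T.aa d
      · intro d _
        show t d = t (T.a (T.a d))
        rw [T.aa]
    have h6 : ∑ d ∈ M.filter (fun d => T.a d ∈ M), t (T.a d) =
        - ∑ d ∈ M.filter (fun d => T.a d ∈ M), t d := by
      rw [← Finset.sum_neg_distrib]
      exact Finset.sum_congr rfl fun d _ => ht d
    linarith
  have h7 := Finset.sum_filter_add_sum_filter_not M (fun d => T.a d ∈ M) t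
  rw [Finset.sum_add_distrib, Finset.sum_add_distrib, h1 t, h2, h3]
  linarith

end Tri
end SST
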