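import Pool.Agent.SST.D.Heis
import Pool.Agent.SST.D.Prim
import Pool.Agent.SST.D.Form

/-!
# SST-D-NonCon: the boundary cycle is not contractible  (paper proof, (5.8))
* `exists_coc`: `Good K` gives cycles `z, z'` supported in `K` with `BB z z' ≠ 0`.  Let `h, h'` be the
  lifts (`lift`) which vanish at the darts leaving a vertex where `z` (resp. `z'`) vanishes; in
  particular `h d = h' d = 0` if `tl d ∉ VK K` (all `e` with `tl e = tl d` are not in `K`).
  `y := xx h`, `y' := xx h'`: cocycles (`xx_coc`), `Area = 3 Om h h' = 3 BB z z' ≠ 0` (`Area_xx`,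
  `BB_Om`), and `y d = h (f d) - h d` vanishes if `tl d ∉ VK K` and `tl (f d) = hd d ∉ VK K`.
* `not_htp`: let `x, x'` be cocycles supported inside `M` with `Area x x' ≠ 0`, `y, y'` as above.  Put
  `λ := - Area x x' / Area y y'`, `X := x + y`, `Y := x' + λ y'`,
  `A d := - (X d * Y (f d) - X (f d) * Y d)`.  `A (f d) = A d` (cocycle identities).  For `d ∈ M`:
  `y d = y (f d) = 0` (the vertices of the face are outside `U`), so `A d = - (x d x' (f d) - …)`; for
  `d ∉ M` `x d = x (f d) = 0` (`f d ∉ M` too), so `A d = - λ (y d y' (f d) - …)`.  The terms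
  `x d x' (f d) - x (f d) x' d` vanish for `d ∉ M`, the terms with `y` vanish for `d ∈ M`, so
  `∑_{d ∈ M} A d = - Area x x'` and `∑_d A d = - Area x x' - λ Area y y' = 0`.
  `exists_prim` gives `t`.  On the darts of `c` (boundary darts of `M`): `x d = x' d = 0` (`a d ∉ M`),
  `y d = y' d = 0`.  If `c` were null-homotopic, `hol_htp`, `hol_zero` give
  `0 = (c.map t).sum = ∑_{d with IsBd M d} t d` (`Nodup`) `= (1/3) ∑_{d ∈ M} A d ≠ 0` (`sum_bd`).
-/

namespace SST
namespace Tri

open Classical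

variable {D : Type} [Fintype D]

theorem exists_coc (T : Tri D) {K : Finset D} (hK : T.Good K) :
    ∃ y y' : D → ℝ, T.IsCoc y ∧ T.IsCoc y' ∧ T.Area y y' ≠ 0 ∧
      ∀ d, T.tl d ∉ T.VK K → T.hd d ∉ T.VK K → y d = 0 ∧ y' d = 0 := by
  obtain ⟨z, z', hz, hz', hs, hs', hB⟩ := hK
  obtain ⟨h, hh, hzz, hv⟩ := T.lift hz
  obtain ⟨h', hh', hzz', hv'⟩ := T.lift hz'
  have key : ∀ d, T.tl d ∉ T.VK K → h d = 0 ∧ h' d = 0 := by
    intro d hd
    have hK : ∀ e, T.tl e = T.tl d → e ∉ K := by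
      intro e he heK
      exact hd (he ▸ Finset.mem_image_of_mem T.tl heK)
    exact ⟨hv d (fun e he => hs e (hK e he)), hv' d (fun e he => hs' e (hK e he))⟩
  refine ⟨T.xx h, T.xx h', T.xx_coc hh, T.xx_coc hh', ?_, ?_⟩
  · rw [T.Area_xx, ← T.BB_Om hh hh', hzz, hzz']
    exact mul_ne_zero (by norm_num) hB
  · intro d hd hd'
    rw [← T.tl_f d] at hd'
    have h1 := key d hd
    have h2 := key (T.f d) hd'
    simp [xx, h1.1, h1.2, h2.1, h2.2]

theorem not_htp (T : Tri D) (hc : T.Conn) {K M : Finset D} (hK : T.Good K)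
    (hM : T.IsM (T.VK K) M) {x x' : D → ℝ} (hx : T.IsCoc x) (hx' : T.IsCoc x')
    (hxM : ∀ d, ¬ (d ∈ M ∧ T.a d ∈ M) → x d = 0 ∧ x' d = 0) (hA : T.Area x x' ≠ 0)
    {c : List D} (hc₁ : c.Nodup) (hc₂ : ∀ d, d ∈ c ↔ T.IsBd M d) : ¬ T.NullHtp c := by
  intro hnull
  obtain ⟨y, y', hy, hy', hAy, hyM⟩ := T.exists_coc hK
  have fM := hM.fM
  have fN : ∀ d, d ∉ M → T.f d ∉ M := by
    intro d hd hfd
    have := fM _ (fM _ hfd)
    rw [T.fff] at this
    exact hd this
  have yM : ∀ d, d ∈ M → y d = 0 ∧ y' d = 0 := by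
    intro d hd
    have h1 := hM.nSt d hd
    simp only [St, Finset.mem_filter, Finset.mem_univ, true_and, not_or] at h1
    exact hyM d h1.1 (by rw [← T.tl_f d]; exact h1.2.1)
  have xN : ∀ d, d ∉ M → x d = 0 ∧ x' d = 0 := fun d hd => hxM d (fun h => hd h.1)
  set lam : ℝ := - T.Area x x' / T.Area y y' with hlam
  set X : D → ℝ := fun d => x d + y d with hX
  set Y : D → ℝ := fun d => x' d + lam * y' d with hY
  set A : D → ℝ := fun d => - (X d * Y (T.f d) - X (T.f d) * Y d) with hAdef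
  have hXa : ∀ d, X (T.a d) = - X d := by
    intro d; simp only [hX]; rw [hx.1, hy.1]; ring
  have hYa : ∀ d, Y (T.a d) = - Y d := by
    intro d; simp only [hY]; rw [hx'.1, hy'.1]; ring
  have hXf : ∀ d, X d + X (T.f d) + X (T.f (T.f d)) = 0 := by
    intro d; simp only [hX]; linarith [hx.2 d, hy.2 d]
  have hYf : ∀ d, Y d + Y (T.f d) + Y (T.f (T.f d)) = 0 := by
    intro d; simp only [hY]; linear_combination hx'.2 d + lam * hy'.2 d
  have hAf : ∀ d, A (T.f d) = A d := by
    intro d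
    simp only [hAdef]
    have h1 : X (T.f (T.f d)) = - (X d + X (T.f d)) := by linarith [hXf d]
    have h2 : Y (T.f (T.f d)) = - (Y d + Y (T.f d)) := by linarith [hYf d]
    rw [h1, h2]; ring
  have hAp : ∀ d, A d = - (x d * x' (T.f d) - x (T.f d) * x' d)
      - lam * (y d * y' (T.f d) - y (T.f d) * y' d) := by
    intro d
    simp only [hAdef, hX, hY]
    by_cases hd : d ∈ M
    · have h1 := yM d hd
      have h2 := yM _ (fM d hd)
      rw [h1.1, h1.2, h2.1, h2.2]; ring
    · have h1 := xN d hd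
      have h2 := xN _ (fN d hd)
      rw [h1.1, h1.2, h2.1, h2.2]; ring
  have hA0 : ∑ d, A d = 0 := by
    have h1 : ∑ d, A d = - T.Area x x' - lam * T.Area y y' := by
      unfold Area
      rw [← Finset.sum_neg_distrib, Finset.mul_sum, ← Finset.sum_sub_distrib]
      exact Finset.sum_congr rfl (fun d _ => hAp d)
    rw [h1, hlam]
    field_simp
    ring
  obtain ⟨t, hta, htA⟩ := T.exists_prim hc hAf hA0
  have hhol := T.hol_htp (x := X) (y := Y) (t := t) hXa hYa hta hXf hYf
    (by intro d; rw [htA d]; simp only [hAdef]; ring) hnull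
  have hXc : ∀ d ∈ c, X d = 0 := by
    intro d hd
    have hbd := (hc₂ d).1 hd
    simp only [hX]
    rw [(hxM d (fun h => hbd.2 h.2)).1, (yM d hbd.1).1]; ring
  have hYc : ∀ d ∈ c, Y d = 0 := by
    intro d hd
    have hbd := (hc₂ d).1 hd
    simp only [hY]
    rw [(hxM d (fun h => hbd.2 h.2)).2, (yM d hbd.1).2]; ring
  rw [hol_zero hXc hYc] at hhol
  have hsum : (c.map t).sum = 0 := by
    have := congrArg (fun p : ℝ × ℝ × ℝ => p.2.2) hhol
    simpa using this
  have hsum2 : ∑ d with T.IsBd M d, t d = 0 := by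
    rw [← hsum, ← List.sum_toFinset t hc₁]
    apply Finset.sum_congr _ (fun _ _ => rfl)
    ext d
    simp [hc₂ d]
  have hbd := T.sum_bd hta (M := M) fM
  rw [hsum2, mul_zero] at hbd
  have h2 : ∑ d ∈ M, (t d + t (T.f d) + t (T.f (T.f d))) = - T.Area x x' := by
    unfold Area
    rw [← Finset.sum_neg_distrib]
    rw [← Finset.sum_subset (Finset.subset_univ M) (f := fun d =>
      - (x d * x' (T.f d) - x (T.f d) * x' d))]
    · apply Finset.sum_congr rfl
      intro d hd
      rw [htA d, hAp d, (yM d hd).1, (yM _ (fM d hd)).1]; ring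
    · intro d _ hd
      rw [(xN d hd).1, (xN d hd).2]; ring
  rw [h2] at hbd
  exact hA (by linarith)

end Tri
end SST
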