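import Pool.Agent.SST.Defs

/-!
# Project SST, block D: definitions of the deterministic part.  DO NOT CHANGE.
(`/team-store/sst_proof.md`, sections 2-6.)
-/

namespace SST
namespace Tri

open Classical

variable {D : Type} [Fintype D]

/-- Real 1-cycles: antisymmetric functions on the darts whose sum over the darts leaving a vertex
vanishes. -/
def IsCyc (T : Tri D) (z : D → ℝ) : Prop :=
  (∀ d, z (T.a d) = - z d) ∧ ∀ d, ∑ e with T.tl e = T.tl d, z e = 0

/-- Real 1-cocycles. -/
def IsCoc (T : Tri D) (x : D → ℝ) : Prop :=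
  (∀ d, x (T.a d) = - x d) ∧ ∀ d, x d + x (T.f d) + x (T.f (T.f d)) = 0

/-- The space `H` of the paper proof. -/
def InH (T : Tri D) (h : D → ℝ) : Prop := ∀ d, h (T.f d) + h (T.s d) = h d + h (T.a d)

def zz (T : Tri D) (h : D → ℝ) (d : D) : ℝ := h (T.s d) - h d

def xx (T : Tri D) (h : D → ℝ) (d : D) : ℝ := h (T.f d) - h d

/-- The alternating form. -/
def Om (T : Tri D) (h h' : D → ℝ) : ℝ := ∑ d, (h d * h' (T.f d) - h (T.f d) * h' d)

/-- Cup product of two cocycles (three times, each face is counted at its three darts). -/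
def Area (T : Tri D) (x x' : D → ℝ) : ℝ := ∑ d, (x d * x' (T.f d) - x (T.f d) * x' d)

/-- `K` is closed under reversal. -/
def AC (T : Tri D) (K : Finset D) : Prop := ∀ d ∈ K, T.a d ∈ K

/-- `z` is supported in `K`. -/
def Supp (z : D → ℝ) (K : Finset D) : Prop := ∀ d, d ∉ K → z d = 0

/-- Vertices of `K`. -/
noncomputable def VK (T : Tri D) (K : Finset D) : Finset T.V := K.image T.tl

/-- Number of darts of `K` leaving the vertex `v`. -/
noncomputable def degK (T : Tri D) (K : Finset D) (v : T.V) : ℕ := (K.filter fun d => T.tl d = v).card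

/-- Weight of `K`: sum of the weights of its vertices. -/
noncomputable def W (T : Tri D) (w : T.V → ℝ) (K : Finset D) : ℝ := ∑ v ∈ T.VK K, w v

/-- Darts leaving the vertices of `U`. -/
noncomputable def DU (T : Tri D) (U : Finset T.V) : Finset D := Finset.univ.filter fun d => T.tl d ∈ U

/-- Darts of the faces with a corner in `U`. -/
noncomputable def St (T : Tri D) (U : Finset T.V) : Finset D :=
  Finset.univ.filter fun d => T.tl d ∈ U ∨ T.tl (T.f d) ∈ U ∨ T.tl (T.f (T.f d)) ∈ U

/-- `K` has a single boundary walk (and is connected): the contour permutation is transitive on the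
darts leaving the vertices of `K`. -/
def Unicell (T : Tri D) (K : Finset D) : Prop :=
  ∃ η : Equiv.Perm D, (∀ d, η d = if d ∈ K then T.s (T.a d) else T.s d) ∧
    ∀ d d', T.tl d ∈ T.VK K → T.tl d' ∈ T.VK K → η.SameCycle d d'

/-- Dual walks: `l = [d₁, …, d_k]` crosses the darts `d_i` from their left face to the left face of
`a d_i`. -/
def IsDWalk (T : Tri D) : T.F → List D → T.F → Prop
  | u, [], v => u = v
  | u, d :: l, v => T.fc d = u ∧ T.IsDWalk (T.fc (T.a d)) l v

/-- `M` is a connected component of the set of faces without corner in `U`. -/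
structure IsM (T : Tri D) (U : Finset T.V) (M : Finset D) : Prop where
  fM : ∀ d ∈ M, T.f d ∈ M
  nSt : ∀ d ∈ M, d ∉ T.St U
  aM : ∀ d ∈ M, T.a d ∈ M ∨ T.a d ∈ T.St U
  conn : ∀ d ∈ M, ∀ d' ∈ M, ∃ l, T.IsDWalk (T.fc d) l (T.fc d') ∧ ∀ e ∈ l, e ∈ M ∧ T.a e ∈ M

/-- `c` lists the boundary darts of `M`. -/
def IsBd (T : Tri D) (M : Finset D) (d : D) : Prop := d ∈ M ∧ T.a d ∉ M

/-- `e` is the successor of the boundary dart `d`: rotate around the head of `d` through `M`. -/
def Succ (T : Tri D) (M : Finset D) (d e : D) : Prop :=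
  ∃ j : ℕ, e = (T.s ^ j) (T.f d) ∧ T.a e ∉ M ∧ (∀ i ≤ j, (T.s ^ i) (T.f d) ∈ M) ∧
    ∀ i < j, T.a ((T.s ^ i) (T.f d)) ∈ M

/-- The dart `b(d)` of (5.2). -/
def bb (T : Tri D) (d : D) : D := T.f (T.f (T.a d))

/-- The dart `a'(d)` of (5.2). -/
def ab (T : Tri D) (d : D) : D := T.a (T.s d)

/-- Vertices on a short closed walk which is not null-homologous. -/
def BadV (T : Tri D) : Set T.V :=
  {v | ∃ c : List D, T.Closed c ∧ c.length ≤ 8 ∧ ¬ T.NullHom c ∧ ∃ d ∈ c, T.tl d = v}

end Tri
end SST
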