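import Pool.Agent.SST.D.DDefs
import Pool.Agent.SST.Walk

/-!
# SST-D-Bd: boundary darts of M  (paper proof, (5.2), (5.3))
`T.s d = T.f (T.a d)`, `bb d = f (f (a d))`, `ab d = a (s d)`.
* For `d ∈ M` all three vertices of the face of `d` are outside `U` (`nSt`, `fM`): `tl d ∉ U`,
  `hd d = tl (f d) ∉ U`.
* `IsBd d`: `a d ∈ St U` by `aM`.  The three tails of the face of `a d`: `tl (a d) = hd d ∉ U`,
  `tl (f (a d)) = tl (s d) = tl d ∉ U`, so `tl (f (f (a d))) ∈ U`.
* `hd (bb d) = hd (f (f (a d))) = tl (a d) = hd d` (`hd_ff`); `tl (ab d) = hd (s d) = tl (f (s d)) =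
  tl (bb d)`; `hd (ab d) = tl (s d) = tl d`; `s (ab d) = f (a (a (s d))) = f (s d) = bb d`.
* `bb_inj`: `f`, `a` are injective.
* `exists_succ`: otherwise (by induction on `j`) `s^j (f d) ∈ M` and `a (s^j (f d)) ∈ M` for all `j`:
  if `s^j (f d) = e ∈ M` and `a e ∈ M` then `s e = f (a e) ∈ M`; but `s^j (f d) = a d` for some `j`
  (`f d = s (a d)`, `s` has finite order), and `a d ∉ M`.  Take the least `j` with
  `a (s^j (f d)) ∉ M` (`Nat.find`).
* `succ_bd`: `tl e = tl (f d) = hd d`.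
* `M_notU`: the two faces of an edge with a vertex in `U` are in `St U`.
-/

namespace SST
namespace Tri

open Classical

variable {D : Type} [Fintype D]

theorem IsM.tl_notin {T : Tri D} {U : Finset T.V} {M : Finset D} (hM : T.IsM U M) {d : D}
    (hd : d ∈ M) : T.tl d ∉ U ∧ T.hd d ∉ U := by
  have h := hM.nSt d hd
  unfold St at h
  rw [Finset.mem_filter] at h
  have h' : ¬ (T.tl d ∈ U ∨ T.tl (T.f d) ∈ U ∨ T.tl (T.f (T.f d)) ∈ U) :=
    fun h1 => h ⟨Finset.mem_univ _, h1⟩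
  refine ⟨fun h1 => h' (Or.inl h1), fun h1 => h' (Or.inr (Or.inl ?_))⟩
  rw [tl_f]
  exact h1

theorem bb_spec {T : Tri D} {U : Finset T.V} {M : Finset D} (hM : T.IsM U M) {d : D}
    (hd : T.IsBd M d) : T.tl (T.bb d) ∈ U ∧ T.hd (T.bb d) = T.hd d ∧ T.tl (T.ab d) ∈ U ∧
      T.hd (T.ab d) = T.tl d ∧ T.s (T.ab d) = T.bb d ∧ T.fc (T.bb d) = T.fc (T.a d) := by
  obtain ⟨h1, h2⟩ := hM.tl_notin hd.1
  have h3 : T.a d ∈ T.St U := (hM.aM d hd.1).resolve_left hd.2
  unfold St at h3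
  rw [Finset.mem_filter] at h3
  have h4 : T.tl (T.bb d) ∈ U := by
    rcases h3.2 with h5 | h5 | h5
    · exact absurd h5 h2
    · rw [tl_f, hd_a] at h5
      exact absurd h5 h1
    · exact h5
  have h5 : T.tl (T.ab d) = T.tl (T.bb d) := by
    show T.hd (T.s d) = T.tl (T.f (T.f (T.a d)))
    rw [← tl_f, s_apply]
  refine ⟨h4, ?_, ?_, ?_, ?_, ?_⟩
  · show T.hd (T.f (T.f (T.a d))) = T.tl (T.a d)
    rw [hd_ff]
  · rw [h5]; exact h4
  · show T.hd (T.a (T.s d)) = T.tl d
    rw [hd_a, tl_s]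
  · show T.s (T.a (T.s d)) = T.f (T.f (T.a d))
    rw [s_a, s_apply]
  · show T.fc (T.f (T.f (T.a d))) = T.fc (T.a d)
    rw [fc_f, fc_f]

theorem bb_inj (T : Tri D) {d d' : D} (h : T.bb d = T.bb d') : d = d' := by
  unfold bb at h
  exact T.a.injective (T.f.injective (T.f.injective h))

private theorem bd_pow_succ (T : Tri D) (j : ℕ) (x : D) : (T.s ^ (j + 1)) x = T.s ((T.s ^ j) x) := by
  rw [pow_succ', Equiv.Perm.mul_apply]

private theorem bd_tl_pow (T : Tri D) (j : ℕ) (x : D) : T.tl ((T.s ^ j) x) = T.tl x := by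
  induction j with
  | zero => rw [pow_zero, Equiv.Perm.one_apply]
  | succ j ih => rw [bd_pow_succ, tl_s, ih]

theorem exists_succ {T : Tri D} {U : Finset T.V} {M : Finset D} (hM : T.IsM U M) {d : D}
    (hd : T.IsBd M d) : ∃ e, T.Succ M d e := by
  have hstep : ∀ j, (∀ i < j, T.a ((T.s ^ i) (T.f d)) ∈ M) → (T.s ^ j) (T.f d) ∈ M := by
    intro j
    induction j with
    | zero =>
      intro _
      rw [pow_zero, Equiv.Perm.one_apply]
      exact hM.fM d hd.1
    | succ j ih =>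
      intro h
      rw [bd_pow_succ, s_apply]
      exact hM.fM _ (h j (Nat.lt_succ_self j))
  have hex : ∃ j, T.a ((T.s ^ j) (T.f d)) ∉ M := by
    by_contra hcon
    push Not at hcon
    have hpos : 0 < orderOf T.s := orderOf_pos T.s
    have h1 := hstep (orderOf T.s - 1) (fun i _ => hcon i)
    have h2 : (T.s ^ (orderOf T.s - 1)) (T.f d) = T.a d := by
      rw [← s_a, ← Equiv.Perm.mul_apply, ← pow_succ, Nat.sub_add_cancel hpos, pow_orderOf_eq_one,
        Equiv.Perm.one_apply]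
    rw [h2] at h1
    exact hd.2 h1
  refine ⟨(T.s ^ (Nat.find hex)) (T.f d), Nat.find hex, rfl, Nat.find_spec hex, ?_, ?_⟩
  · intro i hi
    apply hstep
    intro k hk
    exact not_not.1 (Nat.find_min hex (lt_of_lt_of_le hk hi))
  · intro i hi
    exact not_not.1 (Nat.find_min hex hi)

theorem succ_bd {T : Tri D} {M : Finset D} {d e : D} (h : T.Succ M d e) :
    T.IsBd M e ∧ T.tl e = T.hd d := by
  obtain ⟨j, h1, h2, h3, h4⟩ := h
  refine ⟨⟨?_, h2⟩, ?_⟩
  · rw [h1]
    exact h3 j le_rfl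
  · rw [h1, bd_tl_pow, tl_f]

theorem succ_unique {T : Tri D} {M : Finset D} {d e e' : D} (h : T.Succ M d e)
    (h' : T.Succ M d e') : e = e' := by
  obtain ⟨j, h1, h2, h3, h4⟩ := h
  obtain ⟨j', h1', h2', h3', h4'⟩ := h'
  rcases lt_trichotomy j j' with hj | hj | hj
  · exfalso
    apply h2
    rw [h1]
    exact h4' j hj
  · rw [h1, h1', hj]
  · exfalso
    apply h2'
    rw [h1']
    exact h4 j' hj

/-- Darts leaving or entering `U` have their two faces in `St U`, so they are not crossed inside `M`. -/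
theorem M_notU {T : Tri D} {U : Finset T.V} {M : Finset D} (hM : T.IsM U M) {e : D}
    (he : T.tl e ∈ U ∨ T.hd e ∈ U) : e ∉ M ∧ T.a e ∉ M := by
  constructor
  · intro h
    obtain ⟨h1, h2⟩ := hM.tl_notin h
    rcases he with h3 | h3
    · exact h1 h3
    · exact h2 h3
  · intro h
    obtain ⟨h1, h2⟩ := hM.tl_notin h
    rw [hd_a] at h2
    rcases he with h3 | h3
    · exact h2 h3
    · exact h1 h3

end Tri
end SST
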