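import Pool.Agent.SST.D.DDefs
import Pool.Agent.SST.Walk

/-!
# SST-D-Chain: real chains of walks
* `IsCyc.add`, `.smul`, `.sub`: `Finset.sum_add_distrib`, `Finset.mul_sum`.
* `sum_ind`: `∑ e with tl e = v, (ind x e : ℝ)` is 1 if `tl x = v`, else 0.
* `div_chain`: induction on the walk; for one dart `x`:
  `∑ e with tl e = v, (ind x e - ind x (a e)) = [tl x = v] - [hd x = v]`
  (`ind x (a e) = ind (a x) e`, `tl (a x) = hd x`).
* `cyc_chain`: `chain_anti` and `div_chain` with `u = v`.
* `flow_out`: for a cycle `z` and a set `S` of vertices the total flow of `z` out of `S` vanishes: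
  sum the vertex conditions over `S`; darts with both ends in `S` cancel in pairs `d, a d`
  (`Finset.sum_involution` or: the sum over `{tl ∈ S, hd ∈ S}` equals its own negative by
  `Finset.sum_nbij' T.a T.a`).  The vertex condition in the form `∑ e with tl e = v, z e = 0` for
  all `v : T.V` (`v = tl d`, `Quotient.exists_rep`); sum over a set of vertices: fibrewise
  (`Finset.sum_fiberwise_of_maps_to` with the image of `tl`).
-/

namespace SST
namespace Tri

open Classical

variable {D : Type} [Fintype D]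

theorem IsCyc.add {T : Tri D} {z z' : D → ℝ} (hz : T.IsCyc z) (hz' : T.IsCyc z') :
    T.IsCyc (z + z') := by
  refine ⟨fun d => ?_, fun d => ?_⟩
  · rw [Pi.add_apply, Pi.add_apply, hz.1 d, hz'.1 d]
    ring
  · simp only [Pi.add_apply]
    rw [Finset.sum_add_distrib, hz.2 d, hz'.2 d, add_zero]

theorem IsCyc.smul {T : Tri D} {z : D → ℝ} (c : ℝ) (hz : T.IsCyc z) : T.IsCyc (c • z) := by
  refine ⟨fun d => ?_, fun d => ?_⟩
  · rw [Pi.smul_apply, Pi.smul_apply, hz.1 d, smul_neg]
  · simp only [Pi.smul_apply, smul_eq_mul]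
    rw [← Finset.mul_sum, hz.2 d, mul_zero]

theorem IsCyc.sub {T : Tri D} {z z' : D → ℝ} (hz : T.IsCyc z) (hz' : T.IsCyc z') :
    T.IsCyc (z - z') := by
  refine ⟨fun d => ?_, fun d => ?_⟩
  · rw [Pi.sub_apply, Pi.sub_apply, hz.1 d, hz'.1 d]
    ring
  · simp only [Pi.sub_apply]
    rw [Finset.sum_sub_distrib, hz.2 d, hz'.2 d, sub_zero]

theorem IsCyc.zero (T : Tri D) : T.IsCyc 0 := by
  refine ⟨fun d => ?_, fun d => ?_⟩
  · simp
  · simp

private theorem chSumInd (T : Tri D) (x : D) (w : T.V) :
    ∑ e with T.tl e = w, (ind x e : ℝ) = if T.tl x = w then 1 else 0 := by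
  rw [Finset.sum_filter, Finset.sum_eq_single x]
  · rw [ind_self, Int.cast_one]
  · intro e _ he
    rw [ind_ne (fun h => he h.symm), Int.cast_zero, ite_self]
  · intro h
    exact absurd (Finset.mem_univ x) h

/-- Divergence of the chain of a walk from `u` to `v`. -/
theorem div_chain (T : Tri D) {u v : T.V} {c : List D} (hc : T.IsWalk u c v) (w : T.V) :
    ∑ e with T.tl e = w, (T.chain c e : ℝ) =
      (if u = w then 1 else 0) - (if v = w then 1 else 0) := by
  induction c generalizing u with
  | nil =>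
    have h : u = v := hc
    subst h
    simp only [chain_nil, Int.cast_zero, Finset.sum_const_zero, sub_self]
  | cons d l ih =>
    have h1 : T.tl d = u := hc.1
    have h2 := ih hc.2
    have h3 : ∀ e, (T.chain (d :: l) e : ℝ) = (ind d e : ℝ) - (ind (T.a d) e : ℝ) + (T.chain l e : ℝ) := by
      intro e
      rw [chain_cons, ind_a]
      push_cast
      ring
    simp only [h3]
    rw [Finset.sum_add_distrib, Finset.sum_sub_distrib, h2, chSumInd, chSumInd, h1]
    have h4 : T.tl (T.a d) = T.hd d := rfl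
    rw [h4]
    ring

/-- The chain of a closed walk is a cycle. -/
theorem cyc_chain (T : Tri D) {c : List D} (hc : T.Closed c) :
    T.IsCyc (fun d => (T.chain c d : ℝ)) := by
  obtain ⟨v, hv⟩ := hc
  refine ⟨fun d => ?_, fun d => ?_⟩
  · show (T.chain c (T.a d) : ℝ) = - (T.chain c d : ℝ)
    rw [chain_anti, Int.cast_neg]
  · show ∑ e with T.tl e = T.tl d, (T.chain c e : ℝ) = 0
    rw [div_chain T hv, sub_self]

/-- Flow out of a set of vertices. -/
theorem flow_out (T : Tri D) {z : D → ℝ} (hz : T.IsCyc z) (S : Set T.V) :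
    ∑ d with (T.tl d ∈ S ∧ T.hd d ∉ S), z d = 0 := by
  have hA : ∑ d with T.tl d ∈ S, z d = 0 := by
    have hmap : ∀ i ∈ (Finset.univ.filter fun d => T.tl d ∈ S),
        T.tl i ∈ (Finset.univ.filter fun d => T.tl d ∈ S).image T.tl := fun i hi =>
      Finset.mem_image_of_mem _ hi
    rw [← Finset.sum_fiberwise_of_maps_to hmap]
    refine Finset.sum_eq_zero fun v hv => ?_
    obtain ⟨d, hd, rfl⟩ := Finset.mem_image.1 hv
    have hdS : T.tl d ∈ S := (Finset.mem_filter.1 hd).2
    have he : (Finset.univ.filter fun d => T.tl d ∈ S).filter (fun i => T.tl i = T.tl d) =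
        Finset.univ.filter fun i => T.tl i = T.tl d := by
      ext i
      simp only [Finset.mem_filter, Finset.mem_univ, true_and]
      constructor
      · exact fun h => h.2
      · intro h
        exact ⟨by rw [h]; exact hdS, h⟩
    rw [he]
    exact hz.2 d
  have hB : ∑ d with (T.tl d ∈ S ∧ T.hd d ∈ S), z d = 0 := by
    refine Finset.sum_involution (fun d _ => T.a d) ?_ ?_ ?_ ?_
    · intro d _
      rw [hz.1 d, add_neg_cancel]
    · intro d _ _
      exact T.ane d
    · intro d hd
      rw [Finset.mem_filter] at hd ⊢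
      refine ⟨Finset.mem_univ _, hd.2.2, ?_⟩
      rw [hd_a]
      exact hd.2.1
    · intro d _
      exact T.aa d
  have hC : ∑ d with T.tl d ∈ S, z d = ∑ d with (T.tl d ∈ S ∧ T.hd d ∈ S), z d +
      ∑ d with (T.tl d ∈ S ∧ T.hd d ∉ S), z d := by
    rw [← Finset.sum_filter_add_sum_filter_not (Finset.univ.filter fun d => T.tl d ∈ S)
      (fun d => T.hd d ∈ S), Finset.filter_filter, Finset.filter_filter]
  rw [hA, hB, zero_add] at hC
  exact hC.symm

end Tri
end SST
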