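import Pool.Agent.SST.D.DDefs
import Pool.Agent.SST.Walk

/-!
# SST-D-Dual: a closed dual walk meets a null-homologous closed walk 0 times  (paper proof, (5.4))
* `dwalk_append` etc.: induction on the list.
* `chain_face`: for a closed dual walk `l` and a function `k` with `k ∘ f = k`:
  `∑ d, k d * chain l d = 0`.  For one dart `x`: `∑ d, k d (ind x d - ind x (a d)) = k x - k (a x)`;
  `k` only depends on the face, so with `κ : T.F → ℤ`, the sum over a dual walk from `u` to `v`
  telescopes to `κ u - κ v`.
* `pairing`: `(c.map (chain l)).sum = ∑_d (count d c) chain l d`; with antisymmetry of `chain l`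
  (`chain_anti`), `2 * (c.map (chain l)).sum = ∑_d chain c d * chain l d` (induction on `c`:
  `∑_d (ind x d - ind x (a d)) chain l d = 2 chain l x`) `= ∑_d (k d - k (a d)) chain l d
  = 2 ∑_d k d chain l d = 0`.
* `rot`: rotating around a vertex: the dual walk crossing `s e, s² e, …, s^p e` starting in the face of
  `a e`: `fc (s (s^i e)) = fc (f (a (s^i e))) = fc (a (s^i e))`.
-/

namespace SST
namespace Tri

open Classical

variable {D : Type} [Fintype D]

omit [Fintype D] in
theorem dwalk_append (T : Tri D) {u v w : T.F} {l l' : List D} (h : T.IsDWalk u l v)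
    (h' : T.IsDWalk v l' w) : T.IsDWalk u (l ++ l') w := by
  induction l generalizing u with
  | nil =>
    have e : u = v := h
    subst e
    exact h'
  | cons d l ih => exact ⟨h.1, ih h.2⟩

omit [Fintype D] in
theorem dwalk_single (T : Tri D) (d : D) : T.IsDWalk (T.fc d) [d] (T.fc (T.a d)) := by
  exact ⟨rfl, rfl⟩

omit [Fintype D] in
/-- Rotation around the tail of `e`: crossing `s e, …, s^p e`. -/
theorem rot (T : Tri D) (e : D) (p : ℕ) :
    T.IsDWalk (T.fc (T.a e)) ((List.range p).map fun i => (T.s ^ (i + 1)) e)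
      (T.fc (T.a ((T.s ^ p) e))) := by
  induction p with
  | zero =>
    show T.fc (T.a e) = T.fc (T.a ((T.s ^ 0) e))
    rw [pow_zero]
    rfl
  | succ p ih =>
    rw [List.range_succ, List.map_append, List.map_cons, List.map_nil]
    refine dwalk_append T ih ?_
    have h1 : (T.s ^ (p + 1)) e = T.f (T.a ((T.s ^ p) e)) := by
      rw [pow_succ', Equiv.Perm.mul_apply]
      rfl
    have h2 : T.fc (T.a ((T.s ^ p) e)) = T.fc ((T.s ^ (p + 1)) e) := by
      rw [h1, fc_f]
    rw [h2]
    exact dwalk_single T _

omit [Fintype D] in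
private theorem k_fc (T : Tri D) {k : D → ℤ} (hk : ∀ d, k (T.f d) = k d) {x y : D}
    (h : T.fc x = T.fc y) : k x = k y := by
  rw [fc_eq_iff] at h
  rcases h with h | h | h
  · rw [h]
  · rw [h, hk]
  · rw [h, hk, hk]

private theorem sum_ind (g : D → ℤ) (x : D) : ∑ e, g e * ind x e = g x := by
  rw [Finset.sum_eq_single x]
  · rw [ind_self, mul_one]
  · intro b _ hb
    rw [ind_ne (fun h => hb h.symm), mul_zero]
  · intro h
    exact absurd (Finset.mem_univ x) h

private theorem sum_k (T : Tri D) {k : D → ℤ} (hk : ∀ d, k (T.f d) = k d) {u v : T.F}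
    {l : List D} (hl : T.IsDWalk u l v) {x y : D} (hx : T.fc x = u) (hy : T.fc y = v) :
    ∑ e, k e * T.chain l e = k x - k y := by
  induction l generalizing u x with
  | nil =>
    have e : u = v := hl
    have h1 : k x = k y := k_fc T hk (by rw [hx, hy, e])
    rw [h1, sub_self]
    exact Finset.sum_eq_zero (fun e _ => by rw [chain_nil, mul_zero])
  | cons d l ih =>
    have h1 : k x = k d := k_fc T hk (by rw [hx]; exact hl.1.symm)
    have h2 := ih hl.2 (x := T.a d) rfl
    have h3 : ∑ e, k e * T.chain (d :: l) e =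
        ∑ e, k e * ind d e - ∑ e, k e * ind (T.a d) e + ∑ e, k e * T.chain l e := by
      rw [← Finset.sum_sub_distrib, ← Finset.sum_add_distrib]
      refine Finset.sum_congr rfl (fun e _ => ?_)
      rw [chain_cons, ind_a]
      ring
    rw [h3, sum_ind, sum_ind, h2, h1]
    ring

private theorem two_sum (T : Tri D) (l c : List D) :
    2 * (c.map (T.chain l)).sum = ∑ d, T.chain c d * T.chain l d := by
  induction c with
  | nil =>
    rw [List.map_nil, List.sum_nil, mul_zero]
    exact (Finset.sum_eq_zero (fun e _ => by rw [chain_nil, zero_mul])).symm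
  | cons x c ih =>
    have h3 : ∑ d, T.chain (x :: c) d * T.chain l d =
        ∑ d, T.chain l d * ind x d - ∑ d, T.chain l d * ind (T.a x) d +
          ∑ d, T.chain c d * T.chain l d := by
      rw [← Finset.sum_sub_distrib, ← Finset.sum_add_distrib]
      refine Finset.sum_congr rfl (fun e _ => ?_)
      rw [chain_cons, ind_a]
      ring
    rw [h3, ← ih, sum_ind, sum_ind, chain_anti, List.map_cons, List.sum_cons]
    ring

theorem pairing (T : Tri D) {u : T.F} {l : List D} (hl : T.IsDWalk u l u) {c : List D}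
    (hc : T.NullHom c) : (c.map (T.chain l)).sum = 0 := by
  obtain ⟨k, hk, hck⟩ := hc
  have h0 : ∑ e, k e * T.chain l e = 0 := by
    cases l with
    | nil => exact Finset.sum_eq_zero (fun e _ => by rw [chain_nil, mul_zero])
    | cons d l =>
      have h := sum_k T hk hl (x := d) (y := d) hl.1 hl.1
      rw [h, sub_self]
  have h1 := two_sum T l c
  have h2 : ∑ d, T.chain c d * T.chain l d =
      ∑ d, k d * T.chain l d - ∑ d, k (T.a d) * T.chain l d := by
    rw [← Finset.sum_sub_distrib]
    refine Finset.sum_congr rfl (fun e _ => ?_)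
    rw [hck]
    ring
  have h3 : ∑ d, k (T.a d) * T.chain l d = - ∑ d, k d * T.chain l d := by
    rw [← Finset.sum_neg_distrib]
    have h4 : ∑ d, k (T.a d) * T.chain l d = ∑ d, k (T.a (T.a d)) * T.chain l (T.a d) :=
      (Equiv.sum_comp T.a (fun d => k (T.a d) * T.chain l d)).symm
    rw [h4]
    refine Finset.sum_congr rfl (fun e _ => ?_)
    rw [T.aa, chain_anti]
    ring
  rw [h2, h3, h0] at h1
  have h5 : 2 * (c.map (T.chain l)).sum = 0 := by rw [h1]; ring
  omega

/-- Form in which it is used: if the walk `c₁ ++ [e] ++ c₂` is null-homologous, a closed dual walk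
which contains `e` or `a e` exactly once (`e` or `a e` is its first ... see the proof) and avoids all
darts of `c₁`, `c₂` and their reverses is impossible. -/
theorem no_single_crossing (T : Tri D) {u : T.F} {l₁ l₂ : List D} {e e' : D}
    (hl : T.IsDWalk u (l₁ ++ [e'] ++ l₂) u) (he : e' = e ∨ e' = T.a e)
    (h₁ : ∀ d ∈ l₁, d ≠ e ∧ d ≠ T.a e) (h₂ : ∀ d ∈ l₂, d ≠ e ∧ d ≠ T.a e)
    {c₁ c₂ : List D} (hc : T.NullHom (c₁ ++ [e] ++ c₂))
    (hc₁ : ∀ d ∈ c₁ ++ c₂, d ∉ l₁ ++ [e'] ++ l₂ ∧ T.a d ∉ l₁ ++ [e'] ++ l₂) : False := by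
  have hp := pairing T hl hc
  have hz : ∀ c : List D, (∀ d ∈ c, d ∈ c₁ ++ c₂) →
      (c.map (T.chain (l₁ ++ [e'] ++ l₂))).sum = 0 := by
    intro c hcc
    apply List.sum_eq_zero
    intro x hx
    rw [List.mem_map] at hx
    obtain ⟨d, hd, rfl⟩ := hx
    have h := hc₁ d (hcc d hd)
    exact chain_of_not_mem T h.1 h.2
  rw [List.map_append, List.map_append, List.sum_append, List.sum_append,
    hz c₁ (fun d hd => List.mem_append_left _ hd), hz c₂ (fun d hd => List.mem_append_right _ hd),
    List.map_cons, List.map_nil, List.sum_cons, List.sum_nil, zero_add, add_zero, add_zero] at hp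
  rw [chain_append, chain_append,
    chain_of_not_mem T (fun h => (h₁ e h).1 rfl) (fun h => (h₁ _ h).2 rfl),
    chain_of_not_mem T (fun h => (h₂ e h).1 rfl) (fun h => (h₂ _ h).2 rfl),
    chain_cons, chain_nil] at hp
  rcases he with he | he
  · rw [he, ind_self, ind_ne (fun h => T.ane e h.symm)] at hp
    omega
  · rw [he, ind_self, ind_ne (T.ane e)] at hp
    omega

end Tri
end SST
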