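import Pool.Agent.SST.D.Rank
import Pool.Agent.SST.D.Dual

/-!
# SST-D-Comp: the component M  (paper proof, (5.1))
* `card_St`: every dart of `St U` is `e`, `f e` or `f (f e)` for some `e ∈ DU U`.
* `exists_M`: `R := St U ∪ (St U).image a` is `AC`, `card R ≤ 6 card (DU U) < 2g`: `rank_x` gives
  cocycles `x, x'` vanishing on `R` with `Area x x' ≠ 0`.  On the darts outside `St U` consider the
  relation `d ~ d'`: there is a dual walk `l` from `fc d` to `fc d'` with `e ∉ St U`, `a e ∉ St U` for all
  `e ∈ l`; an equivalence relation.  (Note `fc`-equal darts are equivalent by `l = []`, and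
  `St U` is closed under `f`.)  For a class `M` let `x_M := x` on the darts `d` with `d ∈ M`
  (then `a d ∈ M` or `x d = 0`, as `a d ∈ St U` forces `d ∈ R`), `0` elsewhere: `Area x x' = ∑_M
  Area x_M x'_M`, since `Area` is a sum over darts `d` of terms which only involve the face of `d`
  (`x d x' (f d) - x (f d) x' d`), and the terms with `d ∈ St U` vanish.  So some class `M` has
  `Area x_M x'_M ≠ 0`.  `x_M` is a cocycle: antisymmetric because for `d ∈ M` with `x d ≠ 0`,
  `a d ∈ M`, and conversely; face sums: `M` is closed under `f`.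
  `conn` of `IsM`: the dual walk `l` between two elements of `M` only uses darts of `M`: each `e ∈ l`
  has `fc e` reached from `d` by the initial part of `l`, so `e ~ d`, and `a e` as well.
-/

namespace SST
namespace Tri

open Classical

variable {D : Type} [Fintype D]

omit [Fintype D] in
private theorem inv_pow' {α : Type} {σ : Equiv.Perm D} {g : D → α} (hg : ∀ d, g (σ d) = g d)
    (n : ℕ) (d : D) : g ((σ ^ n) d) = g d := by
  induction n generalizing d with
  | zero => rfl
  | succ n ih => rw [pow_succ, Equiv.Perm.mul_apply, ih, hg]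

omit [Fintype D] in
private theorem inv_sc' {α : Type} {σ : Equiv.Perm D} {g : D → α} (hg : ∀ d, g (σ d) = g d)
    {d e : D} (h : σ.SameCycle d e) : g d = g e := by
  obtain ⟨i, rfl⟩ := h
  obtain ⟨n, rfl | rfl⟩ := i.eq_nat_or_neg
  · rw [zpow_natCast, inv_pow' hg]
  · have h1 := inv_pow' hg n ((σ ^ (-(n : ℤ))) d)
    rw [← zpow_natCast, ← Equiv.Perm.mul_apply, ← zpow_add, add_neg_cancel, zpow_zero,
      Equiv.Perm.one_apply] at h1
    exact h1

omit [Fintype D] in
private theorem inv_fc {α : Type} (T : Tri D) {g : D → α} (hg : ∀ d, g (T.f d) = g d)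
    {d e : D} (h : T.fc d = T.fc e) : g d = g e := inv_sc' hg (Quotient.exact h)

omit [Fintype D] in
private theorem fc_f' (T : Tri D) (d : D) : T.fc (T.f d) = T.fc d :=
  Quotient.sound (Equiv.Perm.sameCycle_apply_left.2 (Equiv.Perm.SameCycle.refl _ _))

private theorem mem_St' (T : Tri D) (U : Finset T.V) (d : D) : d ∈ T.St U ↔
    T.tl d ∈ U ∨ T.tl (T.f d) ∈ U ∨ T.tl (T.f (T.f d)) ∈ U := by
  unfold St
  rw [Finset.mem_filter]
  exact ⟨fun h => h.2, fun h => ⟨Finset.mem_univ _, h⟩⟩

private theorem f_mem_St (T : Tri D) (U : Finset T.V) (d : D) :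
    (T.f d ∈ T.St U) = (d ∈ T.St U) := by
  apply propext
  rw [mem_St', mem_St', T.fff]
  tauto

private theorem mem_St_fc (T : Tri D) (U : Finset T.V) {d e : D} (h : T.fc d = T.fc e) :
    (d ∈ T.St U) = (e ∈ T.St U) :=
  inv_fc T (g := fun d => d ∈ T.St U) (f_mem_St T U) h

theorem card_St (T : Tri D) (U : Finset T.V) : (T.St U).card ≤ 3 * (T.DU U).card := by
  have h1 : T.St U ⊆ T.DU U ∪ ((T.DU U).image T.f ∪ (T.DU U).image (fun d => T.f (T.f d))) := by
    intro d hd
    rw [mem_St'] at hd
    rw [Finset.mem_union, Finset.mem_union, Finset.mem_image, Finset.mem_image]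
    rcases hd with h | h | h
    · left
      exact Finset.mem_filter.2 ⟨Finset.mem_univ _, h⟩
    · right; right
      exact ⟨T.f d, Finset.mem_filter.2 ⟨Finset.mem_univ _, h⟩, T.fff d⟩
    · right; left
      exact ⟨T.f (T.f d), Finset.mem_filter.2 ⟨Finset.mem_univ _, h⟩, T.fff d⟩
  have h2 := Finset.card_le_card h1
  have h3 := Finset.card_union_le (T.DU U)
    ((T.DU U).image T.f ∪ (T.DU U).image (fun d => T.f (T.f d)))
  have h4 := Finset.card_union_le ((T.DU U).image T.f) ((T.DU U).image (fun d => T.f (T.f d)))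
  have h5 : ((T.DU U).image T.f).card ≤ (T.DU U).card := Finset.card_image_le
  have h6 : ((T.DU U).image (fun d => T.f (T.f d))).card ≤ (T.DU U).card := Finset.card_image_le
  omega

/-- elementary moves between the darts: inside a face or across an edge away from `U` -/
private def stp (T : Tri D) (U : Finset T.V) (d e : D) : Prop :=
  T.fc d = T.fc e ∨ (e = T.a d ∧ d ∉ T.St U ∧ T.a d ∉ T.St U)

private theorem stp_symm (T : Tri D) (U : Finset T.V) : ∀ ⦃d e : D⦄, stp T U d e → stp T U e d := by
  rintro d e (h | ⟨h1, h2, h3⟩)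
  · exact Or.inl h.symm
  · refine Or.inr ⟨?_, ?_, ?_⟩
    · rw [h1, T.aa]
    · rw [h1]; exact h3
    · rw [h1, T.aa]; exact h2

private theorem rtg_stp_symm (T : Tri D) (U : Finset T.V) {d e : D}
    (h : Relation.ReflTransGen (stp T U) d e) : Relation.ReflTransGen (stp T U) e d := by
  induction h with
  | refl => exact Relation.ReflTransGen.refl
  | tail _ h2 ih => exact Relation.ReflTransGen.head (stp_symm T U h2) ih

private def cls (T : Tri D) (U : Finset T.V) : Setoid D where
  r := Relation.ReflTransGen (stp T U)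
  iseqv := ⟨fun _ => Relation.ReflTransGen.refl,
    fun h => rtg_stp_symm T U h,
    fun h1 h2 => h1.trans h2⟩

private theorem rtg_St (T : Tri D) (U : Finset T.V) {d e : D}
    (h : Relation.ReflTransGen (stp T U) d e) : (d ∈ T.St U) ↔ (e ∈ T.St U) := by
  induction h with
  | refl => exact Iff.rfl
  | tail _ h2 ih =>
    rw [ih]
    rcases h2 with h2 | ⟨h1, h2, h3⟩
    · rw [mem_St_fc T U h2]
    · rw [h1]
      exact iff_of_false h2 h3

theorem exists_M (T : Tri D) [Nonempty D] {n g : ℕ} (hD : Fintype.card D = 6 * n)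
    (hg : T.Genus n g) (U : Finset T.V) (hU : 6 * (T.DU U).card < 2 * g) :
    ∃ M : Finset D, T.IsM U M ∧ ∃ x x', T.IsCoc x ∧ T.IsCoc x' ∧
      (∀ d, ¬ (d ∈ M ∧ T.a d ∈ M) → x d = 0 ∧ x' d = 0) ∧ T.Area x x' ≠ 0 := by
  have hR : T.AC (T.St U ∪ (T.St U).image T.a) := by
    intro d hd
    rw [Finset.mem_union] at hd ⊢
    rcases hd with hd | hd
    · exact Or.inr (Finset.mem_image_of_mem _ hd)
    · obtain ⟨e, he, rfl⟩ := Finset.mem_image.1 hd
      rw [T.aa]
      exact Or.inl he
  have hlt : (T.St U ∪ (T.St U).image T.a).card < 2 * g := by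
    have h1 := Finset.card_union_le (T.St U) ((T.St U).image T.a)
    have h2 : ((T.St U).image T.a).card ≤ (T.St U).card := Finset.card_image_le
    have h3 := T.card_St U
    omega
  obtain ⟨x, x', hx, hx', h0, h0', hne⟩ := T.rank_x hD hg _ hR hlt
  have hSt : ∀ d, d ∈ T.St U → x d = 0 ∧ x' d = 0 := fun d hd =>
    ⟨h0 d (Finset.mem_union_left _ hd), h0' d (Finset.mem_union_left _ hd)⟩
  have hSta : ∀ d, T.a d ∈ T.St U → x d = 0 ∧ x' d = 0 := by
    intro d hd
    have h1 : d ∈ (T.St U).image T.a := Finset.mem_image.2 ⟨T.a d, hd, T.aa d⟩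
    exact ⟨h0 d (Finset.mem_union_right _ h1), h0' d (Finset.mem_union_right _ h1)⟩
  -- a class with non-zero area
  have hex : ∃ d0, ∑ d with (cls T U).r d d0, (x d * x' (T.f d) - x (T.f d) * x' d) ≠ 0 := by
    by_contra hcon
    push Not at hcon
    refine hne ?_
    unfold Area
    exact Finset.sum_cancels_of_partition_cancels (cls T U) (fun d0 _ => hcon d0)
  obtain ⟨d0, hd0⟩ := hex
  have hd0St : d0 ∉ T.St U := by
    intro hd
    refine hd0 (Finset.sum_eq_zero ?_)
    intro d hd1
    have h1 : Relation.ReflTransGen (stp T U) d d0 := (Finset.mem_filter.1 hd1).2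
    have h2 := (rtg_St T U h1).2 hd
    have h3 : T.f d ∈ T.St U := by rw [f_mem_St]; exact h2
    rw [(hSt d h2).1, (hSt _ h3).1]
    ring
  set M : Finset D := Finset.univ.filter fun d => (cls T U).r d d0 with hM
  have hmem : ∀ d, d ∈ M ↔ Relation.ReflTransGen (stp T U) d d0 := by
    intro d
    rw [hM, Finset.mem_filter]
    exact ⟨fun h => h.2, fun h => ⟨Finset.mem_univ _, h⟩⟩
  have hsym : ∀ {d e}, Relation.ReflTransGen (stp T U) d e → Relation.ReflTransGen (stp T U) e d :=
    fun h => rtg_stp_symm T U h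
  have hf : ∀ d, T.f d ∈ M ↔ d ∈ M := by
    intro d
    rw [hmem, hmem]
    constructor
    · intro h
      exact Relation.ReflTransGen.head (Or.inl (fc_f' T d).symm) h
    · intro h
      exact Relation.ReflTransGen.head (Or.inl (fc_f' T d)) h
  have hnSt : ∀ d ∈ M, d ∉ T.St U := by
    intro d hd hd'
    exact hd0St ((rtg_St T U ((hmem d).1 hd)).1 hd')
  have haM : ∀ d ∈ M, T.a d ∈ M ∨ T.a d ∈ T.St U := by
    intro d hd
    by_cases h : T.a d ∈ T.St U
    · exact Or.inr h
    · left
      rw [hmem]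
      refine Relation.ReflTransGen.head (stp_symm T U ?_) ((hmem d).1 hd)
      exact Or.inr ⟨rfl, hnSt d hd, h⟩
  have hconn : ∀ d e, Relation.ReflTransGen (stp T U) d e → d ∈ M →
      e ∈ M ∧ ∃ l, T.IsDWalk (T.fc d) l (T.fc e) ∧ ∀ e ∈ l, e ∈ M ∧ T.a e ∈ M := by
    intro d e h hd
    induction h with
    | refl => exact ⟨hd, [], rfl, by simp⟩
    | @tail b c hab hbc ih =>
      obtain ⟨hb, l, hl, hl'⟩ := ih
      have hc : c ∈ M := by
        rw [hmem]
        exact Relation.ReflTransGen.head (stp_symm T U hbc) ((hmem b).1 hb)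
      refine ⟨hc, ?_⟩
      rcases hbc with h1 | ⟨h1, h2, h3⟩
      · refine ⟨l, ?_, hl'⟩
        rw [← h1]
        exact hl
      · refine ⟨l ++ [b], ?_, ?_⟩
        · rw [h1]
          exact T.dwalk_append hl (T.dwalk_single b)
        · intro e he
          rw [List.mem_append, List.mem_singleton] at he
          rcases he with he | he
          · exact hl' e he
          · rw [he, ← h1]
            exact ⟨hb, hc⟩
  have hzero : ∀ d, d ∈ M → T.a d ∉ M → x d = 0 ∧ x' d = 0 := by
    intro d hd hd'
    rcases haM d hd with h | h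
    · exact absurd h hd'
    · exact hSta d h
  have hcoc : ∀ y : D → ℝ, T.IsCoc y → (∀ d, d ∈ M → T.a d ∉ M → y d = 0) →
      T.IsCoc (fun d => if d ∈ M then y d else 0) := by
    intro y hy hy0
    constructor
    · intro d
      show (if T.a d ∈ M then y (T.a d) else 0) = - (if d ∈ M then y d else 0)
      by_cases h1 : d ∈ M
      · by_cases h2 : T.a d ∈ M
        · rw [if_pos h1, if_pos h2, hy.1]
        · rw [if_pos h1, if_neg h2, hy0 d h1 h2, neg_zero]
      · by_cases h2 : T.a d ∈ M
        · have h3 := hy0 (T.a d) h2 (by rw [T.aa]; exact h1)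
          rw [if_neg h1, if_pos h2, h3, neg_zero]
        · rw [if_neg h1, if_neg h2, neg_zero]
    · intro d
      show (if d ∈ M then y d else 0) + (if T.f d ∈ M then y (T.f d) else 0) +
        (if T.f (T.f d) ∈ M then y (T.f (T.f d)) else 0) = 0
      by_cases h1 : d ∈ M
      · have h2 := (hf d).2 h1
        have h3 := (hf _).2 h2
        rw [if_pos h1, if_pos h2, if_pos h3]
        exact hy.2 d
      · have h2 : T.f d ∉ M := fun h => h1 ((hf d).1 h)
        have h3 : T.f (T.f d) ∉ M := fun h => h2 ((hf _).1 h)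
        rw [if_neg h1, if_neg h2, if_neg h3]
        ring
  refine ⟨M, ⟨fun d hd => (hf d).2 hd, hnSt, haM, ?_⟩, fun d => if d ∈ M then x d else 0,
    fun d => if d ∈ M then x' d else 0, hcoc x hx (fun d h1 h2 => (hzero d h1 h2).1),
    hcoc x' hx' (fun d h1 h2 => (hzero d h1 h2).2), ?_, ?_⟩
  · intro d hd d' hd'
    exact (hconn d d' (((hmem d).1 hd).trans (hsym ((hmem d').1 hd'))) hd).2
  · intro d hd
    show (if d ∈ M then x d else 0) = 0 ∧ (if d ∈ M then x' d else 0) = 0
    by_cases h1 : d ∈ M
    · have h2 : T.a d ∉ M := fun h => hd ⟨h1, h⟩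
      rw [if_pos h1, if_pos h1]
      exact hzero d h1 h2
    · rw [if_neg h1, if_neg h1]
      exact ⟨rfl, rfl⟩
  · have h1 : T.Area (fun d => if d ∈ M then x d else 0) (fun d => if d ∈ M then x' d else 0) =
        ∑ d with (cls T U).r d d0, (x d * x' (T.f d) - x (T.f d) * x' d) := by
      rw [← hM]
      unfold Area
      rw [← Finset.sum_filter_add_sum_filter_not Finset.univ (fun d => d ∈ M)]
      have h2 : ∑ d with ¬ d ∈ M, ((if d ∈ M then x d else 0) * (if T.f d ∈ M then x' (T.f d) else 0)
          - (if T.f d ∈ M then x (T.f d) else 0) * (if d ∈ M then x' d else 0)) = 0 := by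
        refine Finset.sum_eq_zero ?_
        intro d hd
        have h3 : d ∉ M := (Finset.mem_filter.1 hd).2
        rw [if_neg h3, if_neg h3]
        ring
      rw [h2, add_zero]
      have h4 : Finset.univ.filter (fun d => d ∈ M) = M := by
        ext d
        simp
      rw [h4]
      refine Finset.sum_congr rfl ?_
      intro d hd
      have h5 := (hf d).2 hd
      beta_reduce
      rw [if_pos hd, if_pos hd, if_pos h5, if_pos h5]
    rw [h1]
    exact hd0

end Tri
end SST
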