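import Pool.Agent.SST.D.Simp

/-!
# The boundary of `M` is one simple separating closed walk
-/

namespace SST
namespace Tri

open Classical

variable {D : Type} [Fintype D]

omit [Fintype D] in
private theorem CycL_walk (T : Tri D) (g : ℕ → D) (hg : ∀ i, T.tl (g (i + 1)) = T.hd (g i)) (n : ℕ) :
    T.IsWalk (T.tl (g 0)) ((List.range n).map g) (T.tl (g n)) := by
  induction n with
  | zero => rfl
  | succ n ih =>
    rw [List.range_succ, List.map_append, hg n]
    exact walk_append T ih (walk_single T (g n))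

omit [Fintype D] in
private theorem CycL_chain (T : Tri D) (c : List D) (hc : c.Nodup) (d : D) :
    T.chain c d = (if d ∈ c then 1 else 0) - (if T.a d ∈ c then 1 else 0) := by
  induction c with
  | nil => rw [chain_nil]; simp
  | cons e l ih =>
    rw [List.nodup_cons] at hc
    rw [chain_cons, ih hc.2]
    have h1 : ∀ x : D, (if x ∈ e :: l then (1 : ℤ) else 0) = ind e x + (if x ∈ l then 1 else 0) := by
      intro x
      by_cases h : e = x
      · subst h
        rw [ind_self, if_pos List.mem_cons_self, if_neg hc.1, add_zero]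
      · rw [ind_ne h, zero_add]
        have h2 : (x ∈ e :: l) ↔ x ∈ l := by
          rw [List.mem_cons]
          exact ⟨fun h3 => h3.resolve_left fun h4 => h h4.symm, Or.inr⟩
        simp only [h2]
    rw [h1 d, h1 (T.a d)]
    ring

private theorem CycL_exists {T : Tri D} {K : Finset D} {η : Equiv.Perm D} {M : Finset D}
    (hS : T.Setup K η M) (hc : T.Conn) (hK : K.Nonempty) (hM : M.Nonempty) : ∃ d, T.IsBd M d := by
  by_contra hcon
  push Not at hcon
  have h1 : ∀ d ∈ (M : Set D), T.a d ∈ (M : Set D) ∧ T.f d ∈ (M : Set D) := by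
    intro d hd
    refine ⟨?_, hS.isM.fM d hd⟩
    by_contra h
    exact hcon d ⟨hd, h⟩
  have h2 := hc (M : Set D) hM h1
  obtain ⟨e, he⟩ := hK
  have h3 : T.tl e ∈ T.VK K := Finset.mem_image.2 ⟨e, he, rfl⟩
  have h4 : e ∈ (M : Set D) := by rw [h2]; exact Set.mem_univ _
  exact (M_notU hS.isM (Or.inl h3)).1 h4

theorem Setup.cycle {T : Tri D} {K : Finset D} {η : Equiv.Perm D} {M : Finset D}
    (hS : T.Setup K η M) (hc : T.Conn) (hK : K.Nonempty) (hM : M.Nonempty) :
    ∃ c : List D, c ≠ [] ∧ T.Closed c ∧ T.Simple c ∧ c.Nodup ∧ (∀ d, d ∈ c ↔ T.IsBd M d) ∧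
      T.NullHom c ∧ c.length ≤ (T.DU (T.VK K)).card := by
  obtain ⟨d₀, hd₀⟩ := CycL_exists hS hc hK hM
  -- the successor function
  let sc : D → D := fun d => if h : T.IsBd M d then (exists_succ hS.isM h).choose else d
  have hsc : ∀ d, T.IsBd M d → T.Succ M d (sc d) := by
    intro d h
    have h1 : sc d = (exists_succ hS.isM h).choose := dif_pos h
    rw [h1]
    exact (exists_succ hS.isM h).choose_spec
  have hbd : ∀ d, T.IsBd M d → T.IsBd M (sc d) := fun d h => (succ_bd (hsc d h)).1
  have hit : ∀ d, T.IsBd M d → ∀ i, T.IsBd M (sc^[i] d) := by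
    intro d h i
    induction i with
    | zero => exact h
    | succ i ih => rw [Function.iterate_succ_apply']; exact hbd _ ih
  -- the iterates of the successor function reach all boundary darts
  have hreach : ∀ k : ℕ, ∀ d d', T.IsBd M d → T.IsBd M d' → (η ^ k) (T.bb d) = T.bb d' →
      ∃ i, d' = sc^[i] d := by
    intro k
    induction k using Nat.strong_induction_on with
    | _ k ih =>
      intro d d' hd hd' hk
      rcases Nat.eq_zero_or_pos k with rfl | hpos
      · rw [pow_zero, Equiv.Perm.one_apply] at hk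
        exact ⟨0, (bb_inj T hk).symm⟩
      · obtain ⟨m, -, hm1, hm2⟩ := hS.next hd (hsc d hd)
        have hkm : m + 1 ≤ k := by
          by_contra h
          exact hm2 k hpos (by omega) d' hd' hk
        have h1 : (η ^ (k - (m + 1))) (T.bb (sc d)) = T.bb d' := by
          rw [← hm1, ← Equiv.Perm.mul_apply, ← pow_add, Nat.sub_add_cancel hkm, hk]
        obtain ⟨i, hi⟩ := ih (k - (m + 1)) (by omega) (sc d) d' (hbd d hd) hd' h1
        exact ⟨i + 1, by rw [hi, Function.iterate_succ_apply]⟩
  have hall : ∀ d d', T.IsBd M d → T.IsBd M d' → ∃ i, d' = sc^[i] d := by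
    intro d d' hd hd'
    obtain ⟨k, hk⟩ := (hS.trans (T.bb d) (T.bb d') (bb_spec hS.isM hd).1
      (bb_spec hS.isM hd').1).exists_nat_pow_eq
    exact hreach k d d' hd hd' hk
  obtain ⟨i₀, hi₀⟩ := hall (sc d₀) d₀ (hbd d₀ hd₀) hd₀
  have hper : Function.IsPeriodicPt sc (i₀ + 1) d₀ := by
    change sc^[i₀ + 1] d₀ = d₀
    rw [Function.iterate_succ_apply]
    exact hi₀.symm
  have hL : 0 < Function.minimalPeriod sc d₀ := hper.minimalPeriod_pos (Nat.succ_pos _)
  set L := Function.minimalPeriod sc d₀ with hLdef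
  let c : List D := (List.range L).map fun i => sc^[i] d₀
  have hmem : ∀ d, d ∈ c ↔ T.IsBd M d := by
    intro d
    constructor
    · intro h
      obtain ⟨i, -, rfl⟩ := List.mem_map.1 h
      exact hit d₀ hd₀ i
    · intro h
      obtain ⟨i, hi⟩ := hall d₀ d hd₀ h
      refine List.mem_map.2 ⟨i % L, List.mem_range.2 (Nat.mod_lt _ hL), ?_⟩
      rw [hi]
      exact Function.iterate_mod_minimalPeriod_eq
  have hnd : c.Nodup := by
    refine List.Nodup.map_on ?_ List.nodup_range
    intro i hi j hj h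
    exact (Function.iterate_eq_iterate_iff_of_lt_minimalPeriod (List.mem_range.1 hi)
      (List.mem_range.1 hj)).1 h
  have hne : c ≠ [] := List.ne_nil_of_mem ((hmem d₀).2 hd₀)
  refine ⟨c, hne, ?_, ?_, hnd, hmem, ?_, ?_⟩
  · refine ⟨T.tl d₀, ?_⟩
    have h1 := CycL_walk T (fun i => sc^[i] d₀) (fun i => by
      rw [Function.iterate_succ_apply']
      exact (succ_bd (hsc _ (hit d₀ hd₀ i))).2) L
    have h2 : sc^[L] d₀ = d₀ := Function.iterate_minimalPeriod
    change T.IsWalk (T.tl d₀) c (T.tl (sc^[L] d₀)) at h1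
    rwa [h2] at h1
  · refine List.Nodup.map_on ?_ hnd
    intro x hx y hy h
    exact hS.tails ((hmem x).1 hx) ((hmem y).1 hy) h
  · refine ⟨fun d => if d ∈ M then 1 else 0, ?_, ?_⟩
    · intro d
      have h1 : T.f d ∈ M ↔ d ∈ M := by
        constructor
        · intro h
          have h2 := hS.isM.fM _ (hS.isM.fM _ h)
          rwa [T.fff] at h2
        · exact hS.isM.fM d
      simp only [h1]
    · intro d
      rw [CycL_chain T c hnd d]
      have h1 : d ∈ c ↔ d ∈ M ∧ T.a d ∉ M := hmem d
      have h2 : T.a d ∈ c ↔ T.a d ∈ M ∧ d ∉ M := by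
        rw [hmem (T.a d)]
        change (T.a d ∈ M ∧ T.a (T.a d) ∉ M) ↔ _
        rw [T.aa]
      by_cases hd : d ∈ M <;> by_cases ha : T.a d ∈ M <;> simp [h1, h2, hd, ha]
  · have h1 : (c.map T.bb).Nodup := List.Nodup.map_on (fun x _ y _ h => bb_inj T h) hnd
    have h2 : (c.map T.bb).toFinset.card = c.length := by
      rw [List.toFinset_card_of_nodup h1, List.length_map]
    rw [← h2]
    refine Finset.card_le_card ?_
    intro x hx
    obtain ⟨y, hy, rfl⟩ := List.mem_map.1 (List.mem_toFinset.1 hx)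
    exact Finset.mem_filter.2 ⟨Finset.mem_univ _, (bb_spec hS.isM ((hmem y).1 hy)).1⟩

end Tri
end SST
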