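import Pool.Agent.SST.D.Min

/-!
# SST-D-Deg: the degrees of the minimal subgraph  (paper proof, (4.3))
* `two_le_degK`: let `e ∈ K` with `tl e = v`; by `cover` there is a cycle `z` supported in `K` with
  `z e = 1`; the vertex condition at `v` needs another dart of `K` leaving `v`.
* `dim_ge`: `finrank (CycK K) + card (VK K) ≥ card K / 2 + 1`, i.e.
  `card K + 2 ≤ 2 finrank + 2 card (VK K)`.  The space `A` of antisymmetric functions supported in `K`
  has dimension `card K / 2` (`a` has no fixed points, `K` is closed under `a`; lower bound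
  `card K ≤ 2 finrank A` is enough: e.g. `A` and the space of `a`-invariant functions supported in
  `K` are complementary in the functions supported in `K`, and there is an injection of the second
  one ... or: antisymmetric functions ↔ functions on a set of representatives of the pairs
  `{d, a d}`; a set of representatives `K⁺` with `K = K⁺ ∪ a K⁺` disjoint exists, choose a linear order
  on `D`, e.g. through `Fintype.equivFin`, and take `K⁺ = {d ∈ K : d < a d}`).
  The divergence map `A → (VK K → ℝ)`, `z ↦ (v ↦ ∑ e with tl e = v, z e)` has kernel `CycK K`, and its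
  image lies in the functions with sum 0 (each edge contributes `z d + z (a d) = 0`), of dimension
  `card (VK K) - 1` (`VK K` is not empty).  Rank-nullity.
* `sum_degK`: `card K = ∑ v ∈ VK K, degK K v` (`Finset.card_eq_sum_card_image`).
* `card_branch`: `∑ (degK - 2) = card K - 2 card (VK K) ≤ 2 (finrank - 1) ≤ 2`.
* `card_K_le`: the same inequality.
-/

namespace SST
namespace Tri

open Classical

variable {D : Type} [Fintype D]

theorem sum_degK (T : Tri D) (K : Finset D) : ∑ v ∈ T.VK K, T.degK K v = K.card :=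
  (Finset.card_eq_sum_card_image T.tl K).symm

private theorem Deg_restr (T : Tri D) {K : Finset D} {z : D → ℝ} (hs : Supp z K) (v : T.V) :
    ∑ e with T.tl e = v, z e = ∑ e ∈ K with T.tl e = v, z e := by
  symm
  apply Finset.sum_subset
  · intro x hx
    rw [Finset.mem_filter] at hx ⊢
    exact ⟨Finset.mem_univ _, hx.2⟩
  · intro x hx hx2
    rw [Finset.mem_filter] at hx hx2
    exact hs x fun h => hx2 ⟨h, hx.2⟩

/-- antisymmetric functions supported in `K` -/
private noncomputable def Deg_A (T : Tri D) (K : Finset D) : Submodule ℝ (D → ℝ) where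
  carrier := {z | (∀ d, z (T.a d) = - z d) ∧ Supp z K}
  add_mem' := by
    intro x y hx hy
    refine ⟨fun d => ?_, fun d hd => ?_⟩
    · rw [Pi.add_apply, Pi.add_apply, hx.1 d, hy.1 d]
      ring
    · rw [Pi.add_apply, hx.2 d hd, hy.2 d hd, add_zero]
  zero_mem' := ⟨fun d => by simp, fun d _ => rfl⟩
  smul_mem' := by
    intro c x hx
    refine ⟨fun d => ?_, fun d hd => ?_⟩
    · rw [Pi.smul_apply, Pi.smul_apply, hx.1 d, smul_neg]
    · rw [Pi.smul_apply, hx.2 d hd, smul_zero]

private theorem Deg_mem (T : Tri D) (K : Finset D) (z : D → ℝ) :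
    z ∈ Deg_A T K ↔ (∀ d, z (T.a d) = - z d) ∧ Supp z K := Iff.rfl

/-- extension by zero -/
private noncomputable def Deg_ext (K : Finset D) (y : K → ℝ) (d : D) : ℝ :=
  if h : d ∈ K then y ⟨d, h⟩ else 0

/-- sign of a dart -/
private noncomputable def Deg_sg (T : Tri D) (d : D) : ℝ :=
  if Fintype.equivFin D d < Fintype.equivFin D (T.a d) then 1 else -1

private theorem Deg_sg_a (T : Tri D) (d : D) : Deg_sg T (T.a d) = - Deg_sg T d := by
  unfold Deg_sg
  rw [T.aa]
  have hne : Fintype.equivFin D d ≠ Fintype.equivFin D (T.a d) := fun h =>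
    T.ane d ((Fintype.equivFin D).injective h).symm
  rcases lt_or_gt_of_ne hne with h | h
  · rw [if_pos h, if_neg (not_lt.2 h.le)]
  · rw [if_pos h, if_neg (not_lt.2 h.le), neg_neg]

private theorem Deg_sg_ne (T : Tri D) (d : D) : Deg_sg T d ≠ 0 := by
  unfold Deg_sg
  split_ifs <;> norm_num

private theorem Deg_card (T : Tri D) {K : Finset D} (hK : T.AC K) :
    K.card ≤ 2 * Module.finrank ℝ (Deg_A T K) := by
  have hKa : ∀ d, d ∉ K → T.a d ∉ K := by
    intro d hd h
    have := hK _ h
    rw [T.aa] at this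
    exact hd this
  have hext : ∀ (y : K → ℝ) (d : D), d ∉ K → Deg_ext K y d = 0 := by
    intro y d hd
    unfold Deg_ext
    rw [dif_neg hd]
  have h1 : ∀ y : K → ℝ, (fun d => Deg_ext K y d - Deg_ext K y (T.a d)) ∈ Deg_A T K := by
    intro y
    rw [Deg_mem]
    refine ⟨fun d => ?_, fun d hd => ?_⟩
    · change Deg_ext K y (T.a d) - Deg_ext K y (T.a (T.a d)) =
        -(Deg_ext K y d - Deg_ext K y (T.a d))
      rw [T.aa]
      ring
    · change Deg_ext K y d - Deg_ext K y (T.a d) = 0
      rw [hext y d hd, hext y _ (hKa d hd), sub_zero]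
  have h2 : ∀ y : K → ℝ,
      (fun d => Deg_sg T d * (Deg_ext K y d + Deg_ext K y (T.a d))) ∈ Deg_A T K := by
    intro y
    rw [Deg_mem]
    refine ⟨fun d => ?_, fun d hd => ?_⟩
    · change Deg_sg T (T.a d) * (Deg_ext K y (T.a d) + Deg_ext K y (T.a (T.a d))) =
        -(Deg_sg T d * (Deg_ext K y d + Deg_ext K y (T.a d)))
      rw [T.aa, Deg_sg_a]
      ring
    · change Deg_sg T d * (Deg_ext K y d + Deg_ext K y (T.a d)) = 0
      rw [hext y d hd, hext y _ (hKa d hd), add_zero, mul_zero]
  have hadd : ∀ (y y' : K → ℝ) (d : D), Deg_ext K (y + y') d = Deg_ext K y d + Deg_ext K y' d := by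
    intro y y' d
    unfold Deg_ext
    split_ifs
    · rfl
    · rw [add_zero]
  have hsmul : ∀ (c : ℝ) (y : K → ℝ) (d : D), Deg_ext K (c • y) d = c * Deg_ext K y d := by
    intro c y d
    unfold Deg_ext
    split_ifs
    · rfl
    · rw [mul_zero]
  let Φ : (K → ℝ) →ₗ[ℝ] (Deg_A T K) × (Deg_A T K) :=
    { toFun := fun y => (⟨_, h1 y⟩, ⟨_, h2 y⟩)
      map_add' := by
        intro y y'
        refine Prod.ext (Subtype.ext (funext fun d => ?_)) (Subtype.ext (funext fun d => ?_))
        · change Deg_ext K (y + y') d - Deg_ext K (y + y') (T.a d) =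
            (Deg_ext K y d - Deg_ext K y (T.a d)) + (Deg_ext K y' d - Deg_ext K y' (T.a d))
          rw [hadd, hadd]
          ring
        · change Deg_sg T d * (Deg_ext K (y + y') d + Deg_ext K (y + y') (T.a d)) =
            Deg_sg T d * (Deg_ext K y d + Deg_ext K y (T.a d)) +
              Deg_sg T d * (Deg_ext K y' d + Deg_ext K y' (T.a d))
          rw [hadd, hadd]
          ring
      map_smul' := by
        intro c y
        refine Prod.ext (Subtype.ext (funext fun d => ?_)) (Subtype.ext (funext fun d => ?_))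
        · change Deg_ext K (c • y) d - Deg_ext K (c • y) (T.a d) =
            c * (Deg_ext K y d - Deg_ext K y (T.a d))
          rw [hsmul, hsmul]
          ring
        · change Deg_sg T d * (Deg_ext K (c • y) d + Deg_ext K (c • y) (T.a d)) =
            c * (Deg_sg T d * (Deg_ext K y d + Deg_ext K y (T.a d)))
          rw [hsmul, hsmul]
          ring }
  have hinj : Function.Injective Φ := by
    intro y y' h
    have e1 : ∀ d, Deg_ext K y d - Deg_ext K y (T.a d) =
        Deg_ext K y' d - Deg_ext K y' (T.a d) := fun d =>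
      congrFun (congrArg Subtype.val (congrArg Prod.fst h)) d
    have e2 : ∀ d, Deg_sg T d * (Deg_ext K y d + Deg_ext K y (T.a d)) =
        Deg_sg T d * (Deg_ext K y' d + Deg_ext K y' (T.a d)) := fun d =>
      congrFun (congrArg Subtype.val (congrArg Prod.snd h)) d
    funext d
    have e3 := e1 d.1
    have e4 := mul_left_cancel₀ (Deg_sg_ne T d.1) (e2 d.1)
    have e5 : Deg_ext K y d.1 = Deg_ext K y' d.1 := by linarith
    unfold Deg_ext at e5
    rw [dif_pos d.2, dif_pos d.2] at e5
    exact e5
  have h3 := LinearMap.finrank_le_finrank_of_injective hinj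
  rw [Module.finrank_fintype_fun_eq_card, Fintype.card_coe, Module.finrank_prod] at h3
  omega

theorem dim_ge (T : Tri D) {K : Finset D} (hK : T.AC K) (hne : K.Nonempty) :
    K.card + 2 ≤ 2 * Module.finrank ℝ (T.CycK K) + 2 * (T.VK K).card := by
  let dv : (Deg_A T K) →ₗ[ℝ] (T.VK K → ℝ) :=
    { toFun := fun z v => ∑ e with T.tl e = v.1, z.1 e
      map_add' := by
        intro z z'
        funext v
        change ∑ e with T.tl e = v.1, (z.1 e + z'.1 e) = _
        rw [Finset.sum_add_distrib]
        rfl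
      map_smul' := by
        intro c z
        funext v
        change ∑ e with T.tl e = v.1, c * z.1 e = c * ∑ e with T.tl e = v.1, z.1 e
        rw [Finset.mul_sum] }
  have hdv : ∀ z v, dv z v = ∑ e with T.tl e = v.1, z.1 e := fun _ _ => rfl
  -- the kernel
  have hker : ∀ z : Deg_A T K, dv z = 0 → z.1 ∈ T.CycK K := by
    intro z hz
    obtain ⟨hz1, hz2⟩ := (Deg_mem T K z.1).1 z.2
    refine ⟨⟨hz1, fun d => ?_⟩, hz2⟩
    by_cases hd : T.tl d ∈ T.VK K
    · have := congrFun hz ⟨T.tl d, hd⟩
      rw [hdv] at this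
      exact this
    · refine Finset.sum_eq_zero fun e he => hz2 e fun heK => hd ?_
      rw [← (Finset.mem_filter.1 he).2]
      exact Finset.mem_image_of_mem _ heK
  have hk : Module.finrank ℝ (LinearMap.ker dv) ≤ Module.finrank ℝ (T.CycK K) := by
    let j : LinearMap.ker dv →ₗ[ℝ] T.CycK K :=
      { toFun := fun z => ⟨z.1.1, hker z.1 (LinearMap.mem_ker.1 z.2)⟩
        map_add' := fun _ _ => rfl
        map_smul' := fun _ _ => rfl }
    refine LinearMap.finrank_le_finrank_of_injective (f := j) ?_
    intro z z' h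
    have h' : z.1.1 = z'.1.1 := congrArg (fun x : T.CycK K => x.1) h
    exact Subtype.ext (Subtype.ext h')
  -- the range
  have hsum : ∀ z : Deg_A T K, ∑ v, dv z v = 0 := by
    intro z
    obtain ⟨hz1, hz2⟩ := (Deg_mem T K z.1).1 z.2
    have e1 : ∑ v, dv z v = ∑ v ∈ T.VK K, ∑ e ∈ K with T.tl e = v, z.1 e := by
      rw [← Finset.sum_coe_sort (T.VK K)]
      refine Finset.sum_congr rfl fun v _ => ?_
      rw [hdv, Deg_restr T hz2]
    have e2 : ∑ v ∈ T.VK K, ∑ e ∈ K with T.tl e = v, z.1 e = ∑ e ∈ K, z.1 e :=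
      Finset.sum_fiberwise_of_maps_to (fun e he => Finset.mem_image_of_mem _ he) _
    have e3 : ∑ e ∈ K, z.1 e = ∑ e, z.1 e :=
      Finset.sum_subset (Finset.subset_univ _) fun e _ he => hz2 e he
    have e4 : ∑ e, z.1 e = - ∑ e, z.1 e := by
      rw [← Finset.sum_neg_distrib, ← Equiv.sum_comp T.a]
      exact Finset.sum_congr rfl fun e _ => hz1 e
    rw [e1, e2, e3]
    linarith
  have hVne : (T.VK K).Nonempty := hne.image _
  have hr : Module.finrank ℝ (LinearMap.range dv) < (T.VK K).card := by
    have hlt : LinearMap.range dv < ⊤ := by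
      rw [lt_top_iff_ne_top]
      intro h
      have h1 : (fun _ => 1 : T.VK K → ℝ) ∈ LinearMap.range dv := by
        rw [h]
        exact Submodule.mem_top
      obtain ⟨z, hz⟩ := h1
      have h2 := hsum z
      rw [hz, Finset.sum_const, Finset.card_univ, Fintype.card_coe, nsmul_eq_mul, mul_one] at h2
      have h3 := hVne.card_pos
      have h4 : (T.VK K).card = 0 := by exact_mod_cast h2
      omega
    have h5 := Submodule.finrank_lt hlt.ne
    rwa [Module.finrank_fintype_fun_eq_card, Fintype.card_coe] at h5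
  have hrn := LinearMap.finrank_range_add_finrank_ker dv
  have hc := Deg_card T hK
  omega

theorem IsMin.two_le_degK {T : Tri D} {w : T.V → ℝ} {K : Finset D} (hw : ∀ v, 0 ≤ w v)
    (hK : T.IsMin w K) {v : T.V} (hv : v ∈ T.VK K) : 2 ≤ T.degK K v := by
  obtain ⟨e, he, hev⟩ := Finset.mem_image.1 hv
  obtain ⟨z, hz, hs, hze⟩ := hK.cover hw he
  by_contra hcon
  have h1 : (K.filter fun d => T.tl d = v).card ≤ 1 := by
    unfold degK at hcon
    omega
  have h2 : (K.filter fun d => T.tl d = v) = {e} := by
    refine (Finset.eq_of_subset_of_card_le ?_ ?_).symm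
    · rw [Finset.singleton_subset_iff, Finset.mem_filter]
      exact ⟨he, hev⟩
    · rw [Finset.card_singleton]
      exact h1
  have h3 := hz.2 e
  rw [Deg_restr T hs, hev, h2, Finset.sum_singleton, hze] at h3
  exact one_ne_zero h3

/-- At most two branch vertices. -/
theorem IsMin.card_branch {T : Tri D} {w : T.V → ℝ} {K : Finset D} (hw : ∀ v, 0 ≤ w v)
    (hK : T.IsMin w K) : ((T.VK K).filter fun v => 3 ≤ T.degK K v).card ≤ 2 := by
  have h1 := dim_ge T hK.ac hK.nonempty
  have h2 := hK.dim_le_two hw
  have h3 := sum_degK T K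
  have h4 : ∑ v ∈ T.VK K, (2 + if 3 ≤ T.degK K v then 1 else 0) ≤ ∑ v ∈ T.VK K, T.degK K v := by
    refine Finset.sum_le_sum fun v hv => ?_
    have h5 := hK.two_le_degK hw hv
    split_ifs with h
    · exact h
    · exact h5
  rw [Finset.sum_add_distrib, Finset.sum_const, smul_eq_mul, ← Finset.card_filter] at h4
  omega

theorem IsMin.card_K_le {T : Tri D} {w : T.V → ℝ} {K : Finset D} (hw : ∀ v, 0 ≤ w v)
    (hK : T.IsMin w K) : K.card ≤ 2 * (T.VK K).card + 2 := by
  have h1 := dim_ge T hK.ac hK.nonempty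
  have h2 := hK.dim_le_two hw
  omega

end Tri
end SST
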