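import Pool.Agent.SST.D.GeoA
import Pool.Agent.SST.D.Deg

/-!
# SST-D-Geo: K is locally geodesic  (paper proof, (4.6))
If `tl e₁ = tl e₂` take the empty walk.  Otherwise let `ρ, m, q, δ` be as in `exists_rho`,
`exists_path`.  If `m ≤ 6` the walk `δ 0, …, δ (m-1)` is the answer.  Suppose `m ≥ 7`.
Among `q 1, …, q 6` (pairwise distinct vertices of `K`) at most two have `degK ≥ 3`
(`card_branch`); so for one of `i = 1, 3, 5` both `q i` and `q (i+1)` have `degK ≤ 2`.
`K' := (K ∪ {e₁, a e₁, e₂, a e₂})` minus all darts whose tail or head is `q i` or `q (i+1)`; it is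
`AC`.  Note `q i, q (i+1)` are neither `tl e₁ = q 0` nor `tl e₂ = q m` nor `u = hd e₁`.
* `K'` is `Good`: let `z, z'` be as in `Good K`; `z~ := z - (z (δ i) / ρ (δ i)) ρ`.  It is a cycle
  supported in `K ∪ {…}`, `z~ (δ i) = 0`.  The darts of `K ∪ {…}` leaving `q i` are in `K`, there are
  at most 2 of them, and `δ i`, `a (δ (i-1))` are two different ones (heads `q (i+1) ≠ q (i-1)`).  The
  vertex condition at `q i` gives `z~ (a (δ (i-1))) = 0`: `z~ = 0` on all darts leaving `q i`, hence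
  (antisymmetry) on all darts entering `q i`.  At `q (i+1)`: the darts of `K ∪ {…}` leaving it are
  `a (δ i)`, `δ (i+1)` (`i + 1 < m`), and `z~ (a (δ i)) = 0`.  So `Supp z~ K'`.
  `BB z~ z~' = BB z z'` (`BB ρ z' = 0`, `BB z ρ = - BB ρ z = 0`, `BB ρ ρ = 0`).
* Weight: `VK K' ⊆ (VK K ∪ {u}) \ {q i, q (i+1)}`, so
  `W K' ≤ W K + w u - w (q i) - w (q (i+1))`.  Along the walk `u - q 0 - q 1 - … - q (i+1)`:
  `w u ≤ (11/10)^(j+1) w (q j)`, `j ≤ 6`.  `(10/11)^6 + (10/11)^7 > 1` and `w u > 0` give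
  `w (q i) + w (q (i+1)) > w u` (`i + 1 ≤ 6`): `W K' < W K`, contradiction to `min`.
-/

namespace SST
namespace Tri

open Classical

variable {D : Type} [Fintype D]

omit [Fintype D] in
private theorem geo_walk {T : Tri D} {q : ℕ → T.V} {δ : ℕ → D} (m : ℕ) (k : ℕ)
    (h : ∀ i, k ≤ i → i < k + m → T.tl (δ i) = q i ∧ T.hd (δ i) = q (i + 1)) :
    T.IsWalk (q k) ((List.range' k m).map δ) (q (k + m)) := by
  induction m generalizing k with
  | zero => simp [IsWalk]
  | succ m ih =>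
    rw [List.range'_succ, List.map_cons]
    refine ⟨(h k le_rfl (by omega)).1, ?_⟩
    rw [(h k le_rfl (by omega)).2]
    have := ih (k + 1) (fun i h1 h2 => h i (by omega) (by omega))
    rw [show k + (m + 1) = k + 1 + m by omega]
    exact this

/-- Two darts at a vertex of degree at most 2. -/
private theorem geo_vertex {T : Tri D} {K K₂ : Finset D} {z : D → ℝ} (hz : T.IsCyc z)
    (hs : Supp z K₂) {v : T.V} (hv : ∀ d ∈ K₂, T.tl d = v → d ∈ K) (hdeg : T.degK K v ≤ 2)
    {d₁ d₂ : D} (h₁ : d₁ ∈ K) (h₂ : d₂ ∈ K) (t₁ : T.tl d₁ = v) (t₂ : T.tl d₂ = v)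
    (hne : d₁ ≠ d₂) (h0 : z d₁ = 0) : ∀ d, T.tl d = v → z d = 0 := by
  have hsub : ({d₁, d₂} : Finset D) ⊆ K.filter fun d => T.tl d = v := by
    intro d hd
    rw [Finset.mem_insert, Finset.mem_singleton] at hd
    rw [Finset.mem_filter]
    rcases hd with rfl | rfl
    · exact ⟨h₁, t₁⟩
    · exact ⟨h₂, t₂⟩
  have hcard : ({d₁, d₂} : Finset D).card = 2 := Finset.card_pair hne
  have heq : ({d₁, d₂} : Finset D) = K.filter fun d => T.tl d = v := by
    apply Finset.eq_of_subset_of_card_le hsub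
    rw [hcard]
    exact hdeg
  have hmem : ∀ d, T.tl d = v → z d ≠ 0 → d = d₂ := by
    intro d hd hzd
    have hK2 : d ∈ K₂ := by
      by_contra hn
      exact hzd (hs d hn)
    have hK : d ∈ K.filter fun d => T.tl d = v := by
      rw [Finset.mem_filter]
      exact ⟨hv d hK2 hd, hd⟩
    rw [← heq, Finset.mem_insert, Finset.mem_singleton] at hK
    rcases hK with rfl | rfl
    · exact absurd h0 hzd
    · rfl
  intro d hd
  by_contra hzd
  have hdd := hmem d hd hzd
  have hsum := hz.2 d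
  rw [hd] at hsum
  have : ∑ e with T.tl e = v, z e = z d := by
    apply Finset.sum_eq_single_of_mem d
    · simp [hd]
    · intro b hb hbd
      rw [Finset.mem_filter] at hb
      by_contra hzb
      exact hbd ((hmem b hb.2 hzb).trans hdd.symm)
  rw [this] at hsum
  exact hzd hsum

theorem IsMin.geo {T : Tri D} {w : T.V → ℝ} {K : Finset D} (hw : ∀ v, 1 ≤ w v)
    (hws : ∀ d, w (T.tl d) ≤ 11 / 10 * w (T.hd d))
    (hK : T.IsMin w K) {e₁ e₂ : D} (h₁ : T.tl e₁ ∈ T.VK K) (h₂ : T.tl e₂ ∈ T.VK K)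
    (hu : T.hd e₁ = T.hd e₂) (hu' : T.hd e₁ ∉ T.VK K) :
    ∃ l : List D, T.IsWalk (T.tl e₁) l (T.tl e₂) ∧ (∀ d ∈ l, d ∈ K) ∧ l.length ≤ 6 := by
  have hw0 : ∀ v, 0 ≤ w v := fun v => le_trans zero_le_one (hw v)
  by_cases h₁₂ : T.tl e₁ = T.tl e₂
  · exact ⟨[], h₁₂, by simp, by simp⟩
  obtain ⟨ρ, hρ, hρs, hρ1, hρ2, hρK⟩ := hK.exists_rho hw0 h₁ h₂ h₁₂ hu hu'
  obtain ⟨m, q, δ, hq0, hqm, hδ, hinj⟩ := hK.exists_path hw0 h₁ h₂ h₁₂ hu hu' hρ hρs hρ1
  by_cases hm : m ≤ 6
  · refine ⟨(List.range' 0 m).map δ, ?_, ?_, ?_⟩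
    · have := geo_walk (T := T) (q := q) (δ := δ) m 0
        (fun i _ h2 => ⟨(hδ i (by omega)).2.1, (hδ i (by omega)).2.2.1⟩)
      rw [Nat.zero_add, hq0, hqm] at this
      exact this
    · intro d hd
      rw [List.mem_map] at hd
      obtain ⟨i, hi, rfl⟩ := hd
      rw [List.mem_range'_1] at hi
      exact (hδ i (by omega)).1
    · simpa using hm
  exfalso
  have hm7 : 7 ≤ m := by omega
  have hqK : ∀ i < m, q i ∈ T.VK K := by
    intro i hi
    rw [← (hδ i hi).2.1]
    exact Finset.mem_image_of_mem _ (hδ i hi).1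
  -- two consecutive vertices of degree at most 2
  have hex : ∃ i, 1 ≤ i ∧ i ≤ 5 ∧ T.degK K (q i) ≤ 2 ∧ T.degK K (q (i + 1)) ≤ 2 := by
    by_contra hne
    push Not at hne
    have hj : ∀ i, 1 ≤ i → i ≤ 5 → ∃ j, (j = i ∨ j = i + 1) ∧ 3 ≤ T.degK K (q j) := by
      intro i h1 h5
      by_cases hh : T.degK K (q i) ≤ 2
      · exact ⟨i + 1, Or.inr rfl, hne i h1 h5 hh⟩
      · exact ⟨i, Or.inl rfl, by omega⟩
    obtain ⟨j1, hj1, hd1⟩ := hj 1 (by omega) (by omega)
    obtain ⟨j3, hj3, hd3⟩ := hj 3 (by omega) (by omega)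
    obtain ⟨j5, hj5, hd5⟩ := hj 5 (by omega) (by omega)
    have hsub : ({q j1, q j3, q j5} : Finset T.V) ⊆
        (T.VK K).filter fun v => 3 ≤ T.degK K v := by
      intro v hv
      rw [Finset.mem_insert, Finset.mem_insert, Finset.mem_singleton] at hv
      rw [Finset.mem_filter]
      rcases hv with rfl | rfl | rfl
      · exact ⟨hqK _ (by omega), hd1⟩
      · exact ⟨hqK _ (by omega), hd3⟩
      · exact ⟨hqK _ (by omega), hd5⟩
    have h13 : q j1 ≠ q j3 := fun h => by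
      have := hinj _ (by omega) _ (by omega) h
      omega
    have h15 : q j1 ≠ q j5 := fun h => by
      have := hinj _ (by omega) _ (by omega) h
      omega
    have h35 : q j3 ≠ q j5 := fun h => by
      have := hinj _ (by omega) _ (by omega) h
      omega
    have hc3 : ({q j1, q j3, q j5} : Finset T.V).card = 3 :=
      Finset.card_eq_three.2 ⟨_, _, _, h13, h15, h35, rfl⟩
    have := Finset.card_le_card hsub
    have := hK.card_branch hw0
    omega
  obtain ⟨i, hi1, hi5, hdi, hdi1⟩ := hex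
  have hqi0 : q i ≠ T.tl e₁ := fun h => by
    rw [← hq0] at h
    have := hinj _ (by omega) _ (by omega) h
    omega
  have hqim : q i ≠ T.tl e₂ := fun h => by
    rw [← hqm] at h
    have := hinj _ (by omega) _ (by omega) h
    omega
  have hqi10 : q (i + 1) ≠ T.tl e₁ := fun h => by
    rw [← hq0] at h
    have := hinj _ (by omega) _ (by omega) h
    omega
  have hqi1m : q (i + 1) ≠ T.tl e₂ := fun h => by
    rw [← hqm] at h
    have := hinj _ (by omega) _ (by omega) h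
    omega
  have hqiu : q i ≠ T.hd e₁ := fun h => hu' (h ▸ hqK i (by omega))
  have hqi1u : q (i + 1) ≠ T.hd e₁ := fun h => hu' (h ▸ hqK (i + 1) (by omega))
  have hqq : q i ≠ q (i + 1) := fun h => by
    have := hinj _ (by omega) _ (by omega) h
    omega
  set K₂ : Finset D := K ∪ {e₁, T.a e₁, e₂, T.a e₂} with hK₂
  have hmem₂ : ∀ d, d ∈ K₂ ↔ d ∈ K ∨ d = e₁ ∨ d = T.a e₁ ∨ d = e₂ ∨ d = T.a e₂ := by
    intro d
    simp only [hK₂, Finset.mem_union, Finset.mem_insert, Finset.mem_singleton]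
  have hAC₂ : ∀ d ∈ K₂, T.a d ∈ K₂ := by
    intro d hd
    rw [hmem₂] at hd ⊢
    rcases hd with h | rfl | rfl | rfl | rfl
    · exact Or.inl (hK.ac d h)
    · exact Or.inr (Or.inr (Or.inl rfl))
    · exact Or.inr (Or.inl (T.aa _))
    · exact Or.inr (Or.inr (Or.inr (Or.inr rfl)))
    · exact Or.inr (Or.inr (Or.inr (Or.inl (T.aa _))))
  have hout : ∀ v : T.V, v ≠ T.tl e₁ → v ≠ T.tl e₂ → v ≠ T.hd e₁ →
      ∀ d ∈ K₂, T.tl d = v → d ∈ K := by
    intro v hv1 hv2 hv3 d hd hdv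
    rw [hmem₂] at hd
    rcases hd with h | rfl | rfl | rfl | rfl
    · exact h
    · exact absurd hdv.symm hv1
    · exact absurd hdv.symm hv3
    · exact absurd hdv.symm hv2
    · exact absurd (hdv.symm.trans hu.symm) hv3
  set K' : Finset D := K₂.filter fun d =>
    T.tl d ≠ q i ∧ T.tl d ≠ q (i + 1) ∧ T.hd d ≠ q i ∧ T.hd d ≠ q (i + 1) with hK'
  have hAC' : T.AC K' := by
    intro d hd
    rw [hK', Finset.mem_filter] at hd ⊢
    refine ⟨hAC₂ d hd.1, ?_⟩
    rw [hd_a]
    exact ⟨hd.2.2.2.1, hd.2.2.2.2, hd.2.1, hd.2.2.1⟩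
  have hδi := hδ i (by omega)
  have hδp := hδ (i - 1) (by omega)
  have hδs := hδ (i + 1) (by omega)
  have hsupp : ∀ z, T.IsCyc z → Supp z K₂ → z (δ i) = 0 → Supp z K' := by
    intro z hz hs h0
    have hA : ∀ d, T.tl d = q i → z d = 0 := by
      apply geo_vertex hz hs (hout _ hqi0 hqim hqiu) hdi hδi.1 (hK.ac _ hδp.1) hδi.2.1 ?_ ?_ h0
      · show T.hd (δ (i - 1)) = q i
        rw [hδp.2.2.1]
        congr 1
        omega
      · intro he
        have h1 : T.hd (δ i) = T.hd (T.a (δ (i - 1))) := by rw [← he]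
        rw [hd_a, hδi.2.2.1, hδp.2.1] at h1
        have := hinj _ (by omega) _ (by omega) h1
        omega
    have hB : ∀ d, T.tl d = q (i + 1) → z d = 0 := by
      apply geo_vertex hz hs (hout _ hqi10 hqi1m hqi1u) hdi1 (hK.ac _ hδi.1) hδs.1 ?_ hδs.2.1 ?_ ?_
      · exact hδi.2.2.1
      · intro he
        have h1 : T.hd (T.a (δ i)) = T.hd (δ (i + 1)) := by rw [← he]
        rw [hd_a, hδi.2.1, hδs.2.2.1] at h1
        have := hinj _ (by omega) _ (by omega) h1
        omega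
      · rw [hz.1, h0, neg_zero]
    have hneg : ∀ d, z (T.a d) = 0 → z d = 0 := by
      intro d hd
      have := hz.1 d
      rw [hd] at this
      linarith
    intro d hd
    by_cases hd2 : d ∈ K₂
    · by_contra hzd
      apply hd
      rw [hK', Finset.mem_filter]
      exact ⟨hd2, fun h => hzd (hA d h), fun h => hzd (hB d h),
        fun h => hzd (hneg d (hA _ h)), fun h => hzd (hneg d (hB _ h))⟩
    · exact hs d hd2
  have hgood' : T.Good K' := by
    obtain ⟨z, z', hz, hz', hs, hs', hB⟩ := hK.good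
    have hcy : ∀ z, T.IsCyc z → T.IsCyc (z - (z (δ i) / ρ (δ i)) • ρ) :=
      fun z hz => hz.sub (hρ.smul _)
    have hsu : ∀ z, T.IsCyc z → Supp z K → Supp (z - (z (δ i) / ρ (δ i)) • ρ) K' := by
      intro z hz hs
      apply hsupp _ (hcy z hz)
      · intro d hd
        have h1 : d ∉ K := fun h => hd ((hmem₂ d).2 (Or.inl h))
        simp [hs d h1, hρs d hd]
      · have := hδi.2.2.2
        simp only [Pi.sub_apply, Pi.smul_apply, smul_eq_mul]
        field_simp
        ring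
    refine ⟨_, _, hcy z hz, hcy z' hz', hsu z hz hs, hsu z' hz' hs', ?_⟩
    have e1 : T.BB ρ z' = 0 := hρK z' hz' hs'
    have e2 : T.BB z ρ = 0 := by rw [T.BB_swap hz hρ, hρK z hz hs, neg_zero]
    have e3 : T.BB ρ ρ = 0 := T.BB_self hρ
    simp only [map_sub, map_smul, LinearMap.sub_apply, LinearMap.smul_apply, e1, e2, e3,
      smul_zero, sub_zero]
    exact hB
  have hmin := hK.min K' hAC' hgood'
  -- weights
  have hVK : T.VK K' ⊆ insert (T.hd e₁) (((T.VK K).erase (q i)).erase (q (i + 1))) := by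
    intro v hv
    rw [VK, Finset.mem_image] at hv
    obtain ⟨d, hd, rfl⟩ := hv
    rw [hK', Finset.mem_filter, hmem₂] at hd
    obtain ⟨hd, hd1, hd2, -, -⟩ := hd
    rw [Finset.mem_insert, Finset.mem_erase, Finset.mem_erase]
    rcases hd with h | rfl | rfl | rfl | rfl
    · exact Or.inr ⟨hd2, hd1, Finset.mem_image_of_mem _ h⟩
    · exact Or.inr ⟨hd2, hd1, h₁⟩
    · exact Or.inl rfl
    · exact Or.inr ⟨hd2, hd1, h₂⟩
    · exact Or.inl hu.symm
  have hW : T.W w K' ≤ w (T.hd e₁) + (T.W w K - w (q i) - w (q (i + 1))) := by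
    have h1 : T.W w K' ≤
        ∑ v ∈ insert (T.hd e₁) (((T.VK K).erase (q i)).erase (q (i + 1))), w v :=
      Finset.sum_le_sum_of_subset_of_nonneg hVK (fun v _ _ => hw0 v)
    have hni : T.hd e₁ ∉ ((T.VK K).erase (q i)).erase (q (i + 1)) := by
      intro h
      exact hu' (Finset.mem_of_mem_erase (Finset.mem_of_mem_erase h))
    rw [Finset.sum_insert hni] at h1
    have h2 : ∑ v ∈ ((T.VK K).erase (q i)).erase (q (i + 1)), w v + w (q (i + 1)) =
        ∑ v ∈ (T.VK K).erase (q i), w v :=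
      Finset.sum_erase_add _ _ (Finset.mem_erase.2 ⟨hqq.symm, hqK _ (by omega)⟩)
    have h3 : ∑ v ∈ (T.VK K).erase (q i), w v + w (q i) = ∑ v ∈ T.VK K, w v :=
      Finset.sum_erase_add _ _ (hqK _ (by omega))
    have h4 : T.W w K = ∑ v ∈ T.VK K, w v := rfl
    linarith
  have hpow : ∀ j, j ≤ 6 → w (T.hd e₁) ≤ (11 / 10 : ℝ) ^ (j + 1) * w (q j) := by
    intro j
    induction j with
    | zero =>
      intro _
      have := hws (T.a e₁)
      rw [hd_a, ← hq0] at this
      simpa [hd] using this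
    | succ j ih =>
      intro hj
      have h1 := ih (by omega)
      have h2 := hws (δ j)
      rw [(hδ j (by omega)).2.1, (hδ j (by omega)).2.2.1] at h2
      calc w (T.hd e₁) ≤ (11 / 10 : ℝ) ^ (j + 1) * w (q j) := h1
        _ ≤ (11 / 10 : ℝ) ^ (j + 1) * (11 / 10 * w (q (j + 1))) :=
          mul_le_mul_of_nonneg_left h2 (by positivity)
        _ = (11 / 10 : ℝ) ^ (j + 1 + 1) * w (q (j + 1)) := by ring
  have hp1 : w (T.hd e₁) ≤ (11 / 10 : ℝ) ^ 6 * w (q i) := by
    refine (hpow i (by omega)).trans ?_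
    apply mul_le_mul_of_nonneg_right _ (hw0 _)
    exact pow_le_pow_right₀ (by norm_num) (by omega)
  have hp2 : w (T.hd e₁) ≤ (11 / 10 : ℝ) ^ 7 * w (q (i + 1)) := by
    refine (hpow (i + 1) (by omega)).trans ?_
    apply mul_le_mul_of_nonneg_right _ (hw0 _)
    exact pow_le_pow_right₀ (by norm_num) (by omega)
  have hwu := hw (T.hd e₁)
  norm_num at hp1 hp2
  linarith

end Tri
end SST
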