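import Pool.Agent.SST.D.DDefs
import Pool.Agent.SST.Walk

/-!
# SST-D-LDD: low diameter decomposition  (paper proof, (6.1))
Graph: vertices `T.V`, edges = darts in `A` (closed under `a`).
Claim, by induction on the number of vertices of a finite set `V'` of vertices: there are
`R ⊆ A' := {d ∈ A : tl d ∈ V', hd d ∈ V'}` closed under `a`, `card R ≤ 2 ε card A'`, and for every
`v ∈ V'` a centre `c v ∈ V'` and a walk `P v` from `c v` to `v` of length at most `ρ` with darts in
`A' \ R`, `c (tl d) = c (hd d)` for `d ∈ A' \ R`.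
Step: pick `v₀ ∈ V'`; `B j :=` set of vertices joined to `v₀` by a walk of length at most `j` with darts
in `A'`.  `vol j := card {d ∈ A' : tl d ∈ B j}`, `cut j := card {d ∈ A' : tl d ∈ B j, hd d ∉ B j}`.
`vol (j+1) ≥ vol j + cut j` (the reverses of the darts counted by `cut j` start in `B (j+1) \ B j`).
If `cut j > ε vol j` for all `j < ρ` then `vol 0 ≥ 1` (if `vol 0 = 0` then `cut 0 = 0`, and `ρ ≥ 1` by
`hρ`; `ρ = 0` would mean `card D < 1`, then everything is empty) and `vol ρ ≥ (1+ε)^ρ > card D`,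
impossible.  So `cut j ≤ ε vol j` for some `j < ρ` (or `ρ = 0`, trivial).  Put the cut darts and their
reverses into `R`; the vertices of `B j` get the centre `v₀` and the walk of length `≤ j` (all vertices
on such a walk are in `B j`, so its darts are not cut); continue with `V' \ B j` (the darts of `A'`
inside it).  The darts with tail in `B j` are disjoint from those inside `V' \ B j`:
`2 cut j ≤ 2 ε vol j`.
`T.V` is finite (`Quotient.finite`).
-/

namespace SST
namespace Tri

open Classical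

variable {D : Type} [Fintype D]

/-- the darts of `A` inside `U` -/
private noncomputable def EU (T : Tri D) (A : Finset D) (U : Finset T.V) : Finset D :=
  A.filter fun d => T.tl d ∈ U ∧ T.hd d ∈ U

private theorem mem_EU {T : Tri D} {A : Finset D} {U : Finset T.V} {d : D} :
    d ∈ EU T A U ↔ d ∈ A ∧ T.tl d ∈ U ∧ T.hd d ∈ U := by
  unfold EU
  rw [Finset.mem_filter]

private theorem EU_a {T : Tri D} {A : Finset D} (hA : T.AC A) {U : Finset T.V} {d : D}
    (h : d ∈ EU T A U) : T.a d ∈ EU T A U := by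
  rw [mem_EU] at h ⊢
  refine ⟨hA d h.1, h.2.2, ?_⟩
  rw [hd_a]
  exact h.2.1

/-- the ball of radius `j` around `v₀` in `U` -/
private noncomputable def BU (T : Tri D) (A : Finset D) (U : Finset T.V) (v₀ : T.V) (j : ℕ) :
    Finset T.V :=
  U.filter fun v => ∃ l : List D, T.IsWalk v₀ l v ∧ l.length ≤ j ∧ ∀ d ∈ l, d ∈ EU T A U

private theorem mem_BU {T : Tri D} {A : Finset D} {U : Finset T.V} {v₀ v : T.V} {j : ℕ} :
    v ∈ BU T A U v₀ j ↔
      v ∈ U ∧ ∃ l : List D, T.IsWalk v₀ l v ∧ l.length ≤ j ∧ ∀ d ∈ l, d ∈ EU T A U := by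
  unfold BU
  rw [Finset.mem_filter]

private theorem self_BU {T : Tri D} {A : Finset D} {U : Finset T.V} {v₀ : T.V} (h : v₀ ∈ U)
    (j : ℕ) : v₀ ∈ BU T A U v₀ j := by
  rw [mem_BU]
  exact ⟨h, [], rfl, by simp, by simp⟩

private theorem BU_mono {T : Tri D} {A : Finset D} {U : Finset T.V} {v₀ v : T.V} {i j : ℕ}
    (hij : i ≤ j) (h : v ∈ BU T A U v₀ i) : v ∈ BU T A U v₀ j := by
  rw [mem_BU] at h ⊢
  obtain ⟨h1, l, h2, h3, h4⟩ := h
  exact ⟨h1, l, h2, h3.trans hij, h4⟩

private theorem BU_hd {T : Tri D} {A : Finset D} {U : Finset T.V} {v₀ : T.V} {j : ℕ} {d : D}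
    (hd : d ∈ EU T A U) (h : T.tl d ∈ BU T A U v₀ j) : T.hd d ∈ BU T A U v₀ (j + 1) := by
  rw [mem_BU] at h ⊢
  obtain ⟨h1, l, h2, h3, h4⟩ := h
  refine ⟨(mem_EU.1 hd).2.2, l ++ [d], walk_append T h2 (walk_single T d), ?_, ?_⟩
  · rw [List.length_append, List.length_singleton]
    omega
  · intro e he
    rw [List.mem_append, List.mem_singleton] at he
    rcases he with he | rfl
    · exact h4 e he
    · exact hd

/-- the darts of a short walk stay in the ball -/
private theorem walk_in {T : Tri D} {A : Finset D} {U : Finset T.V} {v₀ v : T.V} {j : ℕ}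
    {l : List D} (h1 : T.IsWalk v₀ l v) (h2 : l.length ≤ j) (h3 : ∀ d ∈ l, d ∈ EU T A U) {d : D}
    (hd : d ∈ l) : T.tl d ∈ BU T A U v₀ j ∧ T.hd d ∈ BU T A U v₀ j := by
  obtain ⟨l1, l2, rfl⟩ := List.append_of_mem hd
  obtain ⟨w, hw1, hw2⟩ := walk_split T h1
  have hw : T.tl d = w := hw2.1
  rw [List.length_append, List.length_cons] at h2
  have hdE : d ∈ EU T A U := h3 d hd
  have hl1 : ∀ e ∈ l1, e ∈ EU T A U := fun e he => h3 e (List.mem_append_left _ he)
  constructor
  · rw [mem_BU]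
    refine ⟨(mem_EU.1 hdE).2.1, l1, ?_, by omega, hl1⟩
    rw [hw]
    exact hw1
  · have h4 : T.tl d ∈ BU T A U v₀ l1.length := by
      rw [mem_BU]
      refine ⟨(mem_EU.1 hdE).2.1, l1, ?_, le_rfl, hl1⟩
      rw [hw]
      exact hw1
    exact BU_mono (by omega) (BU_hd hdE h4)

/-- the cut darts -/
private noncomputable def CU (T : Tri D) (A : Finset D) (U : Finset T.V) (v₀ : T.V) (j : ℕ) :
    Finset D :=
  (EU T A U).filter fun d => T.tl d ∈ BU T A U v₀ j ∧ T.hd d ∉ BU T A U v₀ j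

private theorem mem_CU {T : Tri D} {A : Finset D} {U : Finset T.V} {v₀ : T.V} {j : ℕ} {d : D} :
    d ∈ CU T A U v₀ j ↔
      d ∈ EU T A U ∧ T.tl d ∈ BU T A U v₀ j ∧ T.hd d ∉ BU T A U v₀ j := by
  unfold CU
  rw [Finset.mem_filter]

/-- the darts starting in the ball -/
private noncomputable def SU (T : Tri D) (A : Finset D) (U : Finset T.V) (v₀ : T.V) (j : ℕ) :
    Finset D :=
  (EU T A U).filter fun d => T.tl d ∈ BU T A U v₀ j

private theorem mem_SU {T : Tri D} {A : Finset D} {U : Finset T.V} {v₀ : T.V} {j : ℕ} {d : D} :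
    d ∈ SU T A U v₀ j ↔ d ∈ EU T A U ∧ T.tl d ∈ BU T A U v₀ j := by
  unfold SU
  rw [Finset.mem_filter]

private theorem CU_le_SU (T : Tri D) (A : Finset D) (U : Finset T.V) (v₀ : T.V) (j : ℕ) :
    (CU T A U v₀ j).card ≤ (SU T A U v₀ j).card := by
  apply Finset.card_le_card
  intro d hd
  rw [mem_CU] at hd
  exact mem_SU.2 ⟨hd.1, hd.2.1⟩

private theorem SU_succ {T : Tri D} {A : Finset D} (hA : T.AC A) (U : Finset T.V) (v₀ : T.V)
    (j : ℕ) : (SU T A U v₀ j).card + (CU T A U v₀ j).card ≤ (SU T A U v₀ (j + 1)).card := by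
  have h1 : ((CU T A U v₀ j).image T.a).card = (CU T A U v₀ j).card :=
    Finset.card_image_of_injective _ T.a.injective
  have h2 : Disjoint (SU T A U v₀ j) ((CU T A U v₀ j).image T.a) := by
    rw [Finset.disjoint_left]
    intro d hd hd2
    rw [Finset.mem_image] at hd2
    obtain ⟨e, he, rfl⟩ := hd2
    exact (mem_CU.1 he).2.2 (mem_SU.1 hd).2
  rw [← h1, ← Finset.card_union_of_disjoint h2]
  apply Finset.card_le_card
  intro d hd
  rw [Finset.mem_union, Finset.mem_image] at hd
  rcases hd with hd | ⟨e, he, rfl⟩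
  · rw [mem_SU] at hd
    exact mem_SU.2 ⟨hd.1, BU_mono (Nat.le_succ j) hd.2⟩
  · rw [mem_CU] at he
    exact mem_SU.2 ⟨EU_a hA he.1, BU_hd he.1 he.2.1⟩

private theorem exists_radius {T : Tri D} {A : Finset D} (hA : T.AC A) {ε : ℝ} (hε : 0 < ε)
    (ρ : ℕ) (hρ : (Fintype.card D : ℝ) < (1 + ε) ^ ρ) (U : Finset T.V) (v₀ : T.V) :
    ∃ j < ρ, ((CU T A U v₀ j).card : ℝ) ≤ ε * (SU T A U v₀ j).card := by
  have hD : 1 ≤ Fintype.card D := by
    obtain ⟨d, -⟩ := Quotient.exists_rep v₀
    exact Fintype.card_pos_iff.2 ⟨d⟩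
  have hρ1 : 1 ≤ ρ := by
    rcases Nat.eq_zero_or_pos ρ with h | h
    · subst h
      rw [pow_zero] at hρ
      have h1 : (1 : ℝ) ≤ Fintype.card D := by exact_mod_cast hD
      linarith
    · exact h
  by_contra hcon
  push Not at hcon
  have h0 : (1 : ℝ) ≤ (SU T A U v₀ 0).card := by
    have h1 := hcon 0 (by omega)
    have h2 : (0 : ℝ) ≤ ε * (SU T A U v₀ 0).card := by positivity
    have h3 : (0 : ℝ) < (CU T A U v₀ 0).card := lt_of_le_of_lt h2 h1
    have h4 : 0 < (CU T A U v₀ 0).card := by exact_mod_cast h3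
    have h5 := CU_le_SU T A U v₀ 0
    have h6 : 1 ≤ (SU T A U v₀ 0).card := by omega
    exact_mod_cast h6
  have key : ∀ j ≤ ρ, (1 + ε) ^ j ≤ ((SU T A U v₀ j).card : ℝ) := by
    intro j
    induction j with
    | zero =>
      intro _
      rw [pow_zero]
      exact h0
    | succ j ih =>
      intro hj
      have h1 := ih (by omega)
      have h2 := hcon j (by omega)
      have h3 : ((SU T A U v₀ j).card : ℝ) + (CU T A U v₀ j).card ≤ (SU T A U v₀ (j + 1)).card := by
        exact_mod_cast SU_succ hA U v₀ j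
      rw [pow_succ]
      have h4 : (0 : ℝ) ≤ (1 + ε) ^ j := by positivity
      nlinarith
  have h1 := key ρ le_rfl
  have h2 : ((SU T A U v₀ ρ).card : ℝ) ≤ Fintype.card D := by
    exact_mod_cast Finset.card_le_univ _
  linarith

private theorem ldd_ind (T : Tri D) (A : Finset D) (hA : T.AC A) {ε : ℝ} (hε : 0 < ε) (ρ : ℕ)
    (hρ : (Fintype.card D : ℝ) < (1 + ε) ^ ρ) (n : ℕ) : ∀ U : Finset T.V, U.card ≤ n →
    ∃ (R : Finset D) (c : T.V → T.V) (P : T.V → List D), T.AC R ∧ R ⊆ EU T A U ∧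
      (R.card : ℝ) ≤ 2 * ε * (EU T A U).card ∧ (∀ v ∈ U, T.IsWalk (c v) (P v) v) ∧
      (∀ v ∈ U, ∀ d ∈ P v, d ∈ EU T A U ∧ d ∉ R) ∧ (∀ v ∈ U, (P v).length ≤ ρ) ∧
      ∀ d, d ∈ EU T A U → d ∉ R → c (T.tl d) = c (T.hd d) := by
  induction n with
  | zero =>
    intro U hU
    have hU0 : U = ∅ := Finset.card_eq_zero.1 (by omega)
    subst hU0
    refine ⟨∅, id, fun _ => [], by intro d hd; simp at hd, by simp, ?_, by simp, by simp, by simp, ?_⟩
    · rw [Finset.card_empty]
      push_cast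
      positivity
    · intro d hd
      rw [mem_EU] at hd
      exact absurd hd.2.1 (Finset.notMem_empty _)
  | succ n ih =>
    intro U hU
    rcases U.eq_empty_or_nonempty with hUe | ⟨v₀, hv₀⟩
    · exact ih U (by rw [hUe]; simp)
    obtain ⟨j, hjρ, hj⟩ := exists_radius hA hε ρ hρ U v₀
    have hv₀B : v₀ ∈ BU T A U v₀ j := self_BU hv₀ j
    have hcard : (U \ BU T A U v₀ j).card ≤ n := by
      have h1 : (U \ BU T A U v₀ j).card < U.card := by
        apply Finset.card_lt_card
        rw [Finset.ssubset_iff_of_subset Finset.sdiff_subset]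
        refine ⟨v₀, hv₀, ?_⟩
        rw [Finset.mem_sdiff, not_and, not_not]
        intro _
        exact hv₀B
      omega
    obtain ⟨R, c, P, hAC, hRs, hRc, hw, hPd, hPl, hcc⟩ := ih _ hcard
    have hEE : ∀ d, d ∈ EU T A (U \ BU T A U v₀ j) ↔
        d ∈ EU T A U ∧ T.tl d ∉ BU T A U v₀ j ∧ T.hd d ∉ BU T A U v₀ j := by
      intro d
      rw [mem_EU, mem_EU, Finset.mem_sdiff, Finset.mem_sdiff]
      tauto
    set C := CU T A U v₀ j with hC
    have hCa : ∀ d ∈ C.image T.a, T.a d ∈ C := by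
      intro d hd
      rw [Finset.mem_image] at hd
      obtain ⟨e, he, rfl⟩ := hd
      rw [T.aa]
      exact he
    -- membership in the new `R`
    have hR1 : ∀ d, d ∈ EU T A (U \ BU T A U v₀ j) → d ∉ R → d ∉ R ∪ C ∪ C.image T.a := by
      intro d hd hdR hd2
      rw [hEE] at hd
      rw [Finset.mem_union, Finset.mem_union] at hd2
      rcases hd2 with (hd2 | hd2) | hd2
      · exact hdR hd2
      · rw [hC, mem_CU] at hd2
        exact hd.2.1 hd2.2.1
      · have h2 := hCa d hd2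
        rw [hC, mem_CU] at h2
        exact hd.2.2 h2.2.1
    have hR2 : ∀ d, T.tl d ∈ BU T A U v₀ j → T.hd d ∈ BU T A U v₀ j →
        d ∉ R ∪ C ∪ C.image T.a := by
      intro d h1 h2 hd
      rw [Finset.mem_union, Finset.mem_union] at hd
      rcases hd with (hd | hd) | hd
      · exact ((hEE d).1 (hRs hd)).2.1 h1
      · rw [hC, mem_CU] at hd
        exact hd.2.2 h2
      · have h3 := hCa d hd
        rw [hC, mem_CU, hd_a] at h3
        exact h3.2.2 h1
    -- walks in the ball
    have hball : ∀ v ∈ BU T A U v₀ j, ∃ l : List D, T.IsWalk v₀ l v ∧ l.length ≤ j ∧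
        ∀ d ∈ l, d ∈ EU T A U := fun v hv => (mem_BU.1 hv).2
    choose! Q hQ1 hQ2 hQ3 using hball
    refine ⟨R ∪ C ∪ C.image T.a, fun v => if v ∈ BU T A U v₀ j then v₀ else c v,
      fun v => if v ∈ BU T A U v₀ j then Q v else P v, ?_, ?_, ?_, ?_, ?_, ?_, ?_⟩
    · intro d hd
      rw [Finset.mem_union, Finset.mem_union] at hd ⊢
      rcases hd with (hd | hd) | hd
      · exact Or.inl (Or.inl (hAC d hd))
      · exact Or.inr (Finset.mem_image_of_mem _ hd)
      · exact Or.inl (Or.inr (hCa d hd))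
    · intro d hd
      rw [Finset.mem_union, Finset.mem_union] at hd
      rcases hd with (hd | hd) | hd
      · exact ((hEE d).1 (hRs hd)).1
      · rw [hC, mem_CU] at hd
        exact hd.1
      · rw [Finset.mem_image] at hd
        obtain ⟨e, he, rfl⟩ := hd
        rw [hC, mem_CU] at he
        exact EU_a hA he.1
    · have h1 : (R ∪ C ∪ C.image T.a).card ≤ R.card + C.card + C.card := by
        refine (Finset.card_union_le _ _).trans ?_
        refine Nat.add_le_add (Finset.card_union_le _ _) Finset.card_image_le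
      have h2 : (EU T A (U \ BU T A U v₀ j)).card + (SU T A U v₀ j).card ≤ (EU T A U).card := by
        have h3 : Disjoint (EU T A (U \ BU T A U v₀ j)) (SU T A U v₀ j) := by
          rw [Finset.disjoint_left]
          intro d hd hd2
          exact ((hEE d).1 hd).2.1 (mem_SU.1 hd2).2
        rw [← Finset.card_union_of_disjoint h3]
        apply Finset.card_le_card
        apply Finset.union_subset
        · intro d hd
          exact ((hEE d).1 hd).1
        · intro d hd
          exact (mem_SU.1 hd).1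
      have h1' : ((R ∪ C ∪ C.image T.a).card : ℝ) ≤ R.card + C.card + C.card := by
        exact_mod_cast h1
      have h2' : ((EU T A (U \ BU T A U v₀ j)).card : ℝ) + (SU T A U v₀ j).card ≤
          (EU T A U).card := by
        exact_mod_cast h2
      have h4 : 2 * ε * (((EU T A (U \ BU T A U v₀ j)).card : ℝ) + (SU T A U v₀ j).card) ≤
          2 * ε * (EU T A U).card := mul_le_mul_of_nonneg_left h2' (by positivity)
      linarith
    · intro v hv
      by_cases hvB : v ∈ BU T A U v₀ j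
      · simp only [if_pos hvB]
        exact hQ1 v hvB
      · simp only [if_neg hvB]
        exact hw v (Finset.mem_sdiff.2 ⟨hv, hvB⟩)
    · intro v hv d hd
      by_cases hvB : v ∈ BU T A U v₀ j
      · simp only [if_pos hvB] at hd
        have h1 := walk_in (hQ1 v hvB) (hQ2 v hvB) (hQ3 v hvB) hd
        exact ⟨hQ3 v hvB d hd, hR2 d h1.1 h1.2⟩
      · simp only [if_neg hvB] at hd
        have h1 := hPd v (Finset.mem_sdiff.2 ⟨hv, hvB⟩) d hd
        exact ⟨((hEE d).1 h1.1).1, hR1 d h1.1 h1.2⟩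
    · intro v hv
      by_cases hvB : v ∈ BU T A U v₀ j
      · simp only [if_pos hvB]
        exact (hQ2 v hvB).trans hjρ.le
      · simp only [if_neg hvB]
        exact hPl v (Finset.mem_sdiff.2 ⟨hv, hvB⟩)
    · intro d hd hdR
      rw [Finset.mem_union, Finset.mem_union, not_or, not_or] at hdR
      by_cases h1 : T.tl d ∈ BU T A U v₀ j
      · have h2 : T.hd d ∈ BU T A U v₀ j := by
          by_contra h2
          exact hdR.1.2 (by rw [hC, mem_CU]; exact ⟨hd, h1, h2⟩)
        simp only [if_pos h1, if_pos h2]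
      · have h2 : T.hd d ∉ BU T A U v₀ j := by
          intro h2
          apply hdR.2
          rw [Finset.mem_image]
          refine ⟨T.a d, ?_, T.aa d⟩
          rw [hC, mem_CU, hd_a]
          exact ⟨EU_a hA hd, h2, h1⟩
        simp only [if_neg h1, if_neg h2]
        exact hcc d ((hEE d).2 ⟨hd, h1, h2⟩) hdR.1.1

theorem ldd (T : Tri D) (A : Finset D) (hA : T.AC A) {ε : ℝ} (hε : 0 < ε) (ρ : ℕ)
    (hρ : (Fintype.card D : ℝ) < (1 + ε) ^ ρ) :
    ∃ (R : Finset D) (c : T.V → T.V) (P : T.V → List D), T.AC R ∧ R ⊆ A ∧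
      (R.card : ℝ) ≤ 2 * ε * A.card ∧ (∀ v, T.IsWalk (c v) (P v) v) ∧
      (∀ v, ∀ d ∈ P v, d ∈ A ∧ d ∉ R) ∧ (∀ v, (P v).length ≤ ρ) ∧
      ∀ d, d ∈ A → d ∉ R → c (T.tl d) = c (T.hd d) := by
  have hfin : Finite T.V := Quotient.finite _
  have hft : Fintype T.V := Fintype.ofFinite _
  have hE : EU T A (Finset.univ : Finset T.V) = A := by
    ext d
    rw [mem_EU]
    simp
  obtain ⟨R, c, P, h1, h2, h3, h4, h5, h6, h7⟩ :=
    ldd_ind T A hA hε ρ hρ _ (Finset.univ : Finset T.V) le_rfl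
  rw [hE] at h2 h3 h5 h7
  exact ⟨R, c, P, h1, h2, h3, fun v => h4 v (Finset.mem_univ v),
    fun v => h5 v (Finset.mem_univ v), fun v => h6 v (Finset.mem_univ v), h7⟩

end Tri
end SST
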