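import Pool.Agent.SST.D.DDefs
import Pool.Agent.SST.Walk

/-!
# SST-D-Wt: slowly varying weights  (paper proof, (6.2))
`Near X r v`: there is a walk of length less than `r` from a vertex of `X` to `v`.
Let `δ v` be the least length of a walk from a vertex of `X` to `v` (if there is one), and
`w v := max 1 (L (10/11)^(δ v))` (`w v := 1` if there is none).  `|δ (tl d) - δ (hd d)| ≤ 1` (append
the dart; reversed dart), so `w (tl d) ≤ (11/10) w (hd d)`; `δ = 0` on `X`; if `w v ≠ 1` then
`L (10/11)^(δ v) > 1 ≥ L (10/11)^r`, so `δ v < r`.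
-/

namespace SST
namespace Tri

variable {D : Type}

/-- Vertices at distance less than `r` from `X`. -/
def Near (T : Tri D) (X : Set T.V) (r : ℕ) (v : T.V) : Prop :=
  ∃ x ∈ X, ∃ l : List D, T.IsWalk x l v ∧ l.length < r

private def lens (T : Tri D) (X : Set T.V) (v : T.V) : Set ℕ :=
  {k | ∃ x ∈ X, ∃ l : List D, T.IsWalk x l v ∧ l.length = k}

private theorem lens_hd (T : Tri D) (X : Set T.V) (d : D) {k : ℕ} (h : k ∈ lens T X (T.tl d)) :
    k + 1 ∈ lens T X (T.hd d) := by
  obtain ⟨x, hx, l, hl, rfl⟩ := h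
  exact ⟨x, hx, l ++ [d], T.walk_append hl (T.walk_single d), by simp⟩

theorem exists_weight (T : Tri D) (X : Set T.V) {L : ℝ} (hL : 1 ≤ L) (r : ℕ)
    (hr : L * (10 / 11 : ℝ) ^ r ≤ 1) :
    ∃ w : T.V → ℝ, (∀ v, 1 ≤ w v) ∧ (∀ v ∈ X, L ≤ w v) ∧
      (∀ d, w (T.tl d) ≤ 11 / 10 * w (T.hd d)) ∧ ∀ v, w v ≠ 1 → T.Near X r v := by
  classical
  set q : ℝ := 10 / 11 with hq
  have hq0 : 0 < q := by norm_num [hq]
  have hq1 : q ≤ 1 := by norm_num [hq]
  have hL0 : 0 < L := by linarith
  set w : T.V → ℝ := fun v => if (lens T X v).Nonempty then max 1 (L * q ^ sInf (lens T X v))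
    else 1 with hw
  have hw1 : ∀ v, 1 ≤ w v := by
    intro v
    simp only [hw]
    split_ifs
    · exact le_max_left _ _
    · exact le_rfl
  refine ⟨w, hw1, ?_, ?_, ?_⟩
  · intro v hv
    have h0 : 0 ∈ lens T X v := ⟨v, hv, [], rfl, rfl⟩
    have h1 : sInf (lens T X v) = 0 := Nat.sInf_eq_zero.2 (Or.inl h0)
    simp only [hw]
    rw [if_pos ⟨0, h0⟩, h1, pow_zero, mul_one]
    exact le_max_right _ _
  · intro d
    by_cases h : (lens T X (T.tl d)).Nonempty
    · have h1 := lens_hd T X d (Nat.sInf_mem h)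
      have h2 : sInf (lens T X (T.hd d)) ≤ sInf (lens T X (T.tl d)) + 1 := Nat.sInf_le h1
      have e1 : w (T.tl d) = max 1 (L * q ^ sInf (lens T X (T.tl d))) := by
        simp only [hw]; rw [if_pos h]
      have e2 : w (T.hd d) = max 1 (L * q ^ sInf (lens T X (T.hd d))) := by
        simp only [hw]; rw [if_pos ⟨_, h1⟩]
      rw [e1, e2]
      refine max_le ?_ ?_
      · have := le_max_left (1 : ℝ) (L * q ^ sInf (lens T X (T.hd d)))
        linarith
      · have h3 : q ^ (sInf (lens T X (T.tl d)) + 1) ≤ q ^ sInf (lens T X (T.hd d)) :=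
          pow_le_pow_of_le_one hq0.le hq1 h2
        have h4 := le_max_right (1 : ℝ) (L * q ^ sInf (lens T X (T.hd d)))
        have h5 : L * q ^ sInf (lens T X (T.tl d)) =
            11 / 10 * (L * q ^ (sInf (lens T X (T.tl d)) + 1)) := by
          rw [pow_succ, hq]; ring
        rw [h5]
        have h6 := mul_le_mul_of_nonneg_left h3 hL0.le
        linarith
    · have e1 : w (T.tl d) = 1 := by simp only [hw]; rw [if_neg h]
      rw [e1]
      have := hw1 (T.hd d)
      linarith
  · intro v hv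
    have h : (lens T X v).Nonempty := by
      by_contra h
      exact hv (by simp only [hw]; rw [if_neg h])
    have e1 : w v = max 1 (L * q ^ sInf (lens T X v)) := by
      simp only [hw]; rw [if_pos h]
    have h1 : sInf (lens T X v) < r := by
      by_contra hcon
      push Not at hcon
      apply hv
      rw [e1]
      refine max_eq_left ?_
      exact (mul_le_mul_of_nonneg_left (pow_le_pow_of_le_one hq0.le hq1 hcon) hL0.le).trans hr
    obtain ⟨x, hx, l, hl, hlen⟩ := Nat.sInf_mem h
    exact ⟨x, hx, l, hl, by rw [hlen]; exact h1⟩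

end Tri
end SST
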