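import Pool.Agent.SST.D.K0
import Pool.Agent.SST.D.Geo
import Pool.Agent.SST.D.Comp
import Pool.Agent.SST.D.CycL
import Pool.Agent.SST.D.NonCon
import Pool.Agent.SST.D.LDD
import Pool.Agent.SST.D.Wt

/-!
# SST-D-Det: the deterministic theorem  (paper proof, section 6)
* `core`: `K` minimal, `VK K` disjoint from `BadV`: `Setup` holds for `K`, the `η` of `unicell`, and the
  `M` of `exists_M` (with `U = VK K`): `geo` = `IsMin.geo`; `nul`: if a closed walk of length at most 8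
  meeting `VK K` were not null-homologous its vertex would be in `BadV`.  `M` is not empty
  (`Area x x' ≠ 0`).  `Setup.cycle`, `not_htp`.
* `det_main`: `L := 4ρ + 5`; weights from `exists_weight` with `X := BadV`.
  `N := {d : w (tl d) ≠ 1 or w (hd d) ≠ 1}` (`AC`), `A := univ \ N`, `R₂` from `ldd` for `A`,
  `R := N ∪ R₂`, `card R ≤ card N + 2 ε 6n < 2g`.  `rank_z` gives `z, z'`; the walks `P v` of `ldd` have
  darts in `A \ R₂`, i.e. not in `R`.  (`ldd` has `c (tl d) = c (hd d)` for `d ∈ A \ R₂`, which is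
  `d ∉ R`.)  `exists_K0` gives `K₀` with `W K₀ = card (VK K₀) ≤ 4ρ + 4` because `w = 1` on `VK K₀` (its
  darts are not in `N`).  `exists_min`: `K` with `W K ≤ 4ρ + 4 < L`, so `VK K` is disjoint from `BadV`
  (`w ≥ L` there, all weights `≥ 0`), and `card (VK K) ≤ W K ≤ 4ρ + 4` (`w ≥ 1`),
  `card K ≤ 8ρ + 10` (`card_K_le`).  `hdeg` bounds `card (DU (VK K))`.  `core`.
-/

namespace SST
namespace Tri

open Classical

variable {D : Type} [Fintype D]

theorem core (T : Tri D) [Nonempty D] (hc : T.Conn) {n g : ℕ} (hD : Fintype.card D = 6 * n)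
    (hg : T.Genus n g) {w : T.V → ℝ} (hw : ∀ v, 1 ≤ w v)
    (hws : ∀ d, w (T.tl d) ≤ 11 / 10 * w (T.hd d)) {K : Finset D} (hK : T.IsMin w K)
    (hbad : ∀ v ∈ T.VK K, v ∉ T.BadV) (hsmall : 6 * (T.DU (T.VK K)).card < 2 * g) :
    T.HasSSC (T.DU (T.VK K)).card := by
  have hw0 : ∀ v, 0 ≤ w v := fun v => by linarith [hw v]
  obtain ⟨η, hη, htr⟩ := hK.unicell hw0
  obtain ⟨M, hM, x, x', hx, hx', hxM, hA⟩ := T.exists_M hD hg (T.VK K) hsmall
  have hMne : M.Nonempty := by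
    by_contra hne
    rw [Finset.not_nonempty_iff_eq_empty] at hne
    apply hA
    unfold Area
    refine Finset.sum_eq_zero fun d _ => ?_
    have h1 := hxM d (by rw [hne]; simp)
    have h2 := hxM (T.f d) (by rw [hne]; simp)
    rw [h1.1, h2.1]
    ring
  have hS : T.Setup K η M := by
    refine ⟨hK.ac, hη, htr, hM, fun e₁ e₂ h1 h2 h3 h4 => hK.geo hw hws h1 h2 h3 h4, ?_⟩
    rintro c hc1 hlen ⟨d, hd, hdv⟩
    by_contra hn
    exact hbad _ hdv ⟨c, hc1, hlen, hn, d, hd, rfl⟩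
  obtain ⟨c, hc1, hc2, hc3, hc4, hc5, hc6, hc7⟩ := hS.cycle hc hK.nonempty hMne
  exact ⟨c, hc1, hc2, hc3, hc6, T.not_htp hc hK.good hM hx hx' hxM hA hc4 hc5,
    by exact_mod_cast hc7⟩

omit [Fintype D] in
private theorem HasSSC.mono {T : Tri D} {L L' : ℝ} (h : T.HasSSC L) (hL : L ≤ L') :
    T.HasSSC L' := by
  obtain ⟨c, h1, h2, h3, h4, h5, h6⟩ := h
  exact ⟨c, h1, h2, h3, h4, h5, h6.trans hL⟩

/-- The deterministic theorem. -/
theorem det_main (T : Tri D) [Nonempty D] (hc : T.Conn) {n g : ℕ} (hD : Fintype.card D = 6 * n)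
    (hg : T.Genus n g) {ε : ℝ} (hε : 0 < ε) (ρ : ℕ) (hρ : (6 * n : ℝ) < (1 + ε) ^ ρ) (r : ℕ)
    (hr : (4 * ρ + 5 : ℝ) * (10 / 11 : ℝ) ^ r ≤ 1)
    (hN : (({d : D | T.Near T.BadV r (T.tl d) ∨ T.Near T.BadV r (T.hd d)}.ncard : ℕ) : ℝ) +
      2 * ε * (6 * n) < 2 * g)
    (B : ℕ) (hB : 6 * B < 2 * g)
    (hdeg : ∀ K : Finset D, T.AC K → K.Nonempty → T.Unicell K → K.card ≤ 8 * ρ + 10 →
      (T.DU (T.VK K)).card ≤ B) :
    T.HasSSC B := by
  have hρ0 : (0 : ℝ) ≤ ρ := Nat.cast_nonneg ρ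
  obtain ⟨w, hw, hwX, hws, hwN⟩ := T.exists_weight T.BadV (L := 4 * ρ + 5) (by linarith) r hr
  have hw0 : ∀ v, 0 ≤ w v := fun v => by linarith [hw v]
  set N : Finset D := Finset.univ.filter fun d => w (T.tl d) ≠ 1 ∨ w (T.hd d) ≠ 1 with hNdef
  have hmemN : ∀ d, d ∈ N ↔ w (T.tl d) ≠ 1 ∨ w (T.hd d) ≠ 1 := fun d => by
    rw [hNdef, Finset.mem_filter]
    exact ⟨fun h => h.2, fun h => ⟨Finset.mem_univ _, h⟩⟩
  have hNa : ∀ d, d ∈ N → T.a d ∈ N := by
    intro d hd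
    rw [hmemN] at hd ⊢
    rw [T.hd_a]
    exact hd.symm
  have hNcard : (N.card : ℝ) ≤
      (({d : D | T.Near T.BadV r (T.tl d) ∨ T.Near T.BadV r (T.hd d)}.ncard : ℕ) : ℝ) := by
    have h1 : N.card ≤ {d : D | T.Near T.BadV r (T.tl d) ∨ T.Near T.BadV r (T.hd d)}.ncard := by
      rw [← Set.ncard_coe_finset]
      refine Set.ncard_le_ncard ?_ (Set.toFinite _)
      intro d hd
      rw [Finset.mem_coe, hmemN] at hd
      exact hd.imp (hwN _) (hwN _)
    exact_mod_cast h1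
  set A : Finset D := Nᶜ with hAdef
  have hAac : T.AC A := by
    intro d hd
    rw [hAdef, Finset.mem_compl] at hd ⊢
    intro h
    apply hd
    have := hNa _ h
    rwa [T.aa] at this
  obtain ⟨R₂, c, P, hR₂, hR₂A, hR₂c, hP, hPA, hPl, hcc⟩ := T.ldd A hAac hε ρ
    (by rw [hD]; push_cast; exact hρ)
  have hRac : T.AC (N ∪ R₂) := by
    intro d hd
    rw [Finset.mem_union] at hd ⊢
    exact hd.imp (hNa d) (hR₂ d)
  have hAcard : (A.card : ℝ) ≤ 6 * n := by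
    have h1 : A.card ≤ 6 * n := by
      rw [← hD]
      exact Finset.card_le_univ A
    exact_mod_cast h1
  have hRcard : (N ∪ R₂).card < 2 * g := by
    have h1 : ((N ∪ R₂).card : ℝ) ≤ N.card + R₂.card := by
      exact_mod_cast Finset.card_union_le N R₂
    have h2 : (R₂.card : ℝ) ≤ 2 * ε * (6 * n) :=
      hR₂c.trans (mul_le_mul_of_nonneg_left hAcard (by linarith))
    have h3 : ((N ∪ R₂).card : ℝ) < 2 * g := by linarith
    exact_mod_cast h3
  obtain ⟨z, z', hz, hz', hzR, hzR', hzB⟩ := T.rank_z hD hg (N ∪ R₂) hRac hRcard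
  have hnotR : ∀ d, d ∉ N ∪ R₂ ↔ d ∈ A ∧ d ∉ R₂ := by
    intro d
    rw [Finset.mem_union, not_or, hAdef, Finset.mem_compl]
  obtain ⟨K₀, hK₀a, hK₀R, hK₀g, hK₀c⟩ := T.exists_K0 (N ∪ R₂) hRac hz hz' hzR hzR' hzB ρ c P hP
    (fun v d hd => (hnotR d).2 (hPA v d hd)) hPl
    (fun d hd => hcc d ((hnotR d).1 hd).1 ((hnotR d).1 hd).2)
  have hWK₀ : T.W w K₀ ≤ 4 * ρ + 4 := by
    have h1 : T.W w K₀ = ((T.VK K₀).card : ℝ) := by
      unfold W
      rw [Finset.card_eq_sum_ones, Nat.cast_sum]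
      refine Finset.sum_congr rfl fun v hv => ?_
      obtain ⟨d, hd, rfl⟩ := Finset.mem_image.1 hv
      have h2 := ((hnotR d).1 (hK₀R d hd)).1
      rw [hAdef, Finset.mem_compl, hmemN, not_or, not_not] at h2
      rw [h2.1, Nat.cast_one]
    rw [h1]
    exact_mod_cast hK₀c
  obtain ⟨K, hK, hKW⟩ := T.exists_min w hK₀a hK₀g
  have hKW' : T.W w K ≤ 4 * ρ + 4 := hKW.trans hWK₀
  have hbad : ∀ v ∈ T.VK K, v ∉ T.BadV := by
    intro v hv hvb
    have h1 := hwX v hvb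
    have h2 : w v ≤ T.W w K := Finset.single_le_sum (fun u _ => hw0 u) hv
    linarith
  have hVK : (T.VK K).card ≤ 4 * ρ + 4 := by
    have h1 : ((T.VK K).card : ℝ) ≤ T.W w K := by
      unfold W
      rw [Finset.card_eq_sum_ones, Nat.cast_sum]
      refine Finset.sum_le_sum fun v _ => ?_
      rw [Nat.cast_one]
      exact hw v
    exact_mod_cast h1.trans hKW'
  have hKc : K.card ≤ 8 * ρ + 10 := by
    have := hK.card_K_le hw0
    omega
  have hDU := hdeg K hK.ac hK.nonempty (hK.unicell hw0) hKc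
  refine (T.core hc hD hg hw hws hK hbad (by omega)).mono ?_
  exact_mod_cast hDU

end Tri
end SST
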