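import Pool.Agent.SST.D.Min

/-!
# SST-D-Eta: connectedness and the single contour  (paper proof, (4.4), (4.5))
* `conn`: let `S` be as in the statement and suppose some `e ∈ K` has `tl e ∉ S`.
  Put `K₁ = {d ∈ K : tl d ∈ S}`, `K₂ = {d ∈ K : tl d ∉ S}`; both are closed under `a`: for `d ∈ K₁`
  `hd d ∈ S`, i.e. `tl (a d) ∈ S`; for `d ∈ K₂`, if `tl (a d) ∈ S` then `hd (a d) = tl d ∈ S`.
  For a cycle `z` supported in `K` the restrictions `z₁, z₂` to `K₁, K₂` are cycles
  (a vertex is in `S` or not).  By `cover` (elements of `K₁`, `K₂`) there are cycles `y₁ ≠ 0`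
  supported in `K₁`, `y₂ ≠ 0` supported in `K₂`.  They are linearly independent, and by
  `dim_le_two` every cycle supported in `K` is `α y₁ + β y₂`.  `BB y₁ y₁ = BB y₂ y₂ = 0`,
  `BB y₁ y₂ = 0` by `BB_disj`: so `BB = 0` on cycles supported in `K`, contradiction to `good`.
  (Alternatively without dimensions: if all cycles supported in `K₁` are pairwise orthogonal then
  they are in the radical of the cycles supported in `K`, contradiction to `nondeg`; so `K₁` is
  `Good`, `AC`, of weight at most that of `K` and smaller cardinality: contradiction to the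
  minimality.  This is the shortest way.)
* `walk`: `S` := vertices reachable from `x` by walks in `K`.
* `unicell`: `η := T.s * κ`, `κ d := if d ∈ K then a d else d` (an involution, `AC`).  Let `O` be the
  `η`-cycle of `d` (as a set), `tl d ∈ VK K`, and `h := indicator of O` (real).
  For `e ∉ K`: `η e = s e`, so `h (s e) = h e`.  For `e ∈ K`: `η (a e) = s (a (a e)) = s e`, so
  `h (s e) = h (a e)`.  Hence `zz h e = 0` for `e ∉ K`, `zz h e = h (a e) - h e` for `e ∈ K`; `InH h`:
  `h (f e) + h (s e)`, `f e = s (a e)`: for `e ∉ K` (then `a e ∉ K`) it is `h (a e) + h e`; for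
  `e ∈ K` it is `h e + h (a e)`.  For `z'` a cycle supported in `K`:
  `BB (zz h) z' = - ∑ (h e + h (s e)) z' e = - ∑_{e ∈ K} (h e + h (a e)) z' e = 0` (substitute
  `e ↦ a e`).  By `nondeg` `zz h = 0`: `h (a e) = h e` for `e ∈ K`.  So `O` is closed under `s` (all
  `e`: `h (s e) = h e`, or `= h (a e) = h e`) and under `a` on `K`.  The set
  `S = {v : all darts leaving v are in O}` contains `tl d`, and is closed along `K`
  (`e ∈ K`, `tl e ∈ S`: `e ∈ O`, `a e ∈ O`, and `O` is closed under `s`, so `hd e ∈ S`); by `conn` it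
  contains `VK K`.
-/

namespace SST
namespace Tri

open Classical

variable {D : Type} [Fintype D]

private theorem eta_restr {T : Tri D} {K : Finset D} (hac : T.AC K) {S : Set T.V}
    (hS : ∀ d ∈ K, T.tl d ∈ S → T.hd d ∈ S) {z : D → ℝ} (hz : T.IsCyc z) (hs : Supp z K) :
    T.IsCyc (fun d => if T.tl d ∈ S then z d else 0) := by
  constructor
  · intro d
    show (if T.tl (T.a d) ∈ S then z (T.a d) else 0) = - (if T.tl d ∈ S then z d else 0)
    by_cases hd : d ∈ K
    · have hiff : T.tl (T.a d) ∈ S ↔ T.tl d ∈ S := by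
        constructor
        · intro h
          have h1 := hS (T.a d) (hac d hd) h
          rw [hd_a] at h1
          exact h1
        · intro h
          exact hS d hd h
      by_cases h : T.tl d ∈ S
      · rw [if_pos h, if_pos (hiff.2 h), hz.1 d]
      · rw [if_neg h, if_neg (fun h' => h (hiff.1 h')), neg_zero]
    · have h0 : z d = 0 := hs d hd
      have h1 : z (T.a d) = 0 := by rw [hz.1 d, h0, neg_zero]
      rw [h0, h1]
      simp
  · intro d
    by_cases h : T.tl d ∈ S
    · refine Eq.trans ?_ (hz.2 d)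
      refine Finset.sum_congr rfl ?_
      intro e he
      have he' : T.tl e = T.tl d := (Finset.mem_filter.1 he).2
      have he2 : T.tl e ∈ S := by rw [he']; exact h
      show (if T.tl e ∈ S then z e else 0) = z e
      rw [if_pos he2]
    · refine Finset.sum_eq_zero ?_
      intro e he
      have he' : T.tl e = T.tl d := (Finset.mem_filter.1 he).2
      have he2 : T.tl e ∉ S := by rw [he']; exact h
      show (if T.tl e ∈ S then z e else 0) = 0
      rw [if_neg he2]

theorem IsMin.conn {T : Tri D} {w : T.V → ℝ} {K : Finset D} (hw : ∀ v, 0 ≤ w v)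
    (hK : T.IsMin w K) (S : Set T.V) (hS : ∀ d ∈ K, T.tl d ∈ S → T.hd d ∈ S) {d₀ : D}
    (hd₀ : d₀ ∈ K) (h₀ : T.tl d₀ ∈ S) : ∀ d ∈ K, T.tl d ∈ S := by
  intro e he
  by_contra hne
  have hac := hK.ac
  have hSa : ∀ d ∈ K, (T.tl (T.a d) ∈ S ↔ T.tl d ∈ S) := by
    intro d hd
    constructor
    · intro h
      have h1 := hS (T.a d) (hac d hd) h
      rw [hd_a] at h1
      exact h1
    · intro h
      exact hS d hd h
  obtain ⟨K1, hK1⟩ : ∃ K1 : Finset D, K1 = K.filter (fun d => T.tl d ∈ S) := ⟨_, rfl⟩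
  have memK1 : ∀ d, d ∈ K1 ↔ d ∈ K ∧ T.tl d ∈ S := by
    intro d
    rw [hK1]
    exact Finset.mem_filter
  have hac1 : T.AC K1 := by
    intro d hd
    rw [memK1] at hd ⊢
    exact ⟨hac d hd.1, (hSa d hd.1).2 hd.2⟩
  have hsub : K1 ⊆ K := fun d hd => ((memK1 d).1 hd).1
  have hlt : K1.card < K.card := by
    refine Finset.card_lt_card ⟨hsub, ?_⟩
    intro h
    exact hne ((memK1 e).1 (h he)).2
  have hW : T.W w K1 ≤ T.W w K := by
    unfold W
    refine Finset.sum_le_sum_of_subset_of_nonneg ?_ (fun v _ _ => hw v)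
    unfold VK
    exact Finset.image_subset_image hsub
  have hng : ¬ T.Good K1 := by
    intro hg
    have h1 := hK.min K1 hac1 hg
    have h2 := hK.mincard K1 hac1 hg (le_antisymm hW h1)
    omega
  obtain ⟨y, hy, hys, hy1⟩ := hK.cover hw hd₀
  have hy1c := eta_restr hac hS hy hys
  obtain ⟨y1, hy1d⟩ : ∃ y1 : D → ℝ, y1 = (fun d => if T.tl d ∈ S then y d else 0) := ⟨_, rfl⟩
  rw [← hy1d] at hy1c
  have hy1s : Supp y1 K1 := by
    intro d hd
    rw [hy1d]
    show (if T.tl d ∈ S then y d else 0) = 0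
    by_cases h : T.tl d ∈ S
    · rw [if_pos h]
      refine hys d ?_
      intro hdK
      exact hd ((memK1 d).2 ⟨hdK, h⟩)
    · rw [if_neg h]
  have hy1sK : Supp y1 K := fun d hd => hy1s d (fun h => hd (hsub h))
  have hzero : y1 = 0 := by
    refine hK.nondeg hw hy1c hy1sK ?_
    intro z hz hzs
    have hz1c := eta_restr hac hS hz hzs
    obtain ⟨z1, hz1d⟩ : ∃ z1 : D → ℝ, z1 = (fun d => if T.tl d ∈ S then z d else 0) := ⟨_, rfl⟩
    rw [← hz1d] at hz1c
    have hz1s : Supp z1 K1 := by
      intro d hd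
      rw [hz1d]
      show (if T.tl d ∈ S then z d else 0) = 0
      by_cases h : T.tl d ∈ S
      · rw [if_pos h]
        refine hzs d ?_
        intro hdK
        exact hd ((memK1 d).2 ⟨hdK, h⟩)
      · rw [if_neg h]
    have hz2c : T.IsCyc (z - z1) := hz.sub hz1c
    have e1 : T.BB y1 z1 = 0 := by
      by_contra h
      exact hng ⟨y1, z1, hy1c, hz1c, hy1s, hz1s, h⟩
    have e2 : T.BB y1 (z - z1) = 0 := by
      refine BB_disj T hy1c hz2c ?_
      intro d
      by_cases h : T.tl d ∈ S
      · right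
        intro e he
        rw [hz1d]
        show z e - (if T.tl e ∈ S then z e else 0) = 0
        rw [if_pos (by rw [he]; exact h), sub_self]
      · left
        intro e he
        rw [hy1d]
        show (if T.tl e ∈ S then y e else 0) = 0
        rw [if_neg (by rw [he]; exact h)]
    have e3 : z = z1 + (z - z1) := by
      rw [add_sub_cancel]
    rw [e3, map_add, e1, e2, add_zero]
  have h1 : y1 d₀ = 1 := by
    rw [hy1d]
    show (if T.tl d₀ ∈ S then y d₀ else 0) = 1
    rw [if_pos h₀, hy1]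
  rw [hzero] at h1
  exact zero_ne_one h1

theorem IsMin.walk {T : Tri D} {w : T.V → ℝ} {K : Finset D} (hw : ∀ v, 0 ≤ w v)
    (hK : T.IsMin w K) {x y : T.V} (hx : x ∈ T.VK K) (hy : y ∈ T.VK K) :
    ∃ l : List D, T.IsWalk x l y ∧ ∀ d ∈ l, d ∈ K := by
  unfold VK at hx hy
  obtain ⟨d₀, hd₀, rfl⟩ := Finset.mem_image.1 hx
  obtain ⟨d₁, hd₁, rfl⟩ := Finset.mem_image.1 hy
  have h := hK.conn hw {v | ∃ l : List D, T.IsWalk (T.tl d₀) l v ∧ ∀ d ∈ l, d ∈ K} ?_ hd₀
    ⟨[], rfl, fun d hd => absurd hd (List.not_mem_nil)⟩ d₁ hd₁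
  · exact h
  · rintro d hd ⟨l, hl, hlK⟩
    refine ⟨l ++ [d], walk_append T hl (walk_single T d), ?_⟩
    intro e he
    rcases List.mem_append.1 he with h | h
    · exact hlK e h
    · rw [List.mem_singleton.1 h]
      exact hd

private theorem eta_const {σ : Equiv.Perm D} {h : D → ℝ} (hh : ∀ e, h (σ e) = h e) {d e : D}
    (hde : σ.SameCycle d e) : h e = h d := by
  obtain ⟨k, -, hk⟩ := hde.exists_pow_eq'
  rw [← hk]
  clear hk
  induction k with
  | zero => rfl
  | succ k ih => rw [pow_succ', Equiv.Perm.mul_apply, hh, ih]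

theorem IsMin.unicell {T : Tri D} {w : T.V → ℝ} {K : Finset D} (hw : ∀ v, 0 ≤ w v)
    (hK : T.IsMin w K) : T.Unicell K := by
  have hac := hK.ac
  have hinv : Function.Involutive (fun d => if d ∈ K then T.a d else d) := by
    intro d
    show (if (if d ∈ K then T.a d else d) ∈ K then T.a (if d ∈ K then T.a d else d)
      else (if d ∈ K then T.a d else d)) = d
    by_cases h : d ∈ K
    · rw [if_pos h, if_pos (hac d h), T.aa]
    · rw [if_neg h, if_neg h]
  obtain ⟨η, hη⟩ : ∃ η : Equiv.Perm D, ∀ d, η d = if d ∈ K then T.s (T.a d) else T.s d := by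
    refine ⟨T.s * hinv.toPerm, ?_⟩
    intro d
    show T.s (if d ∈ K then T.a d else d) = _
    by_cases h : d ∈ K
    · rw [if_pos h, if_pos h]
    · rw [if_neg h, if_neg h]
  refine ⟨η, hη, ?_⟩
  intro d d' hd hd'
  obtain ⟨h, hh⟩ : ∃ h : D → ℝ, h = fun e => if η.SameCycle d e then 1 else 0 := ⟨_, rfl⟩
  have hval : ∀ e, h e = if η.SameCycle d e then 1 else 0 := fun e => by rw [hh]
  have hηh : ∀ e, h (η e) = h e := by
    intro e
    rw [hval, hval]
    by_cases h1 : η.SameCycle d e
    · rw [if_pos h1, if_pos (Equiv.Perm.sameCycle_apply_right.2 h1)]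
    · rw [if_neg h1, if_neg (fun h2 => h1 (Equiv.Perm.sameCycle_apply_right.1 h2))]
  have hN : ∀ e, e ∉ K → h (T.s e) = h e := by
    intro e he
    have h1 := hηh e
    rw [hη e, if_neg he] at h1
    exact h1
  have hP : ∀ e, e ∈ K → h (T.s e) = h (T.a e) := by
    intro e he
    have h1 := hηh (T.a e)
    rw [hη (T.a e), if_pos (hac e he), T.aa] at h1
    exact h1
  have haN : ∀ e, e ∉ K → T.a e ∉ K := by
    intro e he h1
    apply he
    have h2 := hac _ h1
    rw [T.aa] at h2
    exact h2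
  have hInH : T.InH h := by
    intro e
    rw [← s_a T e]
    by_cases he : e ∈ K
    · rw [hP e he, hP (T.a e) (hac e he), T.aa]
    · rw [hN e he, hN (T.a e) (haN e he)]
      ring
  have hsupp : Supp (T.zz h) K := by
    intro e he
    show h (T.s e) - h e = 0
    rw [hN e he, sub_self]
  have hzero : T.zz h = 0 := by
    refine hK.nondeg hw (zz_cyc T hInH) hsupp ?_
    intro z hz hzs
    rw [BB_lift T hInH hz]
    have h1 : ∑ e, (h e + h (T.s e)) * z e = ∑ e, (h e + h (T.a e)) * z e := by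
      refine Finset.sum_congr rfl ?_
      intro e _
      by_cases he : e ∈ K
      · rw [hP e he]
      · rw [hzs e he, mul_zero, mul_zero]
    have h2 : ∑ e, (h e + h (T.a e)) * z e = ∑ e, (h (T.a e) + h (T.a (T.a e))) * z (T.a e) :=
      (Equiv.sum_comp T.a (fun e => (h e + h (T.a e)) * z e)).symm
    have h3 : ∑ e, (h (T.a e) + h (T.a (T.a e))) * z (T.a e)
        = - ∑ e, (h e + h (T.a e)) * z e := by
      rw [← Finset.sum_neg_distrib]
      refine Finset.sum_congr rfl ?_
      intro e _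
      rw [T.aa, hz.1 e]
      ring
    rw [h1]
    linarith
  have hsinv : ∀ e, h (T.s e) = h e := by
    intro e
    have h1 : T.zz h e = 0 := by rw [hzero]; rfl
    have h2 : h (T.s e) - h e = 0 := h1
    linarith
  have hainv : ∀ e, e ∈ K → h (T.a e) = h e := by
    intro e he
    rw [← hP e he, hsinv e]
  have htl : ∀ e e', T.tl e = T.tl e' → h e = h e' := by
    intro e e' he
    exact (eta_const hsinv ((tl_eq_iff T e e').1 he)).symm
  have hdd : h d = 1 := by
    rw [hval, if_pos (Equiv.Perm.SameCycle.refl _ _)]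
  unfold VK at hd hd'
  obtain ⟨d₀, hd₀, hd₀t⟩ := Finset.mem_image.1 hd
  obtain ⟨d₁, hd₁, hd₁t⟩ := Finset.mem_image.1 hd'
  have hc := hK.conn hw {v | ∀ e, T.tl e = v → h e = 1} ?_ hd₀ ?_ d₁ hd₁
  · have h1 : h d' = 1 := hc d' hd₁t.symm
    by_contra h2
    rw [hval, if_neg h2] at h1
    exact zero_ne_one h1
  · intro e he hS e' he'
    have h1 : h e = 1 := hS e rfl
    have h2 : h (T.a e) = 1 := by rw [hainv e he, h1]
    rw [← h2]
    exact htl e' (T.a e) he'
  · intro e he
    rw [← hdd]
    exact htl e d (he.trans hd₀t)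

end Tri
end SST
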