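import Pool.Agent.SST.D.Eta

/-!
# SST-D-GeoA: the radical vector and a path in its support  (paper proof, (4.6), first half)
* `exists_rho`: let `l` be a walk in `K` from `tl e₂` to `tl e₁` (`IsMin.walk`); then
  `c := [e₁, a e₂] ++ l` is a closed walk (`tl e₁ → u → tl e₂ → tl e₁`), `z₀ := chain c` (real), a
  cycle supported in `K₂ := K ∪ {e₁, a e₁, e₂, a e₂}`, `z₀ e₁ = 1`, `z₀ e₂ = -1` (the darts
  `e₁, a e₁, e₂, a e₂` are different and not in `K`: `hd e₁ = u ∉ VK K`, `tl e₁ ≠ tl e₂`; the heads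
  of darts of `K` are in `VK K` by `AC`).  The functional `z ↦ BB z₀ z` on `CycK K` is represented by
  some `κ ∈ CycK K`: `z₀`-functional `= BB κ ·` because `BB` is non-degenerate on the finite
  dimensional space `CycK K` (`κ ↦ BB κ ·` is an injective map `CycK K → dual`, by `nondeg`, hence
  surjective).  `ρ := z₀ - κ`; `κ = 0` at `e₁, e₂` as they are not in `K`.
* `exists_path`: let `S` be the set of vertices reachable from `x = tl e₁` by walks with all darts in
  `K` and `ρ ≠ 0` on them.  If `y = tl e₂ ∉ S`: by `flow_out` `∑ d with tl d ∈ S ∧ hd d ∉ S, ρ d = 0`;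
  a dart with `tl ∈ S`, `hd ∉ S`, `ρ d ≠ 0` is not in `K`, so it is one of `e₁, a e₁, e₂, a e₂`, and
  `tl (a e₁) = tl (a e₂) = u ∉ S` (`u ∉ VK K`; all elements of `S` are in `VK K`), `tl e₂ ∉ S`; so it is
  `e₁`, and `hd e₁ = u ∉ S` so `e₁` does occur: the sum is `ρ e₁ = 1`, contradiction.  So `y ∈ S`; take
  a walk of minimal length: its vertices are pairwise distinct.  Present it by functions
  `q : ℕ → V`, `δ : ℕ → D`.
-/

namespace SST
namespace Tri

open Classical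

variable {D : Type} [Fintype D]

omit [Fintype D] in
private theorem geoA_mem_VK {T : Tri D} {K : Finset D} {d : D} (h : d ∈ K) : T.tl d ∈ T.VK K :=
  Finset.mem_image_of_mem _ h

omit [Fintype D] in
private theorem geoA_not_mem {T : Tri D} {K : Finset D} (hac : T.AC K) {e : D}
    (h : T.hd e ∉ T.VK K) : e ∉ K ∧ T.a e ∉ K := by
  have h1 : T.a e ∉ K := fun h2 => h (geoA_mem_VK h2)
  exact ⟨fun h2 => h1 (hac e h2), h1⟩

/-- representation of a functional on the cycles supported in `K` -/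
private theorem geoA_repr {T : Tri D} {w : T.V → ℝ} {K : Finset D} (hw : ∀ v, 0 ≤ w v)
    (hK : T.IsMin w K) (z₀ : D → ℝ) :
    ∃ κ, T.IsCyc κ ∧ Supp κ K ∧ ∀ z, T.IsCyc z → Supp z K → T.BB κ z = T.BB z₀ z := by
  let φ : T.CycK K →ₗ[ℝ] Module.Dual ℝ (T.CycK K) := T.BB.domRestrict₁₂ (T.CycK K) (T.CycK K)
  have hφ : ∀ x y : T.CycK K, φ x y = T.BB (x : D → ℝ) (y : D → ℝ) := fun x y => rfl
  have hinj : Function.Injective φ := by
    rw [← LinearMap.ker_eq_bot, LinearMap.ker_eq_bot']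
    intro x hx
    have h1 : (x : D → ℝ) = 0 := by
      refine hK.nondeg hw x.2.1 x.2.2 fun z hz hs => ?_
      have h2 := hφ x ⟨z, hz, hs⟩
      rw [hx] at h2
      exact h2.symm
    exact Subtype.ext h1
  have hsurj : Function.Surjective φ := by
    rw [← LinearMap.injective_iff_surjective_of_finrank_eq_finrank]
    · exact hinj
    · exact Subspace.dual_finrank_eq.symm
  let ψ : Module.Dual ℝ (T.CycK K) := (T.BB z₀).comp (T.CycK K).subtype
  obtain ⟨κ, hκ⟩ := hsurj ψ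
  refine ⟨κ, κ.2.1, κ.2.2, fun z hz hs => ?_⟩
  have h1 := hφ κ ⟨z, hz, hs⟩
  rw [hκ] at h1
  exact h1.symm

theorem IsMin.exists_rho {T : Tri D} {w : T.V → ℝ} {K : Finset D} (hw : ∀ v, 0 ≤ w v)
    (hK : T.IsMin w K) {e₁ e₂ : D} (h₁ : T.tl e₁ ∈ T.VK K) (h₂ : T.tl e₂ ∈ T.VK K)
    (h₁₂ : T.tl e₁ ≠ T.tl e₂) (hu : T.hd e₁ = T.hd e₂) (hu' : T.hd e₁ ∉ T.VK K) :
    ∃ ρ : D → ℝ, T.IsCyc ρ ∧ Supp ρ (K ∪ {e₁, T.a e₁, e₂, T.a e₂}) ∧ ρ e₁ = 1 ∧ ρ e₂ = -1 ∧
      ∀ z, T.IsCyc z → Supp z K → T.BB ρ z = 0 := by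
  obtain ⟨l, hl, hlK⟩ := hK.walk hw h₂ h₁
  have hu2 : T.hd e₂ ∉ T.VK K := hu ▸ hu'
  obtain ⟨n1, n1'⟩ := geoA_not_mem hK.ac hu'
  obtain ⟨n2, n2'⟩ := geoA_not_mem hK.ac hu2
  have hne : e₁ ≠ e₂ := fun h => h₁₂ (by rw [h])
  have hae : T.a e₁ ≠ T.a e₂ := fun h => hne (T.a.injective h)
  have hae2 : T.a e₂ ≠ e₁ := by
    intro h
    apply hu2
    have h3 : T.tl (T.a e₂) = T.hd e₂ := rfl
    rw [← h3, h]
    exact h₁
  have hae1 : e₁ ≠ T.a e₂ := fun h => hae2 h.symm
  have hclosed : T.Closed (e₁ :: T.a e₂ :: l) := by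
    refine ⟨T.tl e₁, rfl, ?_, ?_⟩
    · exact hu.symm
    · rw [hd_a]
      exact hl
  set z₀ : D → ℝ := fun d => (T.chain (e₁ :: T.a e₂ :: l) d : ℝ) with hz₀
  have hcyc : T.IsCyc z₀ := T.cyc_chain hclosed
  have hz1 : z₀ e₁ = 1 := by
    have h3 : T.chain (e₁ :: T.a e₂ :: l) e₁ = 1 := by
      rw [chain_cons, chain_cons, chain_of_not_mem T (fun h => n1 (hlK _ h)) (fun h => n1' (hlK _ h)),
        ind_self, ind_ne (T.ane e₁).symm, ind_ne hae2, ind_ne hae.symm]
      norm_num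
    rw [hz₀]
    show ((T.chain (e₁ :: T.a e₂ :: l) e₁ : ℤ) : ℝ) = 1
    rw [h3]
    norm_num
  have hz2 : z₀ e₂ = -1 := by
    have h3 : T.chain (e₁ :: T.a e₂ :: l) e₂ = -1 := by
      rw [chain_cons, chain_cons, chain_of_not_mem T (fun h => n2 (hlK _ h)) (fun h => n2' (hlK _ h)),
        ind_self, ind_ne hne, ind_ne hae1, ind_ne (T.ane e₂)]
      norm_num
    rw [hz₀]
    show ((T.chain (e₁ :: T.a e₂ :: l) e₂ : ℤ) : ℝ) = -1
    rw [h3]
    norm_num
  obtain ⟨κ, hκ, hκs, hκB⟩ := geoA_repr hw hK z₀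
  refine ⟨z₀ - κ, hcyc.sub hκ, ?_, ?_, ?_, ?_⟩
  · intro d hd
    rw [Finset.mem_union, not_or] at hd
    obtain ⟨hdK, hd4⟩ := hd
    have h5 : κ d = 0 := hκs d hdK
    have h6 : T.chain (e₁ :: T.a e₂ :: l) d = 0 := by
      apply chain_of_not_mem
      · intro h7
        rcases List.mem_cons.1 h7 with h8 | h7
        · exact hd4 (by simp [h8])
        rcases List.mem_cons.1 h7 with h8 | h7
        · exact hd4 (by simp [h8])
        · exact hdK (hlK d h7)
      · intro h7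
        rcases List.mem_cons.1 h7 with h8 | h7
        · have h9 : d = T.a e₁ := by rw [← h8, T.aa]
          exact hd4 (by simp [h9])
        rcases List.mem_cons.1 h7 with h8 | h7
        · have h9 : d = e₂ := T.a.injective h8
          exact hd4 (by simp [h9])
        · have h9 := hK.ac _ (hlK _ h7)
          rw [T.aa] at h9
          exact hdK h9
    show ((T.chain (e₁ :: T.a e₂ :: l) d : ℤ) : ℝ) - κ d = 0
    rw [h5, h6]
    norm_num
  · show z₀ e₁ - κ e₁ = 1
    rw [hz1, hκs e₁ n1, sub_zero]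
  · show z₀ e₂ - κ e₂ = -1
    rw [hz2, hκs e₂ n2, sub_zero]
  · intro z hz hs
    rw [map_sub, LinearMap.sub_apply, hκB z hz hs, sub_self]

omit [Fintype D] in
private theorem geoA_walk_VK {T : Tri D} {K : Finset D} (hac : T.AC K) {l : List D} :
    ∀ {u v : T.V}, T.IsWalk u l v → u ∈ T.VK K → (∀ d ∈ l, d ∈ K) → v ∈ T.VK K := by
  induction l with
  | nil =>
    intro u v h hu _
    have e : u = v := h
    rw [← e]
    exact hu
  | cons d l ih =>
    intro u v h _ hl
    refine ih h.2 ?_ fun x hx => hl x (List.mem_cons_of_mem _ hx)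
    exact geoA_mem_VK (hac d (hl d List.mem_cons_self))

/-- the functions which present a walk -/
private def GPath (T : Tri D) (P : D → Prop) (x y : T.V) (m : ℕ) (q : ℕ → T.V) (δ : ℕ → D) : Prop :=
  q 0 = x ∧ q m = y ∧ ∀ i < m, P (δ i) ∧ T.tl (δ i) = q i ∧ T.hd (δ i) = q (i + 1)

omit [Fintype D] in
private theorem geoA_path_of_walk {T : Tri D} {P : D → Prop} {l : List D} (d₀ : D) :
    ∀ {x y : T.V}, T.IsWalk x l y → (∀ d ∈ l, P d) → ∃ m q δ, GPath T P x y m q δ := by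
  induction l with
  | nil =>
    intro x y h _
    have e : x = y := h
    exact ⟨0, fun _ => x, fun _ => d₀, rfl, e, fun i hi => absurd hi (Nat.not_lt_zero i)⟩
  | cons d l ih =>
    intro x y h hl
    obtain ⟨m, q, δ, h0, h1, h2⟩ := ih h.2 fun x hx => hl x (List.mem_cons_of_mem _ hx)
    refine ⟨m + 1, fun i => match i with | 0 => x | i + 1 => q i,
      fun i => match i with | 0 => d | i + 1 => δ i, rfl, h1, ?_⟩
    intro i hi
    match i with
    | 0 => exact ⟨hl d List.mem_cons_self, h.1, h0.symm⟩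
    | i + 1 => exact h2 i (by omega)

theorem IsMin.exists_path {T : Tri D} {w : T.V → ℝ} {K : Finset D} (hw : ∀ v, 0 ≤ w v)
    (hK : T.IsMin w K) {e₁ e₂ : D} (h₁ : T.tl e₁ ∈ T.VK K) (h₂ : T.tl e₂ ∈ T.VK K)
    (h₁₂ : T.tl e₁ ≠ T.tl e₂) (hu : T.hd e₁ = T.hd e₂) (hu' : T.hd e₁ ∉ T.VK K)
    {ρ : D → ℝ} (hρ : T.IsCyc ρ) (hs : Supp ρ (K ∪ {e₁, T.a e₁, e₂, T.a e₂})) (hρ₁ : ρ e₁ = 1) :
    ∃ (m : ℕ) (q : ℕ → T.V) (δ : ℕ → D), q 0 = T.tl e₁ ∧ q m = T.tl e₂ ∧
      (∀ i < m, δ i ∈ K ∧ T.tl (δ i) = q i ∧ T.hd (δ i) = q (i + 1) ∧ ρ (δ i) ≠ 0) ∧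
      ∀ i ≤ m, ∀ j ≤ m, q i = q j → i = j := by
  set S : Set T.V := {v | ∃ l, T.IsWalk (T.tl e₁) l v ∧ ∀ d ∈ l, d ∈ K ∧ ρ d ≠ 0} with hS
  have hSV : ∀ v ∈ S, v ∈ T.VK K := by
    rintro v ⟨l, hl, hlK⟩
    exact geoA_walk_VK hK.ac hl h₁ fun d hd => (hlK d hd).1
  have hx : T.tl e₁ ∈ S := ⟨[], rfl, by simp⟩
  have hstep : ∀ d ∈ K, ρ d ≠ 0 → T.tl d ∈ S → T.hd d ∈ S := by
    rintro d hdK hd ⟨l, hl, hlK⟩
    refine ⟨l ++ [d], walk_append T hl (walk_single T d), ?_⟩
    intro e he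
    rcases List.mem_append.1 he with h | h
    · exact hlK e h
    · rw [List.mem_singleton] at h
      rw [h]
      exact ⟨hdK, hd⟩
  have hy : T.tl e₂ ∈ S := by
    by_contra hy
    have h3 := T.flow_out hρ S
    rw [Finset.sum_eq_single e₁] at h3
    · rw [hρ₁] at h3
      exact one_ne_zero h3
    · intro d hd hde
      obtain ⟨_, h4, h5⟩ := Finset.mem_filter.1 hd
      by_contra h6
      by_cases hdK : d ∈ K
      · exact h5 (hstep d hdK h6 h4)
      · have h7 : d ∈ K ∪ {e₁, T.a e₁, e₂, T.a e₂} := by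
          by_contra h8
          exact h6 (hs d h8)
        rcases Finset.mem_union.1 h7 with h8 | h8
        · exact hdK h8
        · simp only [Finset.mem_insert, Finset.mem_singleton] at h8
          rcases h8 with h8 | h8 | h8 | h8
          · exact hde h8
          · rw [h8] at h4
            exact hu' (hSV _ h4)
          · rw [h8] at h4
            exact hy h4
          · rw [h8] at h4
            have h9 : T.hd e₂ ∈ T.VK K := hSV _ h4
            rw [← hu] at h9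
            exact hu' h9
    · intro h4
      exfalso
      apply h4
      exact Finset.mem_filter.2 ⟨Finset.mem_univ _, hx, fun h5 => hu' (hSV _ h5)⟩
  obtain ⟨l, hl, hlK⟩ := hy
  let P : D → Prop := fun d => d ∈ K ∧ ρ d ≠ 0
  have hex : ∃ m, ∃ q δ, GPath T P (T.tl e₁) (T.tl e₂) m q δ := geoA_path_of_walk e₁ hl hlK
  obtain ⟨q, δ, h0, h1, h2⟩ := Nat.find_spec hex
  have hmin := fun n (hn : n < Nat.find hex) => Nat.find_min hex hn
  set m := Nat.find hex with hm
  refine ⟨m, q, δ, h0, h1, fun i hi => ⟨(h2 i hi).1.1, (h2 i hi).2.1, (h2 i hi).2.2, (h2 i hi).1.2⟩, ?_⟩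
  have key : ∀ i j, i < j → j ≤ m → q i ≠ q j := by
    intro i j hij hjm hq
    apply hmin (m - (j - i)) (by omega)
    refine ⟨fun k => if k ≤ i then q k else q (k + (j - i)),
      fun k => if k < i then δ k else δ (k + (j - i)), ?_, ?_, ?_⟩
    · simp [h0]
    · show (if m - (j - i) ≤ i then q (m - (j - i)) else q (m - (j - i) + (j - i))) = T.tl e₂
      by_cases h3 : m - (j - i) ≤ i
      · have h4 : m - (j - i) = i := by omega
        have h5 : j = m := by omega
        rw [if_pos h3, h4, hq, h5, h1]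
      · rw [if_neg h3]
        have h4 : m - (j - i) + (j - i) = m := by omega
        rw [h4, h1]
    · intro k hk
      show P (if k < i then δ k else δ (k + (j - i))) ∧
        T.tl (if k < i then δ k else δ (k + (j - i))) = (if k ≤ i then q k else q (k + (j - i))) ∧
        T.hd (if k < i then δ k else δ (k + (j - i))) =
          (if k + 1 ≤ i then q (k + 1) else q (k + 1 + (j - i)))
      by_cases h3 : k < i
      · rw [if_pos h3, if_pos h3.le, if_pos (by omega : k + 1 ≤ i)]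
        exact h2 k (by omega)
      · rw [if_neg h3, if_neg (by omega : ¬ k + 1 ≤ i)]
        obtain ⟨h4, h5, h6⟩ := h2 (k + (j - i)) (by omega)
        refine ⟨h4, ?_, ?_⟩
        · rw [h5]
          by_cases h7 : k ≤ i
          · have h8 : k = i := by omega
            rw [if_pos h7, h8, hq]
            congr 1
            omega
          · rw [if_neg h7]
        · rw [h6]
          congr 1
          omega
  intro i hi j hj hq
  rcases lt_trichotomy i j with h3 | h3 | h3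
  · exact absurd hq (key i j h3 hj)
  · exact h3
  · exact absurd hq.symm (key j i h3 hi)

end Tri
end SST
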