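import Pool.Agent.SST.D.DDefs
import Pool.Agent.SST.Walk

/-!
# SST-D-Heis: holonomy in the Heisenberg group is invariant under homotopy  (paper proof, (5.8))
`hm` is the multiplication of the real Heisenberg group on `ℝ × ℝ × ℝ`, `hol x y t l` the product of
the labels `(x d, y d, t d)` along the list `l`.
* `hm` is associative with unit `0`: `Prod.ext`, `ring`.
* `hol_append`: induction.
* `hol_step`: `hol [d, a d] = 0` by antisymmetry (`x d * y (a d) - x (a d) * y d = 0`);
  `hol [d, f d, f (f d)] = 0`: first components by the face sums; third: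
  `t₀ + t₁ + t₂ + (x₀ y₁ - x₁ y₀) + ((x₀ + x₁) y₂ - x₂ (y₀ + y₁))`, the last bracket is 0 as
  `x₂ = -(x₀ + x₁)`, `y₂ = -(y₀ + y₁)`.
* `hol_htp`: `Relation.EqvGen` induction.
* `hol_zero`: if `x = y = 0` on the darts of `l` then `hol = (0, 0, ∑ t)`.
-/

namespace SST
namespace Tri

variable {D : Type}

/-- Multiplication of the Heisenberg group. -/
def hm (p q : ℝ × ℝ × ℝ) : ℝ × ℝ × ℝ :=
  (p.1 + q.1, p.2.1 + q.2.1, p.2.2 + q.2.2 + (p.1 * q.2.1 - q.1 * p.2.1))

/-- Holonomy along a list of darts. -/
def hol (x y t : D → ℝ) (l : List D) : ℝ × ℝ × ℝ :=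
  l.foldr (fun d acc => hm (x d, y d, t d) acc) (0, 0, 0)

theorem hm_assoc (p q r : ℝ × ℝ × ℝ) : hm (hm p q) r = hm p (hm q r) := by
  unfold hm
  refine Prod.ext ?_ (Prod.ext ?_ ?_)
  · show p.1 + q.1 + r.1 = p.1 + (q.1 + r.1)
    ring
  · show p.2.1 + q.2.1 + r.2.1 = p.2.1 + (q.2.1 + r.2.1)
    ring
  · show p.2.2 + q.2.2 + (p.1 * q.2.1 - q.1 * p.2.1) + r.2.2 +
      ((p.1 + q.1) * r.2.1 - r.1 * (p.2.1 + q.2.1)) =
      p.2.2 + (q.2.2 + r.2.2 + (q.1 * r.2.1 - r.1 * q.2.1)) +
      (p.1 * (q.2.1 + r.2.1) - (q.1 + r.1) * p.2.1)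
    ring

private theorem heis_zero_hm (q : ℝ × ℝ × ℝ) : hm (0, 0, 0) q = q := by
  unfold hm
  refine Prod.ext ?_ (Prod.ext ?_ ?_)
  · show 0 + q.1 = q.1
    ring
  · show 0 + q.2.1 = q.2.1
    ring
  · show 0 + q.2.2 + (0 * q.2.1 - q.1 * 0) = q.2.2
    ring

private theorem heis_hm_zero (q : ℝ × ℝ × ℝ) : hm q (0, 0, 0) = q := by
  unfold hm
  refine Prod.ext ?_ (Prod.ext ?_ ?_)
  · show q.1 + 0 = q.1
    ring
  · show q.2.1 + 0 = q.2.1
    ring
  · show q.2.2 + 0 + (q.1 * 0 - 0 * q.2.1) = q.2.2
    ring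

theorem hol_append (x y t : D → ℝ) (l l' : List D) :
    hol x y t (l ++ l') = hm (hol x y t l) (hol x y t l') := by
  induction l with
  | nil =>
    show hol x y t l' = hm (0, 0, 0) (hol x y t l')
    rw [heis_zero_hm]
  | cons d l ih =>
    have h1 : hol x y t (d :: l ++ l') = hm (x d, y d, t d) (hol x y t (l ++ l')) := rfl
    have h2 : hol x y t (d :: l) = hm (x d, y d, t d) (hol x y t l) := rfl
    rw [h1, h2, ih, hm_assoc]

theorem hol_htp (T : Tri D) {x y t : D → ℝ} (hx : ∀ d, x (T.a d) = - x d)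
    (hy : ∀ d, y (T.a d) = - y d) (ht : ∀ d, t (T.a d) = - t d)
    (hx' : ∀ d, x d + x (T.f d) + x (T.f (T.f d)) = 0)
    (hy' : ∀ d, y d + y (T.f d) + y (T.f (T.f d)) = 0)
    (ht' : ∀ d, t d + t (T.f d) + t (T.f (T.f d)) + (x d * y (T.f d) - x (T.f d) * y d) = 0)
    {c : List D} (hc : T.NullHtp c) : hol x y t c = (0, 0, 0) := by
  have key : ∀ p q : List D, Relation.EqvGen (fun u v => T.Closed u ∧ T.Closed v ∧ T.Step u v) p q →
      hol x y t p = hol x y t q := by
    intro p q h
    induction h with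
    | rel p q h =>
      obtain ⟨_, _, h⟩ := h
      cases h with
      | spur u v d =>
        have h0 : hol x y t [d, T.a d] = (0, 0, 0) := by
          show hm (x d, y d, t d) (hm (x (T.a d), y (T.a d), t (T.a d)) (0, 0, 0)) = (0, 0, 0)
          rw [heis_hm_zero, hx, hy, ht]
          unfold hm
          refine Prod.ext ?_ (Prod.ext ?_ ?_)
          · show x d + - x d = 0
            ring
          · show y d + - y d = 0
            ring
          · show t d + - t d + (x d * - y d - - x d * y d) = 0
            ring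
        rw [hol_append, hol_append, hol_append, h0, heis_hm_zero]
      | face u v d =>
        have h0 : hol x y t [d, T.f d, T.f (T.f d)] = (0, 0, 0) := by
          show hm (x d, y d, t d) (hm (x (T.f d), y (T.f d), t (T.f d))
            (hm (x (T.f (T.f d)), y (T.f (T.f d)), t (T.f (T.f d))) (0, 0, 0))) = (0, 0, 0)
          rw [heis_hm_zero]
          have a1 := hx' d
          have a2 := hy' d
          have a3 := ht' d
          generalize x d = x0 at *
          generalize y d = y0 at *
          generalize t d = t0 at *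
          generalize x (T.f d) = x1 at *
          generalize y (T.f d) = y1 at *
          generalize t (T.f d) = t1 at *
          generalize x (T.f (T.f d)) = x2 at *
          generalize y (T.f (T.f d)) = y2 at *
          generalize t (T.f (T.f d)) = t2 at *
          have b1 : x2 = - (x0 + x1) := by linarith
          have b2 : y2 = - (y0 + y1) := by linarith
          have b3 : t2 = - (t0 + t1 + (x0 * y1 - x1 * y0)) := by linarith
          subst b1
          subst b2
          subst b3
          unfold hm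
          refine Prod.ext ?_ (Prod.ext ?_ ?_)
          · show x0 + (x1 + -(x0 + x1)) = 0
            ring
          · show y0 + (y1 + -(y0 + y1)) = 0
            ring
          · show t0 + (t1 + -(t0 + t1 + (x0 * y1 - x1 * y0)) +
              (x1 * -(y0 + y1) - -(x0 + x1) * y1)) +
              (x0 * (y1 + -(y0 + y1)) - (x1 + -(x0 + x1)) * y0) = 0
            ring
        rw [hol_append, hol_append, hol_append, h0, heis_hm_zero]
    | refl p => rfl
    | symm p q _ ih => exact ih.symm
    | trans p q r _ _ ih1 ih2 => exact ih1.trans ih2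
  exact key c [] hc

theorem hol_zero {x y t : D → ℝ} {l : List D} (hx : ∀ d ∈ l, x d = 0) (hy : ∀ d ∈ l, y d = 0) :
    hol x y t l = (0, 0, (l.map t).sum) := by
  induction l with
  | nil => rfl
  | cons d l ih =>
    have h1 : hol x y t (d :: l) = hm (x d, y d, t d) (hol x y t l) := rfl
    rw [h1, ih (fun e he => hx e (List.mem_cons_of_mem _ he))
      (fun e he => hy e (List.mem_cons_of_mem _ he)), hx d (by simp), hy d (by simp)]
    unfold hm
    refine Prod.ext ?_ (Prod.ext ?_ ?_)
    · show (0 : ℝ) + 0 = 0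
      ring
    · show (0 : ℝ) + 0 = 0
      ring
    · show t d + (l.map t).sum + (0 * 0 - 0 * 0) = ((d :: l).map t).sum
      rw [List.map_cons, List.sum_cons]
      ring

end Tri
end SST
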