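import Pool.Agent.SST.D.Form
import Pool.Agent.SST.D.Chain

/-!
# SST-D-K0: a small subgraph carrying the form  (paper proof, section 3)
For `d ∉ R` let `C d := P (tl d) ++ [d] ++ ((P (hd d)).map a).reverse`: a closed walk (based at
`c (tl d) = c (hd d)`), avoiding `R` (`R` is closed under `a`), of length at most `2ρ + 1`.
* `decomp`: if `z` is a cycle vanishing on `R` then `z e = (1/2) ∑_{d ∉ R} z d * chain (C d) e`:
  `chain (C d) = chain P(tl d) + chain [d] - chain P(hd d)`; the middle term gives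
  `(1/2) ∑ z d (ind d e - ind d (a e)) = (1/2)(z e - z (a e)) = z e`; the others give
  `(1/2) ∑_d z d (q(tl d) - q(hd d))` with `q v = chain (P v) e`, and `∑_d z d * q (tl d) = 0`
  (vertex by vertex), `∑_d z d * q (hd d) = - ∑_d z d * q (tl d)` (substitute `d ↦ a d`).
  (Sums over `d ∉ R` are sums over all `d` as `z = 0` on `R`.)
* `BB` is bilinear: `BB z z' ≠ 0` gives `d ∉ R` with `BB (chain (C d)) z' ≠ 0`, and then `d' ∉ R` with
  `BB (chain (C d)) (chain (C d')) ≠ 0`.
* `K` := darts of `C d`, `C d'` and their reverses.  `chain` is supported there (`chain_of_not_mem`).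
  The vertices of `K`: the tails of the darts of the two closed walks (the head of a dart of a closed
  walk is the tail of another one): at most `2 (2ρ + 1)`.
-/

namespace SST
namespace Tri

open Classical

variable {D : Type} [Fintype D]

private lemma chain_C (T : Tri D) (P : T.V → List D) (d e : D) :
    (T.chain (P (T.tl d) ++ [d] ++ ((P (T.hd d)).map T.a).reverse) e : ℝ) =
      (T.chain (P (T.tl d)) e : ℝ) + ((ind d e : ℝ) - (ind d (T.a e) : ℝ)) -
        (T.chain (P (T.hd d)) e : ℝ) := by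
  rw [chain_append, chain_append, chain_rev, chain_cons, chain_nil]
  push_cast
  ring

private lemma sum_tl (T : Tri D) {z : D → ℝ} (hz : T.IsCyc z) (q : T.V → ℝ) :
    ∑ d, z d * q (T.tl d) = 0 := by
  rw [← Finset.sum_fiberwise_of_maps_to (s := Finset.univ) (t := Finset.univ.image T.tl)
    (g := T.tl) (fun d _ => Finset.mem_image_of_mem _ (Finset.mem_univ d))]
  refine Finset.sum_eq_zero fun v hv => ?_
  obtain ⟨d, -, rfl⟩ := Finset.mem_image.1 hv
  have h := hz.2 d
  have h2 : ∑ x ∈ Finset.univ.filter (fun x => T.tl x = T.tl d), z x * q (T.tl x) =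
      (∑ x ∈ Finset.univ.filter (fun x => T.tl x = T.tl d), z x) * q (T.tl d) := by
    rw [Finset.sum_mul]
    refine Finset.sum_congr rfl fun x hx => ?_
    rw [(Finset.mem_filter.1 hx).2]
  rw [h2, h, zero_mul]

private lemma sum_hd (T : Tri D) {z : D → ℝ} (hz : T.IsCyc z) (q : T.V → ℝ) :
    ∑ d, z d * q (T.hd d) = 0 := by
  rw [← Equiv.sum_comp T.a]
  have h : ∀ d, z (T.a d) * q (T.hd (T.a d)) = -(z d * q (T.tl d)) := by
    intro d
    rw [hz.1, hd_a]
    ring
  simp only [h]
  rw [Finset.sum_neg_distrib, sum_tl T hz q, neg_zero]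

private lemma sum_ind' (z : D → ℝ) (e : D) : ∑ d, z d * (ind d e : ℝ) = z e := by
  rw [Finset.sum_eq_single e]
  · rw [ind_self]
    simp
  · intro d _ hd
    rw [ind_ne hd]
    simp
  · intro h
    exact absurd (Finset.mem_univ _) h

theorem decomp (T : Tri D) (R : Finset D) (hR : T.AC R) {z : D → ℝ} (hz : T.IsCyc z)
    (hzR : ∀ d ∈ R, z d = 0) (P : T.V → List D) (e : D) :
    z e = (1 / 2) * ∑ d, z d *
      (T.chain (P (T.tl d) ++ [d] ++ ((P (T.hd d)).map T.a).reverse) e : ℝ) := by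
  have h : ∀ d, z d * (T.chain (P (T.tl d) ++ [d] ++ ((P (T.hd d)).map T.a).reverse) e : ℝ) =
      z d * (T.chain (P (T.tl d)) e : ℝ) + (z d * (ind d e : ℝ) - z d * (ind d (T.a e) : ℝ)) -
        z d * (T.chain (P (T.hd d)) e : ℝ) := by
    intro d
    rw [chain_C]
    ring
  simp only [h]
  rw [Finset.sum_sub_distrib, Finset.sum_add_distrib, Finset.sum_sub_distrib,
    sum_tl T hz (fun v => (T.chain (P v) e : ℝ)), sum_hd T hz (fun v => (T.chain (P v) e : ℝ)),
    sum_ind', sum_ind', hz.1]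
  ring

private lemma closed_next (T : Tri D) {c : List D} (hc : T.Closed c) {e : D} (he : e ∈ c) :
    ∃ x ∈ c, T.tl x = T.hd e := by
  obtain ⟨l1, l2, rfl⟩ := List.append_of_mem he
  have h1 := closed_rotate T hc
  rw [List.cons_append, closed_iff] at h1
  have h2 : T.IsWalk (T.hd e) (l2 ++ l1) (T.tl e) := h1.2
  rcases hl : l2 ++ l1 with _ | ⟨x, l⟩
  · rw [hl] at h2
    have h3 : T.hd e = T.tl e := h2
    exact ⟨e, he, h3.symm⟩
  · rw [hl] at h2
    have h3 : T.tl x = T.hd e := h2.1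
    refine ⟨x, ?_, h3⟩
    have h4 : x ∈ l2 ++ l1 := by
      rw [hl]
      exact List.mem_cons_self
    rw [List.mem_append] at h4
    rw [List.mem_append, List.mem_cons]
    tauto

/-- The vertices of the darts of a closed walk and their reverses. -/
theorem card_VK_closed (T : Tri D) {c : List D} (hc : T.Closed c) (K : Finset D)
    (hK : ∀ d ∈ K, d ∈ c ∨ T.a d ∈ c) : (T.VK K).card ≤ c.length := by
  have hsub : T.VK K ⊆ (c.map T.tl).toFinset := by
    intro v hv
    obtain ⟨d, hd, rfl⟩ := Finset.mem_image.1 hv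
    rw [List.mem_toFinset, List.mem_map]
    rcases hK d hd with h | h
    · exact ⟨d, h, rfl⟩
    · obtain ⟨x, hx, hxe⟩ := closed_next T hc h
      exact ⟨x, hx, by rw [hxe, hd_a]⟩
  refine (Finset.card_le_card hsub).trans ((List.toFinset_card_le _).trans ?_)
  rw [List.length_map]

private lemma BB_sum_left (T : Tri D) {z : D → ℝ} (u : D → D → ℝ)
    (hz : z = (1 / 2 : ℝ) • ∑ d, z d • u d) (x : D → ℝ) (h : T.BB z x ≠ 0) :
    ∃ d, z d ≠ 0 ∧ T.BB (u d) x ≠ 0 := by
  by_contra hcon
  push Not at hcon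
  apply h
  rw [hz, map_smul, map_sum, LinearMap.smul_apply, LinearMap.sum_apply]
  have h0 : ∑ d, (T.BB (z d • u d)) x = 0 := by
    refine Finset.sum_eq_zero fun d _ => ?_
    rw [map_smul, LinearMap.smul_apply]
    by_cases hd : z d = 0
    · rw [hd, zero_smul]
    · rw [hcon d hd, smul_zero]
  rw [h0, smul_zero]

private lemma BB_sum_right (T : Tri D) {z : D → ℝ} (u : D → D → ℝ)
    (hz : z = (1 / 2 : ℝ) • ∑ d, z d • u d) (x : D → ℝ) (h : T.BB x z ≠ 0) :
    ∃ d, z d ≠ 0 ∧ T.BB x (u d) ≠ 0 := by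
  by_contra hcon
  push Not at hcon
  apply h
  rw [hz, map_smul, map_sum]
  have h0 : ∑ d, (T.BB x) (z d • u d) = 0 := by
    refine Finset.sum_eq_zero fun d _ => ?_
    rw [map_smul]
    by_cases hd : z d = 0
    · rw [hd, zero_smul]
    · rw [hcon d hd, smul_zero]
  rw [h0, smul_zero]

theorem exists_K0 (T : Tri D) (R : Finset D) (hR : T.AC R) {z z' : D → ℝ} (hz : T.IsCyc z)
    (hz' : T.IsCyc z') (hzR : ∀ d ∈ R, z d = 0) (hzR' : ∀ d ∈ R, z' d = 0) (hB : T.BB z z' ≠ 0)
    (ρ : ℕ) (c : T.V → T.V) (P : T.V → List D) (hP : ∀ v, T.IsWalk (c v) (P v) v)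
    (hPR : ∀ v, ∀ d ∈ P v, d ∉ R) (hlen : ∀ v, (P v).length ≤ ρ)
    (hc : ∀ d, d ∉ R → c (T.tl d) = c (T.hd d)) :
    ∃ K : Finset D, T.AC K ∧ (∀ d ∈ K, d ∉ R) ∧ T.Good K ∧ (T.VK K).card ≤ 4 * ρ + 4 := by
  set C : D → List D := fun d => P (T.tl d) ++ [d] ++ ((P (T.hd d)).map T.a).reverse with hC
  set u : D → D → ℝ := fun d e => (T.chain (C d) e : ℝ) with hu
  have hdec : ∀ {w : D → ℝ}, T.IsCyc w → (∀ d ∈ R, w d = 0) → w = (1 / 2 : ℝ) • ∑ d, w d • u d := by
    intro w hw hwR
    funext e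
    have h := decomp T R hR hw hwR P e
    rw [Pi.smul_apply, Finset.sum_apply, smul_eq_mul]
    simp only [Pi.smul_apply, smul_eq_mul]
    exact h
  obtain ⟨d, hd0, hd⟩ := BB_sum_left T u (hdec hz hzR) z' hB
  obtain ⟨d', hd0', hd'⟩ := BB_sum_right T u (hdec hz' hzR') (u d) hd
  have hdR : d ∉ R := fun h => hd0 (hzR d h)
  have hdR' : d' ∉ R := fun h => hd0' (hzR' d' h)
  have haR : ∀ x, x ∉ R → T.a x ∉ R := by
    intro x hx h
    apply hx
    have := hR _ h
    rwa [T.aa] at this
  have hclosed : ∀ x, x ∉ R → T.Closed (C x) := by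
    intro x hx
    refine ⟨c (T.tl x), ?_⟩
    refine walk_append T (walk_append T (hP (T.tl x)) (walk_single T x)) ?_
    have h := walk_rev T (hP (T.hd x))
    rwa [← hc x hx] at h
  have hCR : ∀ x, x ∉ R → ∀ e ∈ C x, e ∉ R := by
    intro x hx e he
    simp only [hC, List.mem_append, List.mem_singleton, List.mem_reverse, List.mem_map] at he
    rcases he with (he | he) | he
    · exact hPR _ e he
    · rw [he]
      exact hx
    · obtain ⟨y, hy, rfl⟩ := he
      exact haR y (hPR _ y hy)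
  have hClen : ∀ x, (C x).length ≤ 2 * ρ + 1 := by
    intro x
    simp only [hC, List.length_append, List.length_reverse, List.length_map, List.length_singleton]
    have h1 := hlen (T.tl x)
    have h2 := hlen (T.hd x)
    omega
  set K1 : Finset D := Finset.univ.filter (fun e => e ∈ C d ∨ T.a e ∈ C d) with hK1
  set K2 : Finset D := Finset.univ.filter (fun e => e ∈ C d' ∨ T.a e ∈ C d') with hK2
  have hm1 : ∀ e, e ∈ K1 ↔ e ∈ C d ∨ T.a e ∈ C d := fun e => by simp [hK1]
  have hm2 : ∀ e, e ∈ K2 ↔ e ∈ C d' ∨ T.a e ∈ C d' := fun e => by simp [hK2]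
  refine ⟨K1 ∪ K2, ?_, ?_, ?_, ?_⟩
  · intro e he
    rw [Finset.mem_union, hm1, hm2] at he ⊢
    rw [T.aa]
    tauto
  · intro e he
    rw [Finset.mem_union, hm1, hm2] at he
    have hback : ∀ {y}, T.a y ∉ R → y ∉ R := by
      intro y hy h
      exact hy (hR y h)
    rcases he with (he | he) | (he | he)
    · exact hCR d hdR e he
    · exact hback (hCR d hdR _ he)
    · exact hCR d' hdR' e he
    · exact hback (hCR d' hdR' _ he)
  · refine ⟨u d, u d', cyc_chain T (hclosed d hdR), cyc_chain T (hclosed d' hdR'), ?_, ?_, hd'⟩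
    · intro e he
      rw [Finset.mem_union, hm1, hm2, not_or, not_or] at he
      simp only [hu]
      rw [chain_of_not_mem T he.1.1 he.1.2]
      simp
    · intro e he
      rw [Finset.mem_union, hm1, hm2, not_or, not_or] at he
      simp only [hu]
      rw [chain_of_not_mem T (not_or.1 he.2).1 (not_or.1 he.2).2]
      simp
  · have h1 : (T.VK K1).card ≤ (C d).length :=
      card_VK_closed T (hclosed d hdR) K1 fun e he => (hm1 e).1 he
    have h2 : (T.VK K2).card ≤ (C d').length :=
      card_VK_closed T (hclosed d' hdR') K2 fun e he => (hm2 e).1 he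
    have h3 : (T.VK (K1 ∪ K2)).card ≤ (T.VK K1).card + (T.VK K2).card := by
      unfold VK
      rw [Finset.image_union]
      exact Finset.card_union_le _ _
    have h4 := hClen d
    have h5 := hClen d'
    omega

end Tri
end SST
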