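import Pool.Agent.SST.D.Om

/-!
# SST-D-Lift: potentials  (paper proof, (2.2))
* `orbit_potential`: for a permutation `σ` of a finite type and `z` whose sum over every cycle is 0
  there is `h` with `h (σ d) - h d = z d`, and `h = 0` on every cycle on which `z = 0`.
  Proof: for every cycle choose a representative `r d` (`Quotient.out` of the SameCycle setoid); let
  `k d` be the least `k` with `(σ ^ k) (r d) = d` (exists: `Equiv.Perm.SameCycle.exists_pow_eq'` or
  `Equiv.Perm.SameCycle.exists_nat_pow_eq`...), `h d := ∑ i < k d, z ((σ ^ i) (r d))`.  If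
  `k (σ d) = k d + 1` clear; otherwise `k (σ d) = 0` and the sum over `i < k d + 1` is the sum over
  the whole cycle (`i ↦ (σ ^ i) (r d)`, `i ≤ k d`, is a bijection onto the cycle), which is 0.
  (Alternative: linear algebra, the range of `h ↦ h ∘ σ - h` is the orthogonal complement of the
  `σ`-invariant functions; then subtract a `σ`-invariant function to get `h = 0` where `z = 0`.)
* `lift`: apply it to `σ = T.s` (`T.tl e = T.tl d ↔ SameCycle`).  `InH`:
  `h (f d) = h (s (a d)) = h (a d) + z (a d) = h (a d) - z d`, `h (s d) = h d + z d`.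
* `liftx`: apply it to `σ = T.f` (cycles `{d, f d, f (f d)}`), `x_h = x`:
  `h (f d) = h d + x d`, `h (s d) = h (f (a d)) = h (a d) + x (a d) = h (a d) - x d`.
-/

namespace SST
namespace Tri

open Classical

variable {D : Type} [Fintype D]

private lemma sum_orbit_pow (σ : Equiv.Perm D) (z : D → ℝ) {N : ℕ} (hN : σ ^ N = 1)
    (hz : ∀ d, ∑ e with σ.SameCycle d e, z e = 0) (d : D) :
    ∑ k ∈ Finset.range N, z ((σ ^ k) d) = 0 := by
  set A : D → ℝ := fun d => ∑ k ∈ Finset.range N, z ((σ ^ k) d) with hA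
  have h1 : ∀ d, A (σ d) = A d := by
    intro d
    have h2 := Finset.sum_range_succ (fun k => z ((σ ^ k) d)) N
    have h3 := Finset.sum_range_succ' (fun k => z ((σ ^ k) d)) N
    have h4 : ∀ k, (σ ^ (k + 1)) d = (σ ^ k) (σ d) := fun k => by
      rw [pow_succ, Equiv.Perm.mul_apply]
    simp only [h4, hN, pow_zero] at h2 h3
    show ∑ k ∈ Finset.range N, z ((σ ^ k) (σ d)) = ∑ k ∈ Finset.range N, z ((σ ^ k) d)
    linarith
  have h2 : ∀ (k : ℕ) d, A ((σ ^ k) d) = A d := by
    intro k
    induction k with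
    | zero => intro d; rfl
    | succ k ih =>
      intro d
      rw [pow_succ, Equiv.Perm.mul_apply, ih, h1]
  have h3 : ∀ e, σ.SameCycle d e → A e = A d := by
    intro e he
    obtain ⟨k, -, hk⟩ := he.exists_pow_eq'
    rw [← hk, h2]
  have h4 : ∀ k : ℕ, ∑ e with σ.SameCycle d e, z ((σ ^ k) e) = 0 := by
    intro k
    rw [← hz d]
    refine Finset.sum_equiv (σ ^ k) ?_ (fun _ _ => rfl)
    intro e
    simp only [Finset.mem_filter, Finset.mem_univ, true_and]
    exact Equiv.Perm.sameCycle_pow_right.symm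
  have h5 : ∑ e with σ.SameCycle d e, A e = 0 := by
    rw [hA, Finset.sum_comm]
    exact Finset.sum_eq_zero fun k _ => h4 k
  have h6 : ∑ e with σ.SameCycle d e, A e = ∑ e with σ.SameCycle d e, A d :=
    Finset.sum_congr rfl fun e he => h3 e (Finset.mem_filter.1 he).2
  rw [h6, Finset.sum_const, nsmul_eq_mul] at h5
  rcases mul_eq_zero.1 h5 with h7 | h7
  · exfalso
    have h8 : (Finset.univ.filter fun e => σ.SameCycle d e).card = 0 := by exact_mod_cast h7
    rw [Finset.card_eq_zero] at h8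
    have h9 : d ∈ (Finset.univ.filter fun e => σ.SameCycle d e) :=
      Finset.mem_filter.2 ⟨Finset.mem_univ _, Equiv.Perm.SameCycle.refl _ _⟩
    rw [h8] at h9
    exact absurd h9 (Finset.notMem_empty _)
  · exact h7

theorem orbit_potential (σ : Equiv.Perm D) (z : D → ℝ)
    (hz : ∀ d, ∑ e with σ.SameCycle d e, z e = 0) :
    ∃ h : D → ℝ, (∀ d, h (σ d) - h d = z d) ∧
      ∀ d, (∀ e, σ.SameCycle d e → z e = 0) → h d = 0 := by
  set N := orderOf σ with hN
  have hN0 : 0 < N := orderOf_pos σ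
  have hN1 : σ ^ N = 1 := pow_orderOf_eq_one σ
  refine ⟨fun d => -(∑ k ∈ Finset.range N, ∑ i ∈ Finset.range k, z ((σ ^ i) d)) / N, ?_, ?_⟩
  · intro d
    have hk : ∀ k : ℕ, ∑ i ∈ Finset.range k, z ((σ ^ i) (σ d)) =
        ∑ i ∈ Finset.range k, z ((σ ^ i) d) + z ((σ ^ k) d) - z d := by
      intro k
      have h2 := Finset.sum_range_succ (fun i => z ((σ ^ i) d)) k
      have h3 := Finset.sum_range_succ' (fun i => z ((σ ^ i) d)) k
      have h4 : ∀ i, (σ ^ (i + 1)) d = (σ ^ i) (σ d) := fun i => by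
        rw [pow_succ, Equiv.Perm.mul_apply]
      simp only [h4, pow_zero, Equiv.Perm.one_apply] at h2 h3
      linarith
    have hs := sum_orbit_pow σ z hN1 hz d
    have hNR : (N : ℝ) ≠ 0 := by exact_mod_cast hN0.ne'
    simp only [hk]
    rw [Finset.sum_sub_distrib, Finset.sum_add_distrib, hs, Finset.sum_const, Finset.card_range,
      nsmul_eq_mul]
    field_simp
    ring
  · intro d hd
    have h0 : ∑ k ∈ Finset.range N, ∑ i ∈ Finset.range k, z ((σ ^ i) d) = 0 :=
      Finset.sum_eq_zero fun k _ => Finset.sum_eq_zero fun i _ =>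
        hd _ (Equiv.Perm.sameCycle_pow_right.2 (Equiv.Perm.SameCycle.refl _ _))
    simp only [h0, neg_zero, zero_div]

omit [Fintype D] in
private lemma tl_iff (T : Tri D) (d e : D) : T.tl e = T.tl d ↔ T.s.SameCycle d e := by
  constructor
  · intro h
    have h1 : T.s.SameCycle e d := Quotient.exact h
    exact h1.symm
  · intro h
    exact Quotient.sound (s := Equiv.Perm.SameCycle.setoid T.s) h.symm

theorem lift (T : Tri D) {z : D → ℝ} (hz : T.IsCyc z) :
    ∃ h : D → ℝ, T.InH h ∧ T.zz h = z ∧ ∀ d, (∀ e, T.tl e = T.tl d → z e = 0) → h d = 0 := by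
  obtain ⟨h, h1, h2⟩ := orbit_potential T.s z (fun d => by
    rw [← hz.2 d]
    apply Finset.sum_congr _ fun _ _ => rfl
    ext e
    simp only [Finset.mem_filter, Finset.mem_univ, true_and]
    exact (tl_iff T d e).symm)
  refine ⟨h, ?_, funext h1, ?_⟩
  · intro d
    have h3 := h1 d
    have h4 := h1 (T.a d)
    rw [s_a, hz.1 d] at h4
    linarith
  · intro d hd
    exact h2 d fun e he => hd e ((tl_iff T d e).2 he)

theorem liftx (T : Tri D) {x : D → ℝ} (hx : T.IsCoc x) :
    ∃ h : D → ℝ, T.InH h ∧ T.xx h = x := by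
  set h : D → ℝ := fun d => -(2 * x d + x (T.f d)) / 3 with hh
  have h1 : ∀ d, h (T.f d) = h d + x d := by
    intro d
    have h2 := hx.2 d
    show -(2 * x (T.f d) + x (T.f (T.f d))) / 3 = -(2 * x d + x (T.f d)) / 3 + x d
    linarith
  refine ⟨h, ?_, ?_⟩
  · intro d
    have h3 := h1 d
    have h4 := h1 (T.a d)
    have h5 := hx.1 d
    have h6 : T.s d = T.f (T.a d) := rfl
    rw [h6, h3, h4, h5]
    ring
  · funext d
    show h (T.f d) - h d = x d
    rw [h1]
    ring

end Tri
end SST
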