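import Pool.Agent.SST.D.Form
import Pool.Agent.SST.D.Chain

/-!
# SST-D-Min: the minimal subgraph K  (paper proof, (4.1), (4.2))
* `exists_min`: the set of `K` with `AC`, `Good` is finite and non-empty; minimise `W` first
  (`Finset.exists_min_image` on `Finset.univ.filter`), then `card` among the minimisers.
* `not_good_erase`: `K.erase e` without `a e` too is `AC`, has smaller card and
  `W (K \ {e, a e}) ≤ W K` (`VK` is monotone, `0 ≤ w`): so if it were `Good`, `W` would be equal and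
  `mincard` is contradicted.  In the form: two cycles supported in `K` vanishing at `e` (hence at
  `a e`) are orthogonal.
* `cover`: otherwise every cycle supported in `K` vanishes at `e`, and `Good K` contradicts
  `not_good_erase`.  Scale to get `z e = 1`.
* `nondeg`: if `ρ ≠ 0` is a cycle supported in `K` orthogonal to all cycles supported in `K`, choose
  `e` with `ρ e ≠ 0` (`e ∈ K`).  For `z, z'` as in `Good K`: `z - (z e / ρ e) ρ`,
  `z' - (z' e / ρ e) ρ` vanish at `e`, so they are orthogonal; expand: `BB z z' = 0`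
  (`BB ρ z' = 0`, `BB z ρ = - BB ρ z = 0`, `BB ρ ρ = 0`), contradiction.
* `dim_le_two`: `CycK K` := submodule of the cycles supported in `K`.  Choose `e ∈ K` (`K` is not
  empty as it is `Good`), `z₁` with `z₁ e = 1`.  The linear functional `z ↦ BB z₁ z` is injective on
  `{z ∈ CycK K : z e = 0}`: if `BB z₁ z = 0` then `z` is orthogonal to everything:
  `z' = (z' - z' e • z₁) + z' e • z₁`.  So this subspace has dimension at most 1, and `CycK K`, in
  which it is the kernel of a functional, at most 2.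
-/

namespace SST
namespace Tri

open Classical

variable {D : Type} [Fintype D]

/-- `K` is good, of minimal weight, and of minimal cardinality among those. -/
structure IsMin (T : Tri D) (w : T.V → ℝ) (K : Finset D) : Prop where
  ac : T.AC K
  good : T.Good K
  min : ∀ K' : Finset D, T.AC K' → T.Good K' → T.W w K ≤ T.W w K'
  mincard : ∀ K' : Finset D, T.AC K' → T.Good K' → T.W w K' = T.W w K → K.card ≤ K'.card

theorem exists_min (T : Tri D) (w : T.V → ℝ) {K₀ : Finset D} (h₀ : T.AC K₀) (hg : T.Good K₀) :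
    ∃ K : Finset D, T.IsMin w K ∧ T.W w K ≤ T.W w K₀ := by
  obtain ⟨K₁, hK₁, hmin₁⟩ := Finset.exists_min_image
    (Finset.univ.filter fun K : Finset D => T.AC K ∧ T.Good K) (fun K => T.W w K)
    ⟨K₀, Finset.mem_filter.2 ⟨Finset.mem_univ _, h₀, hg⟩⟩
  obtain ⟨K, hK, hmin⟩ := Finset.exists_min_image
    (Finset.univ.filter fun K : Finset D => (T.AC K ∧ T.Good K) ∧ T.W w K = T.W w K₁)
    (fun K => K.card) ⟨K₁, Finset.mem_filter.2 ⟨Finset.mem_univ _, (Finset.mem_filter.1 hK₁).2, rfl⟩⟩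
  obtain ⟨-, ⟨hK1, hK2⟩, hK3⟩ := Finset.mem_filter.1 hK
  refine ⟨K, ⟨hK1, hK2, fun K' h1 h2 => ?_, fun K' h1 h2 h3 => ?_⟩, ?_⟩
  · rw [hK3]
    exact hmin₁ K' (Finset.mem_filter.2 ⟨Finset.mem_univ _, h1, h2⟩)
  · exact hmin K' (Finset.mem_filter.2 ⟨Finset.mem_univ _, ⟨h1, h2⟩, h3.trans hK3⟩)
  · rw [hK3]
    exact hmin₁ K₀ (Finset.mem_filter.2 ⟨Finset.mem_univ _, h₀, hg⟩)

theorem IsMin.nonempty {T : Tri D} {w : T.V → ℝ} {K : Finset D} (hK : T.IsMin w K) :
    K.Nonempty := by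
  rw [Finset.nonempty_iff_ne_empty]
  rintro rfl
  obtain ⟨z, z', -, -, hs, -, hne⟩ := hK.good
  apply hne
  have h0 : z = 0 := funext fun d => hs d (Finset.notMem_empty d)
  rw [h0, map_zero, LinearMap.zero_apply]

theorem IsMin.not_good_erase {T : Tri D} {w : T.V → ℝ} {K : Finset D} (hw : ∀ v, 0 ≤ w v)
    (hK : T.IsMin w K) {e : D} (he : e ∈ K) {z z' : D → ℝ} (hz : T.IsCyc z) (hz' : T.IsCyc z')
    (hs : Supp z K) (hs' : Supp z' K) (h : z e = 0) (h' : z' e = 0) : T.BB z z' = 0 := by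
  by_contra hne
  set K' : Finset D := (K.erase e).erase (T.a e) with hK'
  have hac : T.AC K' := by
    intro d hd
    rw [hK', Finset.mem_erase, Finset.mem_erase] at hd ⊢
    obtain ⟨h1, h2, h3⟩ := hd
    refine ⟨fun h4 => h2 (T.a.injective h4), fun h4 => h1 ?_, hK.ac d h3⟩
    rw [← h4, T.aa]
  have hsup : ∀ y : D → ℝ, T.IsCyc y → Supp y K → y e = 0 → Supp y K' := by
    intro y hy hys hye d hd
    by_cases h1 : d = T.a e
    · rw [h1, hy.1 e, hye, neg_zero]
    · by_cases h2 : d = e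
      · rw [h2, hye]
      · apply hys
        intro h3
        apply hd
        rw [hK', Finset.mem_erase, Finset.mem_erase]
        exact ⟨h1, h2, h3⟩
  have hgood : T.Good K' := ⟨z, z', hz, hz', hsup z hz hs h, hsup z' hz' hs' h', hne⟩
  have hsub : K' ⊆ K := (Finset.erase_subset _ _).trans (Finset.erase_subset _ _)
  have hW : T.W w K' ≤ T.W w K := by
    unfold W VK
    exact Finset.sum_le_sum_of_subset_of_nonneg (Finset.image_subset_image hsub)
      fun v _ _ => hw v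
  have hWe : T.W w K' = T.W w K := le_antisymm hW (hK.min K' hac hgood)
  have h1 := hK.mincard K' hac hgood hWe
  have h2 : K'.card < K.card := by
    apply Finset.card_lt_card
    refine (Finset.ssubset_iff_of_subset hsub).2 ⟨e, he, ?_⟩
    intro h3
    rw [hK', Finset.mem_erase, Finset.mem_erase] at h3
    exact h3.2.1 rfl
  omega

theorem IsMin.cover {T : Tri D} {w : T.V → ℝ} {K : Finset D} (hw : ∀ v, 0 ≤ w v)
    (hK : T.IsMin w K) {e : D} (he : e ∈ K) : ∃ z, T.IsCyc z ∧ Supp z K ∧ z e = 1 := by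
  by_contra hcon
  push Not at hcon
  have h0 : ∀ z, T.IsCyc z → Supp z K → z e = 0 := by
    intro z hz hs
    by_contra hne
    refine hcon ((z e)⁻¹ • z) (hz.smul _) (fun d hd => ?_) ?_
    · rw [Pi.smul_apply, hs d hd, smul_zero]
    · rw [Pi.smul_apply, smul_eq_mul, inv_mul_cancel₀ hne]
  obtain ⟨z, z', hz, hz', hs, hs', hne⟩ := hK.good
  exact hne (hK.not_good_erase hw he hz hz' hs hs' (h0 z hz hs) (h0 z' hz' hs'))

theorem IsMin.nondeg {T : Tri D} {w : T.V → ℝ} {K : Finset D} (hw : ∀ v, 0 ≤ w v)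
    (hK : T.IsMin w K) {ρ : D → ℝ} (hρ : T.IsCyc ρ) (hs : Supp ρ K)
    (h : ∀ z, T.IsCyc z → Supp z K → T.BB ρ z = 0) : ρ = 0 := by
  by_contra hne
  obtain ⟨e, he⟩ := Function.ne_iff.1 hne
  rw [Pi.zero_apply] at he
  have heK : e ∈ K := by
    by_contra h1
    exact he (hs e h1)
  obtain ⟨z, z', hz, hz', hzs, hzs', hzz⟩ := hK.good
  apply hzz
  have key : ∀ y : D → ℝ, T.IsCyc y → Supp y K →
      T.IsCyc (y - (y e / ρ e) • ρ) ∧ Supp (y - (y e / ρ e) • ρ) K ∧
        (y - (y e / ρ e) • ρ) e = 0 := by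
    intro y hy hys
    refine ⟨hy.sub (hρ.smul _), fun d hd => ?_, ?_⟩
    · rw [Pi.sub_apply, Pi.smul_apply, hys d hd, hs d hd, smul_zero, sub_zero]
    · rw [Pi.sub_apply, Pi.smul_apply, smul_eq_mul, div_mul_cancel₀ _ he, sub_self]
  obtain ⟨a1, a2, a3⟩ := key z hz hzs
  obtain ⟨b1, b2, b3⟩ := key z' hz' hzs'
  have h1 := hK.not_good_erase hw heK a1 b1 a2 b2 a3 b3
  have h2 : T.BB ρ z' = 0 := h z' hz' hzs'
  have h3 : T.BB z ρ = 0 := by rw [T.BB_swap hz hρ, h z hz hzs, neg_zero]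
  have h4 : T.BB ρ ρ = 0 := T.BB_self hρ
  simpa only [map_sub, map_smul, LinearMap.sub_apply, LinearMap.smul_apply, h2, h3, h4, smul_zero,
    sub_zero] using h1

/-- The cycles supported in `K`. -/
noncomputable def CycK (T : Tri D) (K : Finset D) : Submodule ℝ (D → ℝ) where
  carrier := {z | T.IsCyc z ∧ Supp z K}
  add_mem' := by
    intro x y hx hy
    exact ⟨hx.1.add hy.1, fun d hd => by simp [hx.2 d hd, hy.2 d hd]⟩
  zero_mem' := ⟨IsCyc.zero T, fun d _ => rfl⟩
  smul_mem' := by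
    intro c x hx
    exact ⟨hx.1.smul c, fun d hd => by simp [hx.2 d hd]⟩

theorem IsMin.dim_le_two {T : Tri D} {w : T.V → ℝ} {K : Finset D} (hw : ∀ v, 0 ≤ w v)
    (hK : T.IsMin w K) : Module.finrank ℝ (T.CycK K) ≤ 2 := by
  obtain ⟨e, he⟩ := hK.nonempty
  obtain ⟨z₁, hz₁, hs₁, h1⟩ := hK.cover hw he
  let Φ : (D → ℝ) →ₗ[ℝ] ℝ × ℝ := (LinearMap.proj e).prod (T.BB z₁)
  let Ψ : T.CycK K →ₗ[ℝ] ℝ × ℝ := Φ.comp (T.CycK K).subtype
  have hinj : Function.Injective Ψ := by
    rw [injective_iff_map_eq_zero]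
    rintro ⟨z, hz, hs⟩ hΨ
    have h2 : (z e, T.BB z₁ z) = ((0 : ℝ), (0 : ℝ)) := hΨ
    obtain ⟨h3, h4⟩ := Prod.mk.inj h2
    apply Subtype.ext
    change z = 0
    apply hK.nondeg hw hz hs
    intro z' hz' hs'
    have h5 : T.BB z (z' - (z' e) • z₁) = 0 := by
      apply hK.not_good_erase hw he hz (hz'.sub (hz₁.smul _)) hs ?_ h3 ?_
      · intro d hd
        rw [Pi.sub_apply, Pi.smul_apply, hs' d hd, hs₁ d hd, smul_zero, sub_zero]
      · rw [Pi.sub_apply, Pi.smul_apply, smul_eq_mul, h1, mul_one, sub_self]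
    rw [map_sub, map_smul, T.BB_swap hz hz₁, h4, neg_zero, smul_zero, sub_zero] at h5
    exact h5
  have h6 := LinearMap.finrank_le_finrank_of_injective hinj
  have h7 : Module.finrank ℝ (ℝ × ℝ) = 2 := by
    rw [Module.finrank_prod, Module.finrank_self]
  omega

end Tri
end SST
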