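import Pool.Agent.SST.D.Dual
import Pool.Agent.SST.D.Bd

/-!
# SST-D-Next: the boundary of M is traversed in the order of the contour of K  (paper proof, (5.5))
Setting (`structure Setup`): `K` with contour permutation `η`, transitive on the darts leaving
`U = VK K`; `geo`: two vertices of `K` with a common neighbour outside `K` are joined by a walk of
length at most 6 in `K`; `nul`: closed walks of length at most 8 meeting `U` are null-homologous.

`next`: let `d` be a boundary dart of `M`, `e` its successor, `c k := η^k (bb d)`, and let `m` be the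
least `m` with `c m = ab e` (exists: both darts leave `U`; `Unicell`).  Then no `c k` with
`1 ≤ k ≤ m` is `bb d'` for a boundary dart `d'`, and `c (m+1) = bb e`.
* `c (m+1) = η (ab e) = s (ab e) = bb e`, as `ab e ∉ K` (`hd (ab e) = tl e ∉ U`, but heads of darts of
  `K` are in `U`).
* Suppose `c k = bb d'`, `1 ≤ k ≤ m`, `k` least.  The `c j`, `0 ≤ j ≤ m` are pairwise distinct
  (minimality of `m`: if `c i = c j`, `i < j ≤ m`, then `c (m - (j - i)) = c m`).
  Dual walk `ζ`: `[d]` from `fc d` to `fc (a d) = fc (bb d) = fc (c 0)`.  Then for `j = 0, …, k-1`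
  (`eta_dwalk`, induction): from `fc (c j)` to `fc (c (j+1))`: if `c j ∉ K` cross `c j`:
  `fc (a (c j)) = fc (f (a (c j))) = fc (s (c j)) = fc (c (j+1))`; if `c j ∈ K` cross nothing:
  `c (j+1) = s (a (c j)) = f (c j)`.  Then from `fc (c k) = fc (bb d') = fc (a d')` cross `a d'` to
  `fc d'`, and from `fc d'` to `fc d` inside `M` (`IsM.conn`).
  Closed walk `w := [a (c 0)] ++ l ++ [c m]`: `hd d = hd (c 0) → tl (c 0)`, `l` the `K`-walk from
  `tl (c 0)` to `tl (ab e)` (`geo` with the darts `c 0 = bb d` and `c m = ab e`, both with head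
  `hd d = tl e ∉ U`), and `ab e : → tl e = hd d`; its length is at most 8, it meets `U`: `NullHom w`.
  Apply `no_single_crossing` with `e := a (c 0)`, `e' := c 0` (`= a (a (c 0))`): the first crossing of
  the `η`-part is `c 0` (`c 0 ∉ K` since `hd (c 0) = hd d ∉ U`).  All other darts `x` of `ζ` are
  different from `c 0`, `a (c 0)`, and no dart of `l`, nor `c m`, nor their reverses occur in `ζ`:
  - `d`, `a d'`: not incident with `U` (`IsM.tl_notin`), all darts of `w` are incident with `U`;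
  - darts `c j`, `1 ≤ j < k`, `c j ∉ K`: `c j ≠ c 0`, `c j ≠ c m` (distinct, `k ≤ m`), `c j` has its
    tail in `U`, `a (c 0)` and `a (c m)` have their tail outside `U`; darts of `l` and their reverses
    are in `K`;
  - darts of the part in `M`: not incident with `U` (`M_notU`).
-/

namespace SST
namespace Tri

open Classical

variable {D : Type} [Fintype D]

/-- The hypotheses of section 5. -/
structure Setup (T : Tri D) (K : Finset D) (η : Equiv.Perm D) (M : Finset D) : Prop where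
  ac : T.AC K
  hη : ∀ d, η d = if d ∈ K then T.s (T.a d) else T.s d
  trans : ∀ d d', T.tl d ∈ T.VK K → T.tl d' ∈ T.VK K → η.SameCycle d d'
  isM : T.IsM (T.VK K) M
  geo : ∀ e₁ e₂, T.tl e₁ ∈ T.VK K → T.tl e₂ ∈ T.VK K → T.hd e₁ = T.hd e₂ → T.hd e₁ ∉ T.VK K →
    ∃ l : List D, T.IsWalk (T.tl e₁) l (T.tl e₂) ∧ (∀ d ∈ l, d ∈ K) ∧ l.length ≤ 6
  nul : ∀ c : List D, T.Closed c → c.length ≤ 8 → (∃ d ∈ c, T.tl d ∈ T.VK K) → T.NullHom c

omit [Fintype D] in
private theorem eta_dwalk {T : Tri D} {K : Finset D} {η : Equiv.Perm D}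
    (hη : ∀ d, η d = if d ∈ K then T.s (T.a d) else T.s d) (b : D) (n : ℕ) :
    ∃ L : List D, T.IsDWalk (T.fc b) L (T.fc ((η ^ n) b)) ∧
      ∀ x ∈ L, x ∉ K ∧ ∃ j < n, x = (η ^ j) b := by
  induction n with
  | zero => exact ⟨[], rfl, by simp⟩
  | succ n ih =>
    obtain ⟨L, h1, h2⟩ := ih
    have h3 : (η ^ (n + 1)) b = η ((η ^ n) b) := by rw [pow_succ']; rfl
    by_cases hK : (η ^ n) b ∈ K
    · refine ⟨L, ?_, fun x hx => ?_⟩
      · rw [h3, hη, if_pos hK, T.s_a, T.fc_f]; exact h1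
      · obtain ⟨h4, j, h5, h6⟩ := h2 x hx
        exact ⟨h4, j, by omega, h6⟩
    · refine ⟨L ++ [(η ^ n) b], ?_, fun x hx => ?_⟩
      · rw [h3, hη, if_neg hK, T.s_apply, T.fc_f]
        exact T.dwalk_append h1 (T.dwalk_single _)
      · rcases List.mem_append.1 hx with h4 | h4
        · obtain ⟨h5, j, h6, h7⟩ := h2 x h4
          exact ⟨h5, j, by omega, h7⟩
        · rw [List.mem_singleton] at h4
          rw [h4]
          exact ⟨hK, n, by omega, rfl⟩

omit [Fintype D] in
private theorem tl_mem_VK {T : Tri D} {K : Finset D} {x : D} (h : x ∈ K) : T.tl x ∈ T.VK K :=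
  Finset.mem_image_of_mem _ h

omit [Fintype D] in
private theorem eta_tl {T : Tri D} {K : Finset D} {η : Equiv.Perm D} (hac : T.AC K)
    (hη : ∀ d, η d = if d ∈ K then T.s (T.a d) else T.s d) {b : D} (hb : T.tl b ∈ T.VK K)
    (n : ℕ) : T.tl ((η ^ n) b) ∈ T.VK K := by
  induction n with
  | zero => exact hb
  | succ n ih =>
    have h3 : (η ^ (n + 1)) b = η ((η ^ n) b) := by rw [pow_succ']; rfl
    by_cases hK : (η ^ n) b ∈ K
    · rw [h3, hη, if_pos hK, T.tl_s]
      exact tl_mem_VK (hac _ hK)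
    · rw [h3, hη, if_neg hK, T.tl_s]
      exact ih

theorem Setup.next {T : Tri D} {K : Finset D} {η : Equiv.Perm D} {M : Finset D}
    (hS : T.Setup K η M) {d e : D} (hd : T.IsBd M d) (he : T.Succ M d e) :
    ∃ m : ℕ, (η ^ m) (T.bb d) = T.ab e ∧ (η ^ (m + 1)) (T.bb d) = T.bb e ∧
      ∀ k, 1 ≤ k → k ≤ m → ∀ d', T.IsBd M d' → (η ^ k) (T.bb d) ≠ T.bb d' := by
  obtain ⟨heB, het⟩ := succ_bd he
  obtain ⟨d1, d2, -, -, -, d6⟩ := bb_spec hS.isM hd
  obtain ⟨-, -, e3, e4, e5, -⟩ := bb_spec hS.isM heB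
  obtain ⟨dU, dU2⟩ := hS.isM.tl_notin hd.1
  obtain ⟨eU, -⟩ := hS.isM.tl_notin heB.1
  have hKn : ∀ x, T.tl x ∉ T.VK K → x ∉ K := fun x hx hK => hx (tl_mem_VK hK)
  have hKn2 : ∀ x, T.hd x ∉ T.VK K → x ∉ K := fun x hx hK => hx (tl_mem_VK (hS.ac _ hK))
  have hex : ∃ m : ℕ, (η ^ m) (T.bb d) = T.ab e := by
    obtain ⟨i, -, hi⟩ := (hS.trans _ _ d1 e3).exists_pow_eq'
    exact ⟨i, hi⟩
  set m := Nat.find hex with hm
  have hm1 : (η ^ m) (T.bb d) = T.ab e := Nat.find_spec hex
  have hmin : ∀ j, j < m → (η ^ j) (T.bb d) ≠ T.ab e := fun j hj => Nat.find_min hex hj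
  have habK : T.ab e ∉ K := hKn2 _ (by rw [e4]; exact eU)
  refine ⟨m, hm1, ?_, ?_⟩
  · have h3 : (η ^ (m + 1)) (T.bb d) = η ((η ^ m) (T.bb d)) := by rw [pow_succ']; rfl
    rw [h3, hm1, hS.hη, if_neg habK, e5]
  intro k hk1 hkm d' hd' hkd
  obtain ⟨-, -, -, -, -, b6⟩ := bb_spec hS.isM hd'
  obtain ⟨bU, bU2⟩ := hS.isM.tl_notin hd'.1
  set c0 := T.bb d with hc0
  have hc0K : c0 ∉ K := hKn2 _ (by rw [d2]; exact dU2)
  -- the dual walk
  have hc1 : η c0 = T.f (T.a c0) := by rw [hS.hη, if_neg hc0K, T.s_apply]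
  obtain ⟨L, hL1, hL2⟩ := eta_dwalk hS.hη (η c0) (k - 1)
  have hpw : ∀ j, (η ^ j) (η c0) = (η ^ (j + 1)) c0 := fun j => by rw [pow_succ]; rfl
  have hk' : (η ^ (k - 1)) (η c0) = T.bb d' := by
    rw [hpw, Nat.sub_add_cancel hk1, hkd]
  rw [hk', b6, hc1, T.fc_f] at hL1
  obtain ⟨lM, hlM1, hlM2⟩ := hS.isM.conn d' hd'.1 d hd.1
  have z1 : T.IsDWalk (T.fc d) [d] (T.fc c0) := by
    rw [d6]; exact T.dwalk_single d
  have z2 : T.IsDWalk (T.fc c0) [c0] (T.fc (T.a c0)) := T.dwalk_single c0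
  have z3 : T.IsDWalk (T.fc (T.a d')) [T.a d'] (T.fc d') := by
    have := T.dwalk_single (T.a d')
    rwa [T.aa] at this
  have hz : T.IsDWalk (T.fc d) ([d] ++ [c0] ++ (L ++ ([T.a d'] ++ lM))) (T.fc d) :=
    T.dwalk_append (T.dwalk_append z1 z2) (T.dwalk_append hL1 (T.dwalk_append z3 hlM1))
  -- the elements of the dual walk
  have cU : ∀ j, T.tl ((η ^ j) c0) ∈ T.VK K := eta_tl hS.ac hS.hη d1
  have hLsp : ∀ x ∈ L, x ∉ K ∧ ∃ j, 1 ≤ j ∧ j < k ∧ x = (η ^ j) c0 := by
    intro x hx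
    obtain ⟨h1, j, h2, h3⟩ := hL2 x hx
    refine ⟨h1, j + 1, by omega, by omega, ?_⟩
    rw [h3, hpw]
  have hlMsp : ∀ x ∈ lM, T.tl x ∉ T.VK K ∧ T.hd x ∉ T.VK K := fun x hx =>
    hS.isM.tl_notin (hlM2 x hx).1
  -- distinct
  have hdist : ∀ j, 1 ≤ j → j < k → (η ^ j) c0 ≠ c0 := by
    intro j h1 h2 h3
    apply hmin (m - j) (by omega)
    have h4 : (η ^ m) c0 = (η ^ (m - j)) ((η ^ j) c0) := by
      rw [← Equiv.Perm.mul_apply, ← pow_add, Nat.sub_add_cancel (by omega)]
    rw [h3] at h4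
    rw [← h4]; exact hm1
  have hcm : ∀ j, j < k → (η ^ j) c0 ≠ T.ab e := fun j hj => hmin j (by omega)
  have hhab : T.hd (T.ab e) = T.hd d := by rw [e4, het]
  -- the closed walk
  obtain ⟨l, hl1, hl2, hl3⟩ := hS.geo c0 (T.ab e) d1 e3 (by rw [d2, hhab]) (by rw [d2]; exact dU2)
  have hnull : T.NullHom ([] ++ [T.a c0] ++ (l ++ [T.ab e])) := by
    apply hS.nul
    · refine ⟨T.hd d, ?_⟩
      show T.tl (T.a c0) = T.hd d ∧ T.IsWalk (T.hd (T.a c0)) (l ++ [T.ab e]) (T.hd d)
      refine ⟨d2, ?_⟩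
      rw [T.hd_a]
      refine T.walk_append hl1 ?_
      have := T.walk_single (T.ab e)
      rwa [hhab] at this
    · simp only [List.nil_append, List.length_append, List.length_singleton]
      omega
    · exact ⟨T.ab e, by simp, e3⟩
  refine T.no_single_crossing (e := T.a c0) (e' := c0) (l₁ := [d])
    (l₂ := L ++ ([T.a d'] ++ lM)) hz (Or.inr (T.aa c0).symm) ?_ ?_ hnull ?_
  · intro x hx
    rw [List.mem_singleton] at hx
    rw [hx, T.aa]
    refine ⟨fun h => dU2 ?_, fun h => dU (by rw [h]; exact d1)⟩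
    rw [h, T.hd_a]; exact d1
  · intro x hx
    rw [T.aa]
    rcases List.mem_append.1 hx with hx | hx
    · obtain ⟨-, j, h1, h2, h3⟩ := hLsp x hx
      rw [h3]
      refine ⟨fun h => dU2 ?_, hdist j h1 h2⟩
      have h4 : T.tl (T.a c0) = T.hd c0 := rfl
      rw [← d2, ← h4, ← h]; exact cU j
    · rcases List.mem_append.1 hx with hx | hx
      · rw [List.mem_singleton] at hx
        rw [hx]
        refine ⟨fun h => bU ?_, fun h => bU2 ?_⟩
        · rw [T.a.injective h]; exact d1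
        · have h4 : T.tl (T.a d') = T.hd d' := rfl
          rw [← h4, h]; exact d1
      · obtain ⟨h1, h2⟩ := hlMsp x hx
        refine ⟨fun h => h2 ?_, fun h => h1 (by rw [h]; exact d1)⟩
        rw [h, T.hd_a]; exact d1
  · -- the other darts of the closed walk
    have hzK : ∀ x ∈ [d] ++ [c0] ++ (L ++ ([T.a d'] ++ lM)), x ∉ K := by
      intro x hx
      simp only [List.mem_append, List.mem_singleton] at hx
      rcases hx with (hx | hx) | (hx | (hx | hx))
      · rw [hx]; exact hKn _ dU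
      · rw [hx]; exact hc0K
      · exact (hLsp x hx).1
      · rw [hx]; exact hKn _ bU2
      · exact hKn _ (hlMsp x hx).1
    intro x hx
    rw [List.nil_append, List.mem_append, List.mem_singleton] at hx
    rcases hx with hx | hx
    · exact ⟨fun h => hzK _ h (hl2 x hx), fun h => hzK _ h (hS.ac _ (hl2 x hx))⟩
    · rw [hx]
      constructor
      · intro h
        simp only [List.mem_append, List.mem_singleton] at h
        rcases h with (h | h) | (h | (h | h))
        · exact dU (by rw [← h]; exact e3)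
        · exact hcm 0 (by omega) h.symm
        · obtain ⟨-, j, h1, h2, h3⟩ := hLsp _ h
          exact hcm j h2 h3.symm
        · apply bU2
          have h4 : T.tl (T.a d') = T.hd d' := rfl
          rw [← h4, ← h]; exact e3
        · exact (hlMsp _ h).1 e3
      · intro h
        have g1 : T.tl (T.a (T.ab e)) = T.hd d := hhab
        have g2 : T.hd (T.a (T.ab e)) = T.tl (T.ab e) := T.hd_a _
        simp only [List.mem_append, List.mem_singleton] at h
        rcases h with (h | h) | (h | (h | h))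
        · exact dU2 (by rw [← h, g2]; exact e3)
        · exact dU2 (by rw [← g1, h]; exact d1)
        · obtain ⟨-, j, h1, h2, h3⟩ := hLsp _ h
          exact dU2 (by rw [← g1, h3]; exact cU j)
        · exact bU (by rw [← T.a.injective h]; exact e3)
        · exact (hlMsp _ h).2 (by rw [g2]; exact e3)

end Tri
end SST
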