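import Pool.Agent.SST.D.DDefs
import Pool.Agent.SST.Walk

/-!
# SST-D-Om: identities for the form Omega  (paper proof, (2.1)-(2.4))
Everything is elementary.  `T.s d = T.f (T.a d)` (unfold `Tri.s`, `Equiv.Perm.mul_apply`), hence
`T.s (T.a d) = T.f d` by `T.aa`.
* `zz_anti`: `zz h (a d) = h (f d) - h (a d)`, use `InH` at `d`.  `xx_anti` similar (`f (a d) = s d`).
* `zz_cyc`: the sum of `h (s e) - h e` over an `s`-orbit is 0: `e ↦ s e` is a bijection of
  `{e | tl e = tl d}` (`T.tl (T.s e) = T.tl e` from `Equiv.Perm.sameCycle_apply_left` or similar;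
  use `Finset.sum_bij` / `Finset.sum_nbij'` with `s⁻¹`).
* `xx_coc`: telescoping with `T.fff`.
* `Om_s`: with `P = (h,h')`: sum over `d` of `h d * (h' (f d) + h' (s d)) - (h (f d) + h (s d)) * h' d`
  equals, by `InH`, the sum of `h d * (h' d + h' (a d)) - (h d + h (a d)) * h' d
  = h d * h' (a d) - h (a d) * h' d`, which is 0 because `a` is an involution
  (`Equiv.sum_comp T.a`).
* `Om_z`: `∑ (h d + h (s d)) * (h' (s d) - h' d) = ∑ (h d * h' (s d) - h (s d) * h' d)` because
  `∑ h (s d) * h' (s d) = ∑ h d * h' d` (`Equiv.sum_comp T.s`); then `Om_s`.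
* `Om_vertex`, `Om_face`: `q ∘ s = q`: `InH q` because `f d = s (a d)`, so `q (f d) = q (a d)`;
  use `Om_z` (`zz q = 0`).  `q ∘ f = q`: `s d = f (a d)`, so `q (s d) = q (a d)`; `Om h q =
  ∑ (h d - h (f d)) * q d = 0` as `∑ h (f d) * q (f d) = ∑ h d * q d`.
* `Area_xx`: for a face with darts `d, f d, f (f d)`: `xx h d * xx h' (f d) - xx h (f d) * xx h' d`
  is the sum of `h e * h' (f e) - h (f e) * h' e` over the three darts (ring, `T.fff`); sum over `d`.
-/

namespace SST
namespace Tri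

open Classical

variable {D : Type} [Fintype D]

theorem zz_anti (T : Tri D) {h : D → ℝ} (hh : T.InH h) (d : D) : T.zz h (T.a d) = - T.zz h d := by
  have h1 := hh d
  have h2 := T.s_a d
  unfold zz
  rw [h2]
  linarith

theorem xx_anti (T : Tri D) {h : D → ℝ} (hh : T.InH h) (d : D) : T.xx h (T.a d) = - T.xx h d := by
  have h1 := hh d
  have h2 := T.s_apply d
  unfold xx
  rw [← h2]
  linarith

theorem zz_cyc (T : Tri D) {h : D → ℝ} (hh : T.InH h) : T.IsCyc (T.zz h) := by
  refine ⟨fun d => T.zz_anti hh d, fun d => ?_⟩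
  have key : ∑ e with T.tl e = T.tl d, h (T.s e) = ∑ e with T.tl e = T.tl d, h e := by
    rw [Finset.sum_filter, Finset.sum_filter,
      ← Equiv.sum_comp T.s (fun e => if T.tl e = T.tl d then h e else 0)]
    refine Finset.sum_congr rfl fun e _ => ?_
    simp only [T.tl_s]
  simp only [zz, Finset.sum_sub_distrib, key, sub_self]

theorem xx_coc (T : Tri D) {h : D → ℝ} (hh : T.InH h) : T.IsCoc (T.xx h) := by
  refine ⟨fun d => T.xx_anti hh d, fun d => ?_⟩
  simp only [xx, T.fff]
  ring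

theorem Om_s (T : Tri D) {h h' : D → ℝ} (hh : T.InH h) (hh' : T.InH h') :
    T.Om h h' = - ∑ d, (h d * h' (T.s d) - h (T.s d) * h' d) := by
  have h0 : ∑ d, h (T.a d) * h' d = ∑ d, h d * h' (T.a d) := by
    rw [← Equiv.sum_comp T.a (fun d => h d * h' (T.a d))]
    refine Finset.sum_congr rfl fun d _ => ?_
    simp only [T.aa]
  have h1 : ∑ d, (h d * h' (T.f d) - h (T.f d) * h' d)
      + ∑ d, (h d * h' (T.s d) - h (T.s d) * h' d) = 0 := by
    rw [← Finset.sum_add_distrib]
    have : ∀ d, (h d * h' (T.f d) - h (T.f d) * h' d)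
        + (h d * h' (T.s d) - h (T.s d) * h' d) = h d * h' (T.a d) - h (T.a d) * h' d := by
      intro d
      have e1 := hh d
      have e2 := hh' d
      linear_combination (h d) * e2 - (h' d) * e1
    simp only [this, Finset.sum_sub_distrib, h0, sub_self]
  unfold Om
  linarith

theorem Om_z (T : Tri D) {h h' : D → ℝ} (hh : T.InH h) (hh' : T.InH h') :
    T.Om h h' = - ∑ d, (h d + h (T.s d)) * T.zz h' d := by
  rw [T.Om_s hh hh']
  have h0 : ∑ d, h (T.s d) * h' (T.s d) = ∑ d, h d * h' d :=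
    Equiv.sum_comp T.s (fun d => h d * h' d)
  have h1 : ∀ d, (h d + h (T.s d)) * T.zz h' d
      = (h d * h' (T.s d) - h (T.s d) * h' d) + (h (T.s d) * h' (T.s d) - h d * h' d) := by
    intro d
    unfold zz
    ring
  simp only [h1, Finset.sum_add_distrib]
  rw [Finset.sum_sub_distrib (fun d => h (T.s d) * h' (T.s d)), h0]
  simp

theorem Om_self (T : Tri D) (h : D → ℝ) : T.Om h h = 0 := by
  unfold Om
  exact Finset.sum_eq_zero fun d _ => by ring

theorem Om_swap (T : Tri D) (h h' : D → ℝ) : T.Om h h' = - T.Om h' h := by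
  unfold Om
  rw [← Finset.sum_neg_distrib]
  exact Finset.sum_congr rfl fun d _ => by ring

theorem InH_vertex (T : Tri D) {q : D → ℝ} (hq : ∀ d, q (T.s d) = q d) : T.InH q := by
  intro d
  rw [← T.s_a d, hq, hq]
  ring

theorem InH_face (T : Tri D) {p : D → ℝ} (hp : ∀ d, p (T.f d) = p d) : T.InH p := by
  intro d
  rw [T.s_apply d, hp, hp]

theorem Om_vertex (T : Tri D) {h q : D → ℝ} (hh : T.InH h) (hq : ∀ d, q (T.s d) = q d) :
    T.Om h q = 0 := by
  rw [T.Om_z hh (T.InH_vertex hq)]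
  simp [zz, hq]

theorem Om_face (T : Tri D) {h p : D → ℝ} (hh : T.InH h) (hp : ∀ d, p (T.f d) = p d) :
    T.Om h p = 0 := by
  have _ := hh
  have h0 : ∑ d, h (T.f d) * p (T.f d) = ∑ d, h d * p d :=
    Equiv.sum_comp T.f (fun d => h d * p d)
  unfold Om
  have h1 : ∀ d, h d * p (T.f d) - h (T.f d) * p d = h d * p d - h (T.f d) * p (T.f d) := by
    intro d
    rw [hp]
  simp only [h1, Finset.sum_sub_distrib, h0, sub_self]

theorem Area_xx (T : Tri D) (h h' : D → ℝ) : T.Area (T.xx h) (T.xx h') = 3 * T.Om h h' := by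
  have h1 : ∑ d, (h (T.f d) * h' (T.f (T.f d)) - h (T.f (T.f d)) * h' (T.f d)) = T.Om h h' :=
    Equiv.sum_comp T.f (fun d => h d * h' (T.f d) - h (T.f d) * h' d)
  have h2 : ∑ d, (h (T.f (T.f d)) * h' d - h d * h' (T.f (T.f d))) = T.Om h h' := by
    have h3 : ∑ d, (h (T.f (T.f d)) * h' (T.f (T.f (T.f d)))
        - h (T.f (T.f (T.f d))) * h' (T.f (T.f d))) = T.Om h h' := by
      rw [← h1]
      exact Equiv.sum_comp T.f
        (fun d => h (T.f d) * h' (T.f (T.f d)) - h (T.f (T.f d)) * h' (T.f d))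
    rw [← h3]
    refine Finset.sum_congr rfl fun d _ => ?_
    simp only [T.fff]
  have h4 : T.Area (T.xx h) (T.xx h') = ∑ d, ((h d * h' (T.f d) - h (T.f d) * h' d)
      + (h (T.f d) * h' (T.f (T.f d)) - h (T.f (T.f d)) * h' (T.f d))
      + (h (T.f (T.f d)) * h' d - h d * h' (T.f (T.f d)))) := by
    unfold Area xx
    exact Finset.sum_congr rfl fun d _ => by ring
  rw [h4, Finset.sum_add_distrib, Finset.sum_add_distrib, h1, h2]
  unfold Om
  ring

end Tri
end SST
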