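import Pool.Agent.SST.D.Lift
import Pool.Agent.SST.D.Chain

/-!
# SST-D-Rad: the radical of Omega  (paper proof, (2.5))
* `orth_cycles`: if `∑ d, m d * z d = 0` for all 1-cycles `z` then `m d - m (a d) = q (a d) - q d` for
  some `q` with `q ∘ s = q`.  Proof: fix for every vertex class reachability; or linear algebra: in
  the Euclidean space of antisymmetric functions the cycle space is the orthogonal complement of
  `{d ↦ q d - q (a d) : q ∘ s = q}` (test with indicator functions of vertices), and a subspace of a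
  finite dimensional space is its own double orthogonal.  Elementary alternative with walks: choose
  in every connected component of the graph (relation: there is a walk) a base vertex `o`, and for
  every vertex `v` of it a walk `P v` from `o` to `v`; `q v := -(1/2) ∑_{e in P v} (m e - m (a e))`;
  for a dart `d` the closed walk `P (tl d) ++ [d] ++ (P (hd d)) reversed` has a chain which is a
  1-cycle (`cyc_chain`), and `∑ d, m d * chain c d = ∑_{e in c} (m e - m (a e))`.
* `radical`: `m d := h d + h (s d)` is orthogonal to all 1-cycles: a 1-cycle is `zz h'` (`lift`), use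
  `Om_z`.  Let `q` be as above, `k d := h d + q d / 2`.  Then `k d + k (s d) = k (a d) + k (f d)`
  (use `q (s d) = q d` and `s (a d) = f d`) and `k (f d) + k (s d) = k d + k (a d)`
  (`InH h`, `InH q` = `InH_vertex`).  Subtract: `2 k (f d) = 2 k d`.  `p := k`, and the second
  summand is `-q/2`.
-/

namespace SST
namespace Tri

open Classical

variable {D : Type} [Fintype D]

/-- the linear functional on lists of darts given by `m` -/
private noncomputable def rphi (T : Tri D) (m : D → ℝ) (c : List D) : ℝ :=
  ∑ d, m d * (T.chain c d : ℝ)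

private theorem rphi_append (T : Tri D) (m : D → ℝ) (c c' : List D) :
    rphi T m (c ++ c') = rphi T m c + rphi T m c' := by
  unfold rphi
  rw [← Finset.sum_add_distrib]
  refine Finset.sum_congr rfl fun d _ => ?_
  rw [chain_append]
  push_cast
  ring

private theorem rphi_rev (T : Tri D) (m : D → ℝ) (c : List D) :
    rphi T m (c.map T.a).reverse = - rphi T m c := by
  unfold rphi
  rw [← Finset.sum_neg_distrib]
  refine Finset.sum_congr rfl fun d _ => ?_
  rw [chain_rev]
  push_cast
  ring

private theorem sum_mul_ind (m : D → ℝ) (x : D) : ∑ d, m d * (ind x d : ℝ) = m x := by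
  rw [Finset.sum_eq_single x]
  · rw [ind_self]
    simp
  · intro b _ hb
    rw [ind_ne hb.symm]
    simp
  · intro h
    exact absurd (Finset.mem_univ x) h

private theorem rphi_single (T : Tri D) (m : D → ℝ) (x : D) :
    rphi T m [x] = m x - m (T.a x) := by
  have h : ∀ d, m d * (T.chain [x] d : ℝ) = m d * (ind x d : ℝ) - m d * (ind (T.a x) d : ℝ) := by
    intro d
    rw [chain_cons, chain_nil, ← ind_a]
    push_cast
    ring
  unfold rphi
  rw [Finset.sum_congr rfl fun d _ => h d, Finset.sum_sub_distrib, sum_mul_ind, sum_mul_ind]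

theorem orth_cycles (T : Tri D) {m : D → ℝ} (hm : ∀ z, T.IsCyc z → ∑ d, m d * z d = 0) :
    ∃ q : D → ℝ, (∀ d, q (T.s d) = q d) ∧ ∀ d, m d - m (T.a d) = q (T.a d) - q d := by
  -- reachability
  let R : Setoid T.V :=
    { r := fun u v => ∃ c, T.IsWalk u c v
      iseqv :=
        { refl := fun u => ⟨[], rfl⟩
          symm := fun ⟨c, hc⟩ => ⟨_, T.walk_rev hc⟩
          trans := fun ⟨c, hc⟩ ⟨c', hc'⟩ => ⟨_, T.walk_append hc hc'⟩ } }
  let o : T.V → T.V := fun v => (Quotient.mk R v).out
  have ho : ∀ v, ∃ c, T.IsWalk (o v) c v := fun v => Quotient.mk_out (s := R) v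
  choose P hP using ho
  have hoe : ∀ d, o (T.tl d) = o (T.hd d) := by
    intro d
    have h : (Quotient.mk R (T.tl d)) = Quotient.mk R (T.hd d) :=
      Quotient.sound ⟨[d], T.walk_single d⟩
    change (Quotient.mk R (T.tl d)).out = (Quotient.mk R (T.hd d)).out
    rw [h]
  refine ⟨fun d => rphi T m (P (T.tl d)), fun d => ?_, fun d => ?_⟩
  · change rphi T m (P (T.tl (T.s d))) = rphi T m (P (T.tl d))
    rw [tl_s]
  · have hw1 : T.IsWalk (o (T.tl d)) (P (T.tl d) ++ [d]) (T.hd d) :=
      T.walk_append (hP _) (T.walk_single d)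
    have hw2 : T.IsWalk (T.hd d) ((P (T.hd d)).map T.a).reverse (o (T.tl d)) := by
      rw [hoe d]
      exact T.walk_rev (hP _)
    have hcl : T.Closed (P (T.tl d) ++ [d] ++ ((P (T.hd d)).map T.a).reverse) :=
      ⟨_, T.walk_append hw1 hw2⟩
    have h0 := hm _ (T.cyc_chain hcl)
    have h1 : rphi T m (P (T.tl d) ++ [d] ++ ((P (T.hd d)).map T.a).reverse) = 0 := h0
    rw [rphi_append, rphi_append, rphi_rev, rphi_single] at h1
    change m d - m (T.a d) = rphi T m (P (T.tl (T.a d))) - rphi T m (P (T.tl d))
    have h2 : rphi T m (P (T.tl (T.a d))) = rphi T m (P (T.hd d)) := rfl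
    rw [h2]
    linarith

theorem radical (T : Tri D) {h : D → ℝ} (hh : T.InH h) (h0 : ∀ h', T.InH h' → T.Om h h' = 0) :
    ∃ p q : D → ℝ, (∀ d, p (T.f d) = p d) ∧ (∀ d, q (T.s d) = q d) ∧ ∀ d, h d = p d + q d := by
  obtain ⟨q, hq, hmq⟩ := T.orth_cycles (m := fun d => h d + h (T.s d)) (by
    intro z hz
    obtain ⟨h', hh', hzz, _⟩ := T.lift hz
    have h1 := T.Om_z hh hh'
    rw [h0 h' hh', hzz] at h1
    linarith)
  refine ⟨fun d => h d + q d / 2, fun d => - q d / 2, fun d => ?_, fun d => ?_, fun d => ?_⟩
  · change h (T.f d) + q (T.f d) / 2 = h d + q d / 2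
    have h1 := hmq d
    have h2 := hh d
    have h3 := hq (T.a d)
    rw [s_a] at h3
    have h4 : T.s (T.a d) = T.f d := T.s_a d
    simp only [h4] at h1
    linarith
  · change - q (T.s d) / 2 = - q d / 2
    rw [hq]
  · change h d = h d + q d / 2 + - q d / 2
    ring

end Tri
end SST
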