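import Pool.Agent.SST.D.Next

/-!
# SST-D-Simp: the boundary darts of M have different tails  (paper proof, (5.6))
Suppose `e₁ ≠ e₂` are boundary darts with the same tail `u` (`∉ U`).  `g i := s^i e₁`.  `e₂ = g i` for
some `i ≥ 1` (`tl_eq_iff`, finiteness).  Let `p ≥ 1` be least with `a (g p) ∈ M`; it exists:
`e₂ = g i = f (a (g (i-1)))` is in `M`, so `a (g (i-1)) ∈ M` (`M` is closed under `f`, hence under
`f⁻¹ = f ∘ f`), and `i - 1 ≥ 1` because `a (g 0) = a e₁ ∉ M`.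
* `g 1, …, g p ∉ M`: `g (j+1) = f (a (g j))` and `a (g j) ∉ M` for `0 ≤ j < p`.
* `e₂` is none of `g 1, …, g p`, and neither is `s e₂`: `s e₂ = g j`, `1 ≤ j ≤ p`, would give
  `e₂ = g (j-1)`, so `e₂ = e₁` or `e₂ ∉ M`.
* `a (g p) ∈ M`, `g p ∉ M`.  `tl (ab e₁) ∈ U` and `ab e₁ = a (g 1)`, so `a (g 1) ∉ M` (`tl_notin`):
  `p ≥ 2`.
* Dual walk: `e₁` (from `fc e₁` to `fc (a e₁)`), then `rot` with `e := e₁` and `p`: crossing
  `g 1, …, g p`, ending in `fc (a (g p))`, then inside `M` back to `fc e₁` (`IsM.conn`).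
* Closed walk `w := [g 1] ++ l ++ [ab e₂]`: `u → hd (g 1) = tl (ab e₁)`, the `K`-walk `l` of length at
  most 6 from `tl (ab e₁)` to `tl (ab e₂)` (`geo` for the darts `ab e₁`, `ab e₂` with common head
  `u`), `ab e₂ : → u`.  `NullHom w` by `nul`.
* `no_single_crossing` with `e = e' = g 1`: `g 1` occurs once among `e₁, g 1, …, g p` and the crossings
  inside `M`: the `g j`, `0 ≤ j ≤ p`, are pairwise distinct (otherwise the `s`-orbit of `e₁` would be
  `g 0, …, g p'` with `p' < p`, and `e₂` would be one of them; or: if `g i = g j`, `i < j ≤ p`, then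
  `g 0 = g (j - i) ∉ M`, contradiction), `a (g 1)` does not occur (it has its tail in `U`; the tails
  of `e₁, g j` are `u ∉ U`).  The darts of `l` (both ends in `U`), `ab e₂` (tail in `U`; its reverse
  `s e₂` is no `g j`, `1 ≤ j ≤ p`, and `≠ e₁` because `e₁ ∈ M` but `s e₂ = a (ab e₂)` is incident with
  `U`) and their reverses do not occur either: `e₁` is not incident with `U`, darts crossed in `M` are
  not incident with `U` (`M_notU`), `g j` has its tail outside `U` (so `g j ∉ K`).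
-/

namespace SST
namespace Tri

open Classical

variable {D : Type} [Fintype D]

theorem Setup.tails {T : Tri D} {K : Finset D} {η : Equiv.Perm D} {M : Finset D}
    (hS : T.Setup K η M) {e₁ e₂ : D} (h₁ : T.IsBd M e₁) (h₂ : T.IsBd M e₂)
    (h : T.tl e₁ = T.tl e₂) : e₁ = e₂ := by
  by_contra hne
  obtain ⟨-, -, a3, a4, -, -⟩ := bb_spec hS.isM h₁
  obtain ⟨-, -, b3, b4, -, -⟩ := bb_spec hS.isM h₂
  obtain ⟨uU, -⟩ := hS.isM.tl_notin h₁.1
  obtain ⟨g, hg⟩ : ∃ g : ℕ → D, ∀ i, g i = (T.s ^ i) e₁ := ⟨_, fun _ => rfl⟩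
  have g0 : g 0 = e₁ := by rw [hg, pow_zero, Equiv.Perm.one_apply]
  have gs : ∀ i, g (i + 1) = T.s (g i) := by
    intro i
    rw [hg, hg, pow_succ', Equiv.Perm.mul_apply]
  have gtl : ∀ i, T.tl (g i) = T.tl e₁ := by
    intro i
    induction i with
    | zero => rw [g0]
    | succ i ih => rw [gs, T.tl_s, ih]
  have gM : ∀ i, g (i + 1) ∈ M → T.a (g i) ∈ M := by
    intro i hi
    have h3 : T.f (T.f (g (i + 1))) = T.a (g i) := by
      rw [gs, T.s_apply, T.fff]
    rw [← h3]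
    exact hS.isM.fM _ (hS.isM.fM _ hi)
  have hex : ∃ p : ℕ, 1 ≤ p ∧ T.a (g p) ∈ M := by
    obtain ⟨i, -, hi⟩ := ((T.tl_eq_iff e₁ e₂).1 h).exists_pow_eq'
    rw [← hg] at hi
    rcases i with _ | i
    · rw [g0] at hi
      exact absurd hi hne
    · have h3 : T.a (g i) ∈ M := gM i (by rw [hi]; exact h₂.1)
      refine ⟨i, ?_, h3⟩
      rcases i with _ | i
      · rw [g0] at h3
        exact absurd h3 h₁.2
      · omega
  obtain ⟨p, ⟨hp1, hpM⟩, hmin⟩ : ∃ p : ℕ, (1 ≤ p ∧ T.a (g p) ∈ M) ∧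
      ∀ j, j < p → ¬ (1 ≤ j ∧ T.a (g j) ∈ M) :=
    ⟨Nat.find hex, Nat.find_spec hex, fun j hj => Nat.find_min hex hj⟩
  have hlt : ∀ j, j < p → T.a (g j) ∉ M := by
    intro j hj hjM
    rcases j with _ | j
    · rw [g0] at hjM
      exact h₁.2 hjM
    · exact hmin _ hj ⟨by omega, hjM⟩
  have hgn : ∀ j, 1 ≤ j → j ≤ p → g j ∉ M := by
    intro j h3 h4 h5
    obtain ⟨i, rfl⟩ : ∃ i, j = i + 1 := ⟨j - 1, by omega⟩
    exact hlt i (by omega) (gM i h5)
  have hag1 : T.a (g 1) = T.ab e₁ := by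
    have h3 : g 1 = T.s e₁ := by rw [← g0]; exact gs 0
    rw [h3]
    rfl
  have hhg1 : T.hd (g 1) = T.tl (T.ab e₁) := by
    show T.tl (T.a (g 1)) = T.tl (T.ab e₁)
    rw [hag1]
  have hp2 : 2 ≤ p := by
    by_contra hcon
    have hp : p = 1 := by omega
    rw [hp, hag1] at hpM
    exact (hS.isM.tl_notin hpM).1 a3
  -- the dual walk
  obtain ⟨q, rfl⟩ : ∃ q, p = q + 1 := ⟨p - 1, by omega⟩
  obtain ⟨lM, hlM1, hlM2⟩ := hS.isM.conn _ hpM e₁ h₁.1
  obtain ⟨L, hL⟩ : ∃ L : List D, L = (List.range q).map fun i => g (i + 2) := ⟨_, rfl⟩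
  have hLe : ((List.range (q + 1)).map fun i => (T.s ^ (i + 1)) e₁) = g 1 :: L := by
    rw [List.range_succ_eq_map, List.map_cons, List.map_map, hL, hg]
    refine congrArg₂ List.cons rfl (List.map_congr_left fun i _ => ?_)
    rw [hg]
    rfl
  have hrot := T.rot e₁ (q + 1)
  rw [hLe, ← hg] at hrot
  have hz : T.IsDWalk (T.fc e₁) ([e₁] ++ ((g 1 :: L) ++ lM)) (T.fc e₁) :=
    T.dwalk_append (T.dwalk_single e₁) (T.dwalk_append hrot hlM1)
  have hz' : [e₁] ++ ((g 1 :: L) ++ lM) = [e₁] ++ [g 1] ++ (L ++ lM) := by simp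
  rw [hz'] at hz
  have hLsp : ∀ x ∈ L, ∃ j, 2 ≤ j ∧ j ≤ q + 1 ∧ x = g j := by
    intro x hx
    rw [hL, List.mem_map] at hx
    obtain ⟨i, hi, hxi⟩ := hx
    rw [List.mem_range] at hi
    exact ⟨i + 2, by omega, by omega, hxi.symm⟩
  have hlMsp : ∀ x ∈ lM, T.tl x ∉ T.VK K ∧ T.hd x ∉ T.VK K := fun x hx =>
    hS.isM.tl_notin (hlM2 x hx).1
  -- the closed walk
  obtain ⟨l, hl1, hl2, hl3⟩ := hS.geo (T.ab e₁) (T.ab e₂) a3 b3 (by rw [a4, b4, h])
    (by rw [a4]; exact uU)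
  have hnull : T.NullHom ([] ++ [g 1] ++ (l ++ [T.ab e₂])) := by
    apply hS.nul
    · refine ⟨T.tl e₁, ?_⟩
      show T.tl (g 1) = T.tl e₁ ∧ T.IsWalk (T.hd (g 1)) (l ++ [T.ab e₂]) (T.tl e₁)
      refine ⟨gtl 1, ?_⟩
      rw [hhg1]
      refine T.walk_append hl1 ?_
      have h3 := T.walk_single (T.ab e₂)
      rwa [b4, ← h] at h3
    · simp only [List.nil_append, List.length_append, List.length_singleton]
      omega
    · exact ⟨T.ab e₂, by simp, b3⟩
  -- tails of the crossed darts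
  have hZ : ∀ x ∈ [e₁] ++ [g 1] ++ (L ++ lM), T.tl x ∉ T.VK K := by
    intro x hx
    simp only [List.mem_append, List.mem_singleton] at hx
    rcases hx with (hx | hx) | (hx | hx)
    · rw [hx]; exact uU
    · rw [hx, gtl]; exact uU
    · obtain ⟨j, -, -, h5⟩ := hLsp x hx
      rw [h5, gtl]; exact uU
    · exact (hlMsp x hx).1
  refine T.no_single_crossing (e := g 1) (e' := g 1) (l₁ := [e₁]) (l₂ := L ++ lM) hz (Or.inl rfl)
    ?_ ?_ hnull ?_
  · intro x hx
    rw [List.mem_singleton] at hx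
    rw [hx]
    refine ⟨fun h3 => hgn 1 le_rfl (by omega) (by rw [← h3]; exact h₁.1), fun h3 => uU ?_⟩
    rw [h3, hag1]
    exact a3
  · intro x hx
    rcases List.mem_append.1 hx with hx | hx
    · obtain ⟨j, h3, h4, h5⟩ := hLsp x hx
      refine ⟨fun h6 => ?_, fun h6 => ?_⟩
      · rw [h5] at h6
        obtain ⟨i, rfl⟩ : ∃ i, j = i + 1 := ⟨j - 1, by omega⟩
        have h7 : T.s (g i) = T.s (g 0) := by rw [← gs, ← gs, h6]
        have h8 : g i = e₁ := by rw [← g0]; exact T.s.injective h7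
        exact hgn i (by omega) (by omega) (by rw [h8]; exact h₁.1)
      · apply uU
        rw [← gtl j, ← h5, h6, hag1]
        exact a3
    · obtain ⟨h3, h4⟩ := hlMsp x hx
      refine ⟨fun h6 => h4 ?_, fun h6 => h3 ?_⟩
      · rw [h6, hhg1]; exact a3
      · rw [h6, hag1]; exact a3
  · intro x hx
    rw [List.nil_append, List.mem_append, List.mem_singleton] at hx
    rcases hx with hx | hx
    · exact ⟨fun h3 => hZ _ h3 (Finset.mem_image_of_mem _ (hl2 x hx)),
        fun h3 => hZ _ h3 (Finset.mem_image_of_mem _ (hS.ac _ (hl2 x hx)))⟩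
    · rw [hx]
      refine ⟨fun h3 => hZ _ h3 b3, fun h3 => ?_⟩
      have g2 : T.hd (T.a (T.ab e₂)) = T.tl (T.ab e₂) := T.hd_a _
      have g3 : T.a (T.ab e₂) = T.s e₂ := T.aa _
      have g4 : ∀ j, 1 ≤ j → j ≤ q + 1 → T.a (T.ab e₂) ≠ g j := by
        intro j h4 h5 h6
        obtain ⟨i, rfl⟩ : ∃ i, j = i + 1 := ⟨j - 1, by omega⟩
        rw [g3, gs] at h6
        have h7 : e₂ = g i := T.s.injective h6
        rcases i with _ | i
        · rw [g0] at h7
          exact hne h7.symm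
        · exact hgn (i + 1) (by omega) (by omega) (by rw [← h7]; exact h₂.1)
      simp only [List.mem_append, List.mem_singleton] at h3
      rcases h3 with (h3 | h3) | (h3 | h3)
      · apply (hS.isM.tl_notin h₁.1).2
        rw [← h3, g2]; exact b3
      · exact g4 1 le_rfl (by omega) h3
      · obtain ⟨j, h4, h5, h6⟩ := hLsp _ h3
        exact g4 j (by omega) h5 h6
      · exact (hlMsp _ h3).2 (by rw [g2]; exact b3)

end Tri
end SST
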